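import Pool.Agent.Run7.h158.Hdg.Theta

/-!
# Hodge classes generated by the second cohomology of a hyper-Kähler variety
-/

open CategoryTheory AlgebraicGeometry MvPolynomial

namespace Run7.h158.Hdg

open Pool.Agent.H914 Pool.Agent.H914.VarClass Pool.Agent.H914.VarClass.Obj Pool.Agent.W492.BB
  Pool.Agent.W550.Corr Pool.Agent.TH133 Pool.Agent.TH829.Prime Pool.Agent.TH829.Kim
  Pool.Agent.Q8.HK Pool.Agent.N174.OV Pool.Agent.Y107 Pool.Agent.N174.KN Run7.h158

set_option autoImplicit false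
set_option linter.unusedSectionVars false

variable {𝒱 : VarClass ℂ} {C : TheoryData.{0, 0, 0} 𝒱 ℚ} [hC : IsChowProj C]
  {H : WeilTheoryData.{0, 0, 0} C ℂ} [hH : IsWeilProj H] {X W : 𝒱.Obj}
  {n : ℕ} {V : Type} [AddCommGroup V] [Module ℂ V]

/-- The span of the classes of cycles as an algebra. -/
noncomputable def spcA (H : WeilTheoryData.{0, 0, 0} C ℂ) [IsWeilProj H] (X : 𝒱.Obj) :
    Subalgebra ℂ (H.A X) where
  carrier := spc H X
  mul_mem' ha hb := spc_mul ha hb
  add_mem' ha hb := Submodule.add_mem _ ha hb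
  algebraMap_mem' c := by
    rw [Algebra.algebraMap_eq_smul_one, ← map_one (H.cl (X := X))]
    exact Submodule.smul_mem _ _ (cl_mem_spc _)

include hC hH

lemma pull_lift_ext {P Y Z : 𝒱.Obj} (f : P ⟶ Y) (g : P ⟶ Z) (a : H.A Y) (b : H.A Z) :
    H.pull (Obj.lift f g) (H.ext a b) = H.pull f a * H.pull g b := by
  rw [TheoryData.ext, map_mul, ← H.pull_comp, ← H.pull_comp, lift_fst, lift_snd]

/-- The class of a cycle of degree `2p` is the class of a cycle of codimension `p`. -/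
lemma exists_homog {z : C.A X} {p : ℕ} (hz : H.Deg ((2 * p : ℕ) : ℤ) (H.cl z)) :
    ∃ z' ∈ C.gr X p, H.cl z' = H.cl z := by
  have key : ∃ T : Finset ℤ, ∀ T' : Finset ℤ, T ⊆ T' → z = ∑ k ∈ T', cmp (C.isInternal X) k z := by
    refine hom_ind X (p := fun x => ∃ T : Finset ℤ, ∀ T' : Finset ℤ, T ⊆ T' →
      x = ∑ k ∈ T', cmp (C.isInternal X) k x) ?_ ?_ z
    · intro i a ha
      refine ⟨{i}, fun T' hT => ?_⟩
      rw [Finset.sum_eq_single_of_mem i (hT (Finset.mem_singleton_self i)), cmp_of_mem _ ha]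
      intro j _ hj
      exact cmp_of_ne _ ha hj.symm
    · rintro a b ⟨T1, h1⟩ ⟨T2, h2⟩
      refine ⟨T1 ∪ T2, fun T' hT => ?_⟩
      have e1 := h1 T' (Finset.subset_union_left.trans hT)
      have e2 := h2 T' (Finset.subset_union_right.trans hT)
      conv_lhs => rw [e1, e2]
      rw [← Finset.sum_add_distrib]
      exact Finset.sum_congr rfl fun k _ => (map_add _ _ _).symm
  obtain ⟨T, hT⟩ := key
  have h1 := hT (insert (p : ℤ) T) (Finset.subset_insert _ _)
  refine ⟨cmp (C.isInternal X) p z, cmp_mem _ _ _, ?_⟩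
  have h2 := congrArg (fun w => cpK (H.isInternal X) (2 * p) (H.cl w)) h1
  simp only [map_sum] at h2
  rw [Finset.sum_eq_single_of_mem (p : ℤ) (Finset.mem_insert_self _ _)] at h2
  · rw [cpK_of_mem _ (H.cl_mem (cmp_mem _ _ _)), cpK_of_mem _ (by
      have h3 : ((2 * p : ℕ) : ℤ) = 2 * (p : ℤ) := by push_cast; ring
      rwa [h3] at hz)] at h2
    exact h2.symm
  · intro k _ hk
    exact cpK_of_ne _ (H.cl_mem (cmp_mem _ _ _)) (by omega)

section rational

variable {D : HodgeData H}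

omit hC hH in
lemma drat_add {x y : H.A X} (hx : D.IsRat x) (hy : D.IsRat y) : D.IsRat (x + y) := by
  intro j
  obtain ⟨r, hr⟩ := hx j
  obtain ⟨r', hr'⟩ := hy j
  exact ⟨r + r', by rw [map_add, Finsupp.add_apply, hr, hr', Rat.cast_add]⟩

omit hC hH in
lemma drat_smul {x : H.A X} (hx : D.IsRat x) (r : ℚ) : D.IsRat ((r : ℂ) • x) := by
  intro j
  obtain ⟨r', hr'⟩ := hx j
  exact ⟨r * r', by rw [map_smul, Finsupp.smul_apply, hr', smul_eq_mul, Rat.cast_mul]⟩

omit hC hH in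
lemma drat_zero : D.IsRat (0 : H.A X) := fun j => ⟨0, by simp⟩

end rational

variable {D : HodgeData H} (hD : IsHodgeTheory D) {hX : HyperKahler H n X V}
  (hc : Cmp D hX)

include hD hc

/-- Rational polynomials have rational values. -/
lemma psi_rat {σ : Type} {P : 𝒱.Obj} {y : σ → H.A P} (hy : ∀ i, D.IsRat (y i))
    {Ψ : MvPolynomial σ ℂ →ₐ[ℂ] H.A P} (hΨ : ∀ i, Ψ (MvPolynomial.X i) = y i) (κ : MvPolynomial σ ℚ) :
    D.IsRat (Ψ (MvPolynomial.map (algebraMap ℚ ℂ) κ)) := by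
  induction κ using MvPolynomial.induction_on with
  | C a =>
    rw [map_C, ← MvPolynomial.algebraMap_eq, AlgHom.commutes, Algebra.algebraMap_eq_smul_one,
      ← map_one (H.cl (X := P))]
    exact drat_smul (hD.cl_rat 1) a
  | add p q hp hq =>
    rw [map_add, map_add]
    exact drat_add hp hq
  | mul_X p i hp =>
    rw [map_mul, map_mul, map_X, hΨ]
    exact hD.mul_rat _ _ hp (hy i)

/-- The Hodge operator on the values of polynomials. -/
lemma psi_eta {P : 𝒱.Obj} {JN JT JM M : Type} [Fintype JN] [Fintype JT] [DecidableEq JN]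
    [DecidableEq JT] [Fintype JM] [DecidableEq JM] [Fintype M] [DecidableEq M] (A : Adp hX.q (fun v => IsRat hX.b (hX.i v)) hX.toCoh.NS JN JT) (p : M → (P ⟶ X))
    (e : JM → M × JN) {Ψ : MvPolynomial (JM ⊕ (M × JT)) ℂ →ₐ[ℂ] H.A P}
    (h1 : ∀ i, Ψ (MvPolynomial.X (Sum.inl i)) = H.pull (p (e i).1) (hX.i (A.B (Sum.inl (e i).2))))
    (h2 : ∀ i, Ψ (MvPolynomial.X (Sum.inr i)) = H.pull (p i.1) (hX.i (A.B (Sum.inr i.2))))
    (κ : MvPolynomial (JM ⊕ (M × JT)) ℂ) :
    Ψ (DX (hA A.Q (sT A) (sT' A)) κ) = (hX.tau / 2) • D.eta P (Ψ κ) := by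
  have htau : (hX.tau : ℂ) ≠ 0 := hX.s_s'
  have hpe : ∀ (q : P ⟶ X) (v : V), (hX.tau / 2) • D.eta P (H.pull q (hX.i v)) =
      H.pull q (hX.i (g0 hX.toCoh v)) := by
    intro q v
    have e1 : D.eta P (H.pull q (hX.i v)) = H.pull q (D.eta X (hX.i v)) := hD.eta_pull q _
    rw [e1, ← hc.eta, eta_i, map_smul, smul_smul, div_mul_div_comm, mul_comm hX.tau,
      div_self (mul_ne_zero two_ne_zero htau), one_smul]
  induction κ using MvPolynomial.induction_on with
  | C a =>
    have e1 : D.eta P (Ψ (MvPolynomial.C a)) = 0 := by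
      rw [← MvPolynomial.algebraMap_eq, AlgHom.commutes, Algebra.algebraMap_eq_smul_one,
        ← map_one (H.cl (X := P)), map_smul]
      have : D.eta P (H.cl 1) = 0 := hD.eta_cl 1
      rw [this, smul_zero]
    rw [e1, smul_zero, derivation_C, map_zero]
  | add p q hp hq => rw [map_add, map_add, map_add, map_add, smul_add, hp, hq]
  | mul_X q i hq =>
    rw [Derivation.leibniz, smul_eq_mul, smul_eq_mul, map_add, map_mul, map_mul, map_mul, hq]
    have e1 : D.eta P (Ψ q * Ψ (MvPolynomial.X i)) =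
        D.eta P (Ψ q) * Ψ (MvPolynomial.X i) + Ψ q * D.eta P (Ψ (MvPolynomial.X i)) :=
      hD.eta_mul _ _
    rw [e1, smul_add]
    have e2 : Ψ (DX (hA A.Q (sT A) (sT' A)) (MvPolynomial.X i)) =
        (hX.tau / 2) • D.eta P (Ψ (MvPolynomial.X i)) := by
      rcases i with i | ⟨j, a⟩
      · rw [DX_inl, map_zero, h1, hpe, g0_ns (A.ns _), map_zero, map_zero]
      · rw [DX_inr, h2, hpe, ← tv_single, g0_tv, map_sum]
        have e3 : (hA A.Q (sT A) (sT' A)).mulVec (Pi.single a 1) =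
            fun b => hA A.Q (sT A) (sT' A) b a := by
          funext b
          rw [Matrix.mulVec_single_one]
          rfl
        rw [e3, tv_apply, map_sum, map_sum]
        refine Finset.sum_congr rfl fun b _ => ?_
        rw [map_smul, h2, map_smul, map_smul]
    have e4 : Ψ (MvPolynomial.X i) * (hX.tau / 2) • D.eta P (Ψ q) =
        (hX.tau / 2) • (D.eta P (Ψ q) * Ψ (MvPolynomial.X i)) := by
      have e5 : ∀ c, Ψ (MvPolynomial.X i) * c = c * Ψ (MvPolynomial.X i) := by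
        intro c
        rcases i with i | i
        · rw [h1]
          exact central_i hD hX _ _ _ _
        · rw [h2]
          exact central_i hD hX _ _ _ _
      rw [mul_smul_comm, e5]
    rw [e2, e4, mul_smul_comm, add_comm]

variable (hE : ScalarEnd hX.toCoh) {h : C.A X} (hh : h ∈ C.gr X 1)
  (hne : degL H X (h ^ (2 * n)) ≠ 0) (hd : DivHyp hX) {Γ : C.A (X.prod X)}
  (hΓ : Γ ∈ C.gr (X.prod X) 2)
  (hne' : H.act (H.cl Γ) (H.cl h ^ (2 * n - 2) * hX.i hX.s) ≠ 0)

include hE hh hne hd hΓ hne'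

/-- **Hodge classes.** -/
theorem hodge_of {k m : ℕ} (hm : m < Module.finrank ℂ (Tr hX.toCoh)) (P : Fin k → 𝒱.Obj)
    (p : ∀ i, Fin m → (P i ⟶ X)) (Δ : ∀ i, C.A ((P i).prod W)) (u : ∀ i, H.A (P i))
    (hu : ∀ i, u i ∈ Algebra.adjoin ℂ {y : H.A (P i) | ∃ (j : Fin m) (v : V),
      y = H.pull (p i j) (hX.i v)}) (hxr : D.IsRat (∑ i, H.act (H.cl (Δ i)) (u i)))
    (hxe : D.eta W (∑ i, H.act (H.cl (Δ i)) (u i)) = 0) :
    ∃ z : C.A W, H.cl z = ∑ i, H.act (H.cl (Δ i)) (u i) := by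
  obtain ⟨x, hx⟩ : ∃ x, x = ∑ i, H.act (H.cl (Δ i)) (u i) := ⟨_, rfl⟩
  rw [← hx] at hxr hxe ⊢
  obtain ⟨JN, JT, _, _, _, _, ⟨A⟩⟩ := exists_adp_coh hX.toCoh
  -- the class of the quadratic form
  have hθ := theta_mem hD hc hh (ns_of_div hd hh (i_vec hX ⟨h, hh⟩)) (form_ne hX hh hne)
    (i_vec hX ⟨h, hh⟩).symm hE hΓ hne' A
  -- the evaluation of polynomials
  let y : ∀ i : Fin k, ((Fin m × JN) ⊕ (Fin m × JT)) → H.A (P i) := fun i =>
    Sum.elim (fun x => H.pull (p i x.1) (hX.i (A.B (Sum.inl x.2))))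
      fun x => H.pull (p i x.1) (hX.i (A.B (Sum.inr x.2)))
  have hyc : ∀ i j l, y i j * y i l = y i l * y i j := by
    intro i j l
    rcases j with j | j
    · exact central_i hD hX _ _ _ _
    · exact central_i hD hX _ _ _ _
  choose Ψ hΨ using fun i => exists_psi (y i) (hyc i)
  have hyr : ∀ i j, D.IsRat (y i j) := by
    intro i j
    rcases j with j | j
    · exact hD.pull_rat _ _ ((hc.rat _).1 (A.ns _).1)
    · exact hD.pull_rat _ _ ((hc.rat _).1 (A.rt _))
  let F : (Fin k → MvPolynomial ((Fin m × JN) ⊕ (Fin m × JT)) ℂ) →ₗ[ℂ] H.A W :=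
    ∑ i, (H.actL (H.cl (Δ i))) ∘ₗ (Ψ i).toLinearMap ∘ₗ LinearMap.proj i
  have hF : ∀ κ, F κ = ∑ i, H.act (H.cl (Δ i)) (Ψ i (κ i)) := by
    intro κ
    simp only [F, LinearMap.sum_apply]
    rfl
  have hS : Setup A.Q (sT A) (sT' A) (D.b W) (fun x => (hX.tau / 2) • D.eta W x) F :=
    { symm := fun a b => by rw [bQ_tv, bQ_tv, hX.q_symm]
      det := A.det
      ss := by rw [bQ_tv, tv_s]; exact hX.s_iso
      ss' := by rw [bQ_tv, tv_s']; exact hX.s'_iso
      tau := by rw [bQ_tv, tv_s, tv_s']; exact hX.s_s'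
      irr := fun v hv => by
        rw [bQ_tv, tv_s, hX.q_symm] at hv
        refine ns_tv A hv ?_
        rw [q_conj hc.conj (rat_tv A v)]
        exact (congrArg _ hv).trans (map_zero _)
      irr' := fun v hv => by
        rw [bQ_tv, tv_s', hX.q_symm] at hv
        refine ns_tv A ?_ hv
        rw [q_conj hc.conj (rat_tv A v)] at hv
        exact (map_eq_zero _).1 hv
      scalar := fun Z hZ => scalar_of A hE Z hZ
      rat := fun κ => by
        rw [hF]
        refine Finset.sum_induction _ (fun v => D.IsRat v) (fun a b ha hb => drat_add ha hb)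
          drat_zero fun i _ => ?_
        exact act_rat hD _ (psi_rat hD hc (hyr i) (hΨ i) (κ i))
      eta_F := fun κ => by
        rw [hF, hF, map_sum, Finset.smul_sum]
        refine Finset.sum_congr rfl fun i _ => ?_
        rw [act_eta hD, ← act_map_smul, DT_apply, psi_eta hD hc A (p i) (fun x => x)
          (fun j => hΨ i (Sum.inl j)) (fun j => hΨ i (Sum.inr j))] }
  -- the class in the range
  have hgen : ∀ i, ∃ κ, Ψ i κ = u i := by
    intro i
    have h1 : Algebra.adjoin ℂ {y : H.A (P i) | ∃ (j : Fin m) (v : V),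
        y = H.pull (p i j) (hX.i v)} ≤ (Ψ i).range := by
      refine Algebra.adjoin_le ?_
      rintro _ ⟨j, v, rfl⟩
      rw [← A.B.sum_repr v, Fintype.sum_sum_type, map_add, map_add, map_sum, map_sum, map_sum,
        map_sum]
      refine Subalgebra.add_mem _ (Subalgebra.sum_mem _ fun c _ => ?_)
        (Subalgebra.sum_mem _ fun a _ => ?_)
      · rw [map_smul, map_smul]
        exact Subalgebra.smul_mem _ ((AlgHom.mem_range _).2 ⟨_, hΨ i (Sum.inl (j, c))⟩) _
      · rw [map_smul, map_smul]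
        exact Subalgebra.smul_mem _ ((AlgHom.mem_range _).2 ⟨_, hΨ i (Sum.inr (j, a))⟩) _
    exact h1 (hu i)
  choose κ hκ using hgen
  obtain ⟨T, hT, hFT⟩ := hS.exists_inv (x := x) (by
    rw [Fintype.card_fin, ← finrank_Tr A]
    exact hm) (by rw [map_zero, smul_zero]) hxr (by rw [hxe, smul_zero]) ⟨κ, by
      rw [hF, hx]
      exact Finset.sum_congr rfl fun i _ => by rw [hκ]⟩
  -- the invariants are algebraic
  have halg : ∀ i, Ψ i (T i) ∈ spc H (P i) := by
    intro i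
    have h1 : AlgQ (Fin m × JN) (Fin m) A.Q ≤ (spcA H (P i)).comap (Ψ i) := by
      refine Algebra.adjoin_le ?_
      rintro _ (⟨⟨j, c⟩, rfl⟩ | ⟨⟨j, l⟩, rfl⟩)
      · change Ψ i (MvPolynomial.X (Sum.inl (j, c))) ∈ spc H (P i)
        rw [hΨ]
        obtain ⟨D', -, hD'⟩ := hX.lefschetz _ (A.ns c)
        change H.pull (p i j) (hX.i (A.B (Sum.inl c))) ∈ _
        rw [← hD', ← H.cl_pull]
        exact cl_mem_spc _
      · change Ψ i (GQ (Fin m × JN) A.Q j l) ∈ spc H (P i)
        have h2 := spc_pull (Obj.lift (p i j) (p i l)) hθ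
        have h3 : Ψ i (GQ (Fin m × JN) A.Q j l) = H.pull (Obj.lift (p i j) (p i l))
            (∑ a, ∑ b, cm A.Q⁻¹ a b • H.ext (hX.i (A.B (Sum.inr a)))
              (hX.i (A.B (Sum.inr b)))) := by
          rw [GQ, map_sum, map_sum]
          refine Finset.sum_congr rfl fun a _ => ?_
          rw [map_sum, map_sum]
          refine Finset.sum_congr rfl fun b _ => ?_
          rw [map_smul, map_smul, map_mul, hΨ, hΨ, pull_lift_ext]
          rfl
        rw [h3]
        exact h2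
    exact h1 (hT i)
  have hxs : x ∈ spc H W := by
    rw [← hFT, hF]
    exact Submodule.sum_mem _ fun i _ => spc_act _ (halg i)
  obtain ⟨z, hz⟩ := desc (D.b W) (S := Set.range (H.cl (X := W))) ⟨0, map_zero _⟩
    (by
      rintro _ ⟨a, rfl⟩ _ ⟨b, rfl⟩
      exact ⟨a + b, map_add _ _ _⟩)
    (by
      rintro r _ ⟨a, rfl⟩
      exact ⟨r • a, cl_smul r a⟩)
    (by
      rintro _ ⟨a, rfl⟩
      exact hD.cl_rat a) hxr hxs
  exact ⟨z, hz⟩

end Run7.h158.Hdg
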