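import Mathlib

/-!
# Hermitian forms and the Fischer form on polynomials
-/

set_option autoImplicit false
set_option linter.style.haveILetI false

open MvPolynomial

namespace Run7.h158.Hdg

/-- A positive definite Hermitian form. -/
structure Herm (E : Type) [AddCommGroup E] [Module ℂ E] where
  /-- the form -/
  h : E → E →ₗ[ℂ] ℂ
  symm : ∀ x y, (starRingEnd ℂ) (h y x) = h x y
  pos : ∀ x, x ≠ 0 → 0 < (h x x).re

namespace Herm

variable {E : Type} [AddCommGroup E] [Module ℂ E] (Hm : Herm E)

theorem add_left (x x' y : E) : Hm.h (x + x') y = Hm.h x y + Hm.h x' y := by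
  rw [← Hm.symm, map_add, map_add, Hm.symm, Hm.symm]

theorem smul_left (c : ℂ) (x y : E) : Hm.h (c • x) y = (starRingEnd ℂ) c * Hm.h x y := by
  rw [← Hm.symm, map_smul, smul_eq_mul, map_mul, Hm.symm]

theorem zero_left (y : E) : Hm.h 0 y = 0 := by
  rw [← Hm.symm, map_zero, map_zero]

theorem neg_left (x y : E) : Hm.h (-x) y = -Hm.h x y := by
  have h1 := Hm.add_left x (-x) y
  rw [add_neg_cancel, Hm.zero_left] at h1
  linear_combination -h1

theorem sum_left {ι : Type} (s : Finset ι) (f : ι → E) (y : E) :
    Hm.h (∑ i ∈ s, f i) y = ∑ i ∈ s, Hm.h (f i) y := by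
  classical
  induction s using Finset.induction_on with
  | empty => rw [Finset.sum_empty, Finset.sum_empty, Hm.zero_left]
  | insert a s ha ih => rw [Finset.sum_insert ha, Finset.sum_insert ha, Hm.add_left, ih]

theorem nonneg (x : E) : 0 ≤ (Hm.h x x).re := by
  by_cases hx : x = 0
  · subst hx
    rw [map_zero, Complex.zero_re]
  · exact (Hm.pos x hx).le

theorem eq_zero {x : E} (hx : (Hm.h x x).re = 0) : x = 0 := by
  by_contra h
  exact (Hm.pos x h).ne' hx

/-- Orthogonal projection. -/
theorem exists_proj (K : Submodule ℂ E) [FiniteDimensional ℂ K] (x : E) :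
    ∃ k ∈ K, ∀ z ∈ K, Hm.h z (x - k) = 0 := by
  let c : InnerProductSpace.Core ℂ E :=
    { inner := fun x y => Hm.h x y
      conj_inner_symm := fun x y => Hm.symm x y
      re_inner_nonneg := fun x => Hm.nonneg x
      add_left := fun x y z => Hm.add_left x y z
      smul_left := fun x y r => Hm.smul_left r x y
      definite := fun x hx => Hm.eq_zero (by rw [hx, Complex.zero_re]) }
  letI : NormedAddCommGroup E := @InnerProductSpace.Core.toNormedAddCommGroup ℂ E _ _ _ c
  letI : InnerProductSpace ℂ E := InnerProductSpace.ofCore c.toCore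
  obtain ⟨y, hy, z, hz, hxyz⟩ := K.exists_add_mem_mem_orthogonal x
  refine ⟨y, hy, fun w hw => ?_⟩
  have h1 : x - y = z := by rw [hxyz, add_sub_cancel_left]
  rw [h1]
  exact (Submodule.mem_orthogonal K z).1 hz w hw

/-- Lifting of invariants: if `x` is invariant modulo the stable subspace `K`, then some element of
`x + K` is invariant. -/
theorem exists_invariant {ι : Type} (D : ι → E →ₗ[ℂ] E)
    (hD : ∀ i x y, Hm.h (D i x) y = -Hm.h x (D i y)) (K : Submodule ℂ E) [FiniteDimensional ℂ K]
    (hK : ∀ i, ∀ z ∈ K, D i z ∈ K) {x : E} (hx : ∀ i, D i x ∈ K) :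
    ∃ k ∈ K, ∀ i, D i (x - k) = 0 := by
  obtain ⟨k, hk, h1⟩ := Hm.exists_proj K x
  refine ⟨k, hk, fun i => ?_⟩
  have h2 : D i (x - k) ∈ K := by
    rw [map_sub]
    exact K.sub_mem (hx i) (hK i k hk)
  apply Hm.eq_zero
  have h3 := hD i (D i (x - k)) (x - k)
  rw [h1 _ (hK i _ h2)] at h3
  rw [neg_eq_zero.1 h3.symm, Complex.zero_re]

/-- The direct sum of copies of a Hermitian form. -/
noncomputable def pi (ι : Type) [Fintype ι] : Herm (ι → E) where
  h x := ∑ i, (Hm.h (x i)).comp (LinearMap.proj i)
  symm x y := by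
    rw [LinearMap.sum_apply, LinearMap.sum_apply, map_sum]
    exact Finset.sum_congr rfl fun i _ => Hm.symm _ _
  pos x hx := by
    obtain ⟨i, hi⟩ := Function.ne_iff.1 hx
    rw [LinearMap.sum_apply, Complex.re_sum]
    exact Finset.sum_pos' (fun j _ => Hm.nonneg _) ⟨i, Finset.mem_univ i, Hm.pos _ hi⟩

theorem pi_apply (ι : Type) [Fintype ι] (x y : ι → E) :
    (Hm.pi ι).h x y = ∑ i, Hm.h (x i) (y i) := by
  change (∑ i, (Hm.h (x i)).comp (LinearMap.proj i)) y = _
  rw [LinearMap.sum_apply]
  rfl

end Herm

variable {σ : Type} [Fintype σ] [DecidableEq σ]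

/-- The factorial of a multiindex. -/
def mfact (α : σ →₀ ℕ) : ℕ := ∏ i, (α i).factorial

theorem mfact_pos (α : σ →₀ ℕ) : 0 < mfact α := Finset.prod_pos fun i _ => Nat.factorial_pos _

theorem mfact_add (α : σ →₀ ℕ) (i : σ) : mfact (α + Finsupp.single i 1) = (α i + 1) * mfact α := by
  rw [mfact, mfact, ← Finset.mul_prod_erase _ _ (Finset.mem_univ i),
    ← Finset.mul_prod_erase (s := Finset.univ) (f := fun j => (α j).factorial) (Finset.mem_univ i)]
  rw [← mul_assoc]
  congr 1
  · rw [Finsupp.add_apply, Finsupp.single_eq_same, Nat.factorial_succ]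
  · refine Finset.prod_congr rfl fun j hj => ?_
    rw [Finsupp.add_apply, Finsupp.single_eq_of_ne (Finset.ne_of_mem_erase hj), add_zero]

/-- The Fischer form. -/
noncomputable def fischer (σ : Type) [Fintype σ] [DecidableEq σ] : Herm (MvPolynomial σ ℂ) where
  h P := ∑ α ∈ P.support, ((starRingEnd ℂ) (coeff α P) * (mfact α : ℂ)) • lcoeff ℂ α
  symm P Q := by
    rw [LinearMap.sum_apply, LinearMap.sum_apply, map_sum]
    simp only [LinearMap.smul_apply, lcoeff_apply, smul_eq_mul, map_mul, Complex.conj_conj,
      Complex.conj_natCast]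
    rw [Finset.sum_subset (Finset.subset_union_right (s₁ := P.support) (s₂ := Q.support)),
      Finset.sum_subset (Finset.subset_union_left (s₁ := P.support) (s₂ := Q.support))]
    · exact Finset.sum_congr rfl fun α _ => by ring
    · intro α _ hα
      rw [notMem_support_iff.1 hα, map_zero, zero_mul, zero_mul]
    · intro α _ hα
      rw [notMem_support_iff.1 hα, zero_mul, zero_mul]
  pos P hP := by
    rw [LinearMap.sum_apply, Complex.re_sum]
    simp only [LinearMap.smul_apply, lcoeff_apply, smul_eq_mul]
    have key : ∀ α, ((starRingEnd ℂ) (coeff α P) * (mfact α : ℂ) * coeff α P).re =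
        Complex.normSq (coeff α P) * mfact α := by
      intro α
      have h1 : (starRingEnd ℂ) (coeff α P) * (mfact α : ℂ) * coeff α P =
          ((Complex.normSq (coeff α P) * mfact α : ℝ) : ℂ) := by
        rw [Complex.ofReal_mul, Complex.normSq_eq_conj_mul_self, Complex.ofReal_natCast]
        ring
      rw [h1, Complex.ofReal_re]
    have h0 : P.support.Nonempty := by
      rw [Finset.nonempty_iff_ne_empty]
      exact fun h => hP (support_eq_empty.1 h)
    refine Finset.sum_pos (fun α hα => ?_) h0
    rw [key]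
    exact mul_pos (Complex.normSq_pos.2 (mem_support_iff.1 hα)) (by exact_mod_cast mfact_pos α)

theorem fischer_monomial (α : σ →₀ ℕ) (c : ℂ) (Q : MvPolynomial σ ℂ) :
    (fischer σ).h (monomial α c) Q = (starRingEnd ℂ) c * mfact α * coeff α Q := by
  change (∑ β ∈ (monomial α c).support, ((starRingEnd ℂ) (coeff β (monomial α c)) *
    (mfact β : ℂ)) • lcoeff ℂ β) Q = _
  by_cases hc : c = 0
  · subst hc
    rw [map_zero, support_zero, Finset.sum_empty, LinearMap.zero_apply, map_zero, zero_mul,
      zero_mul]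
  · rw [support_monomial, if_neg hc, Finset.sum_singleton, coeff_monomial, if_pos rfl]
    rfl

/-- The adjoint of the multiplication with a variable. -/
theorem fischer_X_mul (i : σ) (P Q : MvPolynomial σ ℂ) :
    (fischer σ).h (X i * P) Q = (fischer σ).h P (pderiv i Q) := by
  induction P using MvPolynomial.induction_on' with
  | monomial α c =>
    have h1 : (X i * monomial α c : MvPolynomial σ ℂ) = monomial (α + Finsupp.single i 1) c := by
      rw [mul_comm, X, monomial_mul, mul_one]
    rw [h1, fischer_monomial, fischer_monomial, coeff_pderiv, mfact_add]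
    push_cast
    ring
  | add p q hp hq => rw [mul_add, Herm.add_left, Herm.add_left, hp, hq]

/-- The adjoint of the partial derivative. -/
theorem fischer_pderiv (i : σ) (P Q : MvPolynomial σ ℂ) :
    (fischer σ).h (pderiv i P) Q = (fischer σ).h P (X i * Q) := by
  rw [← (fischer σ).symm (pderiv i P) Q, ← (fischer σ).symm P, fischer_X_mul]

end Run7.h158.Hdg
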