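import Mathlib
import Pool.Agent.Run7.h158.Hdg.Fischer

/-!
# The first fundamental theorem for the special orthogonal Lie algebra and few vectors
-/

set_option autoImplicit false
set_option linter.unusedSectionVars false

open MvPolynomial

namespace Run7.h158.Hdg

variable {ν M A : Type} [Fintype ν] [DecidableEq ν] [Fintype M] [DecidableEq M] [Fintype A]
  [DecidableEq A]

/-- Invariance under the infinitesimal rotations. -/
def IsInv (P : MvPolynomial (ν ⊕ (M × A)) ℂ) : Prop :=
  ∀ a b, ∑ p, X (Sum.inr (p, a)) * pderiv (Sum.inr (p, b)) P =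
    ∑ p, X (Sum.inr (p, b)) * pderiv (Sum.inr (p, a)) P

/-- The polarization operators. -/
noncomputable def EE (p q : M) (P : MvPolynomial (ν ⊕ (M × A)) ℂ) : MvPolynomial (ν ⊕ (M × A)) ℂ :=
  ∑ a, X (Sum.inr (p, a)) * pderiv (Sum.inr (q, a)) P

/-- The mixed Laplace operators. -/
noncomputable def LL (p q : M) (P : MvPolynomial (ν ⊕ (M × A)) ℂ) : MvPolynomial (ν ⊕ (M × A)) ℂ :=
  ∑ a, pderiv (Sum.inr (p, a)) (pderiv (Sum.inr (q, a)) P)

/-- The scalar products. -/
noncomputable def GG (ν : Type) {M A : Type} [Fintype A] (p q : M) :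
    MvPolynomial (ν ⊕ (M × A)) ℂ :=
  ∑ a, X (Sum.inr (p, a)) * X (Sum.inr (q, a))

lemma pd_X_mul {σ : Type} [DecidableEq σ] (i j : σ) (R : MvPolynomial σ ℂ) :
    pderiv i (X j * R) = (if i = j then R else 0) + X j * pderiv i R := by
  rw [pderiv_mul]
  by_cases h : i = j
  · subst h
    rw [pderiv_X_self, one_mul, if_pos rfl]
  · rw [pderiv_X_of_ne (Ne.symm h), zero_mul, if_neg h]

lemma pd_comm {σ : Type} (i j : σ) (R : MvPolynomial σ ℂ) :
    pderiv i (pderiv j R) = pderiv j (pderiv i R) := by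
  classical
  ext m
  rw [coeff_pderiv, coeff_pderiv, coeff_pderiv, coeff_pderiv]
  rw [add_right_comm m]
  by_cases h : i = j
  · subst h
    rfl
  · rw [Finsupp.add_apply, Finsupp.add_apply, Finsupp.single_eq_of_ne h,
      Finsupp.single_eq_of_ne (Ne.symm h), add_zero, add_zero]
    ring

lemma reorder {E : Type} [AddCommMonoid E] (f : A → A → M → M → E) :
    ∑ a, ∑ b, ∑ q, ∑ p, f a b q p = ∑ q, ∑ p, ∑ a, ∑ b, f a b q p := by
  have h1 : ∑ a, ∑ b, ∑ q, ∑ p, f a b q p =
      ∑ x : A × A, ∑ y : M × M, f x.1 x.2 y.1 y.2 := by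
    rw [Fintype.sum_prod_type]
    refine Finset.sum_congr rfl fun a _ => Finset.sum_congr rfl fun b _ => ?_
    rw [Fintype.sum_prod_type]
  have h2 : ∑ q, ∑ p, ∑ a, ∑ b, f a b q p =
      ∑ y : M × M, ∑ x : A × A, f x.1 x.2 y.1 y.2 := by
    rw [Fintype.sum_prod_type]
    refine Finset.sum_congr rfl fun a _ => Finset.sum_congr rfl fun b _ => ?_
    rw [Fintype.sum_prod_type]
  rw [h1, h2, Finset.sum_comm]

/-- The Capelli identity for invariant polynomials. -/
theorem capelli {P : MvPolynomial (ν ⊕ (M × A)) ℂ} (hP : IsInv P) :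
    ∑ p, ∑ q, GG ν p q * LL p q P + ∑ p, EE p p P =
      (Fintype.card A : ℂ) • ∑ p, EE p p P + ∑ p, ∑ q, EE p q (EE q p P) -
        (Fintype.card M : ℂ) • ∑ p, EE p p P := by
  have hS : ∑ a, ∑ b, ∑ q, X (Sum.inr (q, a)) * pderiv (Sum.inr (q, b))
      (∑ p, X (Sum.inr (p, a)) * pderiv (Sum.inr (p, b)) P) =
      ∑ a, ∑ b, ∑ q, X (Sum.inr (q, a)) * pderiv (Sum.inr (q, b))
      (∑ p, X (Sum.inr (p, b)) * pderiv (Sum.inr (p, a)) P) := by
    refine Finset.sum_congr rfl fun a _ => Finset.sum_congr rfl fun b _ => ?_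
    rw [hP a b]
  have h1 : ∑ a : A, ∑ b : A, ∑ q : M, X (Sum.inr (q, a)) * pderiv (Sum.inr (q, b))
      (∑ p, X (Sum.inr (p, a)) * pderiv (Sum.inr (p, b)) P) =
      ∑ p, EE p p P + ∑ q : M, ∑ p : M, ∑ a : A, ∑ b : A, X (Sum.inr (q, a)) *
        (X (Sum.inr (p, a)) * pderiv (Sum.inr (q, b)) (pderiv (Sum.inr (p, b)) P)) := by
    simp only [map_sum, pd_X_mul, Finset.mul_sum, mul_add, Finset.sum_add_distrib]
    congr 1
    · rw [reorder]
      simp only [Sum.inr.injEq, Prod.mk.injEq, EE]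
      refine Finset.sum_congr rfl fun q _ => ?_
      rw [Finset.sum_eq_single_of_mem q (Finset.mem_univ q)]
      · refine Finset.sum_congr rfl fun a _ => ?_
        rw [Finset.sum_eq_single_of_mem a (Finset.mem_univ a)]
        · simp
        · intro b _ hb
          simp [hb]
      · intro p _ hp
        refine Finset.sum_eq_zero fun a _ => Finset.sum_eq_zero fun b _ => ?_
        simp [Ne.symm hp]
    · rw [reorder]
  have h2 : ∑ a : A, ∑ b : A, ∑ q : M, X (Sum.inr (q, a)) * pderiv (Sum.inr (q, b))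
      (∑ p, X (Sum.inr (p, b)) * pderiv (Sum.inr (p, a)) P) =
      (Fintype.card A : ℂ) • ∑ p, EE p p P + ∑ q : M, ∑ p : M, ∑ a : A, ∑ b : A,
        X (Sum.inr (q, a)) * (X (Sum.inr (p, b)) * pderiv (Sum.inr (q, b))
          (pderiv (Sum.inr (p, a)) P)) := by
    simp only [map_sum, pd_X_mul, Finset.mul_sum, mul_add, Finset.sum_add_distrib]
    congr 1
    · rw [reorder]
      simp only [Sum.inr.injEq, Prod.mk.injEq, EE]
      rw [Finset.smul_sum]
      refine Finset.sum_congr rfl fun q _ => ?_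
      rw [Finset.sum_eq_single_of_mem q (Finset.mem_univ q)]
      · rw [Finset.smul_sum]
        refine Finset.sum_congr rfl fun a _ => ?_
        simp only [and_self, if_true, Finset.sum_const, Finset.card_univ]
        rw [← Nat.cast_smul_eq_nsmul ℂ]
      · intro p _ hp
        refine Finset.sum_eq_zero fun a _ => Finset.sum_eq_zero fun b _ => ?_
        simp [Ne.symm hp]
    · rw [reorder]
  have h3 : ∑ p, ∑ q, EE p q (EE q p P) = (Fintype.card M : ℂ) • ∑ p, EE p p P +
      ∑ p : M, ∑ q : M, ∑ a : A, ∑ b : A, X (Sum.inr (p, a)) * (X (Sum.inr (q, b)) *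
        pderiv (Sum.inr (q, a)) (pderiv (Sum.inr (p, b)) P)) := by
    simp only [EE, map_sum, pd_X_mul, Finset.mul_sum, mul_add, Finset.sum_add_distrib]
    congr 1
    simp only [Sum.inr.injEq, Prod.mk.injEq]
    rw [Finset.smul_sum]
    refine Finset.sum_congr rfl fun p _ => ?_
    have h4 : ∀ q : M, ∑ a : A, ∑ b : A, (X (Sum.inr (p, a)) * if True ∧ a = b then
        pderiv (Sum.inr (p, b)) P else 0) = ∑ a : A, X (Sum.inr (p, a)) *
          pderiv (Sum.inr (p, a)) P := by
      intro _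
      refine Finset.sum_congr rfl fun a _ => ?_
      rw [Finset.sum_eq_single_of_mem a (Finset.mem_univ a)]
      · simp
      · intro b _ hb
        simp [Ne.symm hb]
    rw [Finset.sum_congr rfl fun q _ => h4 q, Finset.sum_const, Finset.card_univ,
      ← Nat.cast_smul_eq_nsmul ℂ]
  have h5 : ∑ p, ∑ q, GG ν p q * LL p q P = ∑ q : M, ∑ p : M, ∑ a : A, ∑ b : A,
      X (Sum.inr (q, a)) * (X (Sum.inr (p, a)) * pderiv (Sum.inr (q, b))
        (pderiv (Sum.inr (p, b)) P)) := by
    refine Finset.sum_congr rfl fun p _ => Finset.sum_congr rfl fun q _ => ?_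
    rw [GG, LL, Finset.sum_mul_sum]
    exact Finset.sum_congr rfl fun a _ => Finset.sum_congr rfl fun b _ => mul_assoc _ _ _
  have h6 : ∑ q : M, ∑ p : M, ∑ a : A, ∑ b : A,
        X (Sum.inr (q, a)) * (X (Sum.inr (p, b)) * pderiv (Sum.inr (q, b))
          (pderiv (Sum.inr (p, a)) P)) = ∑ p : M, ∑ q : M, ∑ a : A, ∑ b : A,
      X (Sum.inr (p, a)) * (X (Sum.inr (q, b)) *
        pderiv (Sum.inr (q, a)) (pderiv (Sum.inr (p, b)) P)) := by
    refine Finset.sum_congr rfl fun p _ => Finset.sum_congr rfl fun q _ =>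
      Finset.sum_congr rfl fun a _ => Finset.sum_congr rfl fun b _ => ?_
    rw [pd_comm]
  rw [h1, h2, ← h5, h6] at hS
  rw [add_comm, hS, h3]
  abel

lemma h_EE (p q : M) (P Q : MvPolynomial (ν ⊕ (M × A)) ℂ) :
    (fischer (ν ⊕ (M × A))).h P (EE p q Q) = (fischer (ν ⊕ (M × A))).h (EE q p P) Q := by
  rw [EE, EE, map_sum, Herm.sum_left]
  refine Finset.sum_congr rfl fun a _ => ?_
  rw [← fischer_pderiv, ← fischer_X_mul]

lemma h_LL (p q : M) (P Q : MvPolynomial (ν ⊕ (M × A)) ℂ) :
    (fischer (ν ⊕ (M × A))).h P (LL p q Q) = (fischer (ν ⊕ (M × A))).h (GG ν p q * P) Q := by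
  rw [LL, GG, map_sum, Finset.sum_mul, Herm.sum_left]
  refine Finset.sum_congr rfl fun a _ => ?_
  rw [← fischer_X_mul, ← fischer_X_mul, mul_left_comm, mul_assoc]

/-- The total degree is at most `N`. -/
def Bd (N : ℕ) {σ : Type} (P : MvPolynomial σ ℂ) : Prop := ∀ α, N < α.degree → coeff α P = 0

lemma Bd.add {N : ℕ} {σ : Type} {P Q : MvPolynomial σ ℂ} (hP : Bd N P) (hQ : Bd N Q) :
    Bd N (P + Q) := fun α h => by rw [coeff_add, hP α h, hQ α h, add_zero]

lemma Bd.sub {N : ℕ} {σ : Type} {P Q : MvPolynomial σ ℂ} (hP : Bd N P) (hQ : Bd N Q) :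
    Bd N (P - Q) := fun α h => by rw [coeff_sub, hP α h, hQ α h, sub_zero]

lemma Bd.sum {N : ℕ} {σ ι : Type} (s : Finset ι) {P : ι → MvPolynomial σ ℂ}
    (hP : ∀ i ∈ s, Bd N (P i)) : Bd N (∑ i ∈ s, P i) := fun α h => by
  rw [coeff_sum]
  exact Finset.sum_eq_zero fun i hi => hP i hi α h

lemma Bd.pd {N : ℕ} {σ : Type} {P : MvPolynomial σ ℂ} (hP : Bd (N + 1) P) (i : σ) :
    Bd N (pderiv i P) := fun α h => by
  rw [coeff_pderiv, hP _ (by rw [map_add, Finsupp.degree_single]; omega), zero_mul]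

lemma Bd.mono {N N' : ℕ} (h : N ≤ N') {σ : Type} {P : MvPolynomial σ ℂ} (hP : Bd N P) : Bd N' P :=
  fun α h' => hP α (by omega)

lemma Bd.X_mul {N : ℕ} {σ : Type} {P : MvPolynomial σ ℂ} (hP : Bd N P) (i : σ) :
    Bd (N + 1) (X i * P) := fun α h => by
  classical
  rw [mul_comm, coeff_mul_X']
  split_ifs with hi
  · apply hP
    have h1 : α = α - Finsupp.single i 1 + Finsupp.single i 1 := by
      rw [tsub_add_cancel_of_le]
      rw [Finsupp.single_le_iff]
      exact Nat.one_le_iff_ne_zero.2 (Finsupp.mem_support_iff.1 hi)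
    have h2 := congrArg Finsupp.degree h1
    rw [map_add, Finsupp.degree_single] at h2
    omega
  · rfl

lemma exists_Bd {σ : Type} (P : MvPolynomial σ ℂ) : ∃ N, Bd N P := by
  refine ⟨P.totalDegree, fun α h => ?_⟩
  by_contra hne
  have h1 := le_totalDegree (mem_support_iff.2 hne)
  have h2 : (α.sum fun _ e => e) = α.degree := rfl
  omega

/-- The polynomials of bounded degree form a finite dimensional space. -/
lemma finite_bd {σ : Type} [Finite σ] (N : ℕ) (K : Submodule ℂ (MvPolynomial σ ℂ))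
    (hK : ∀ P ∈ K, Bd N P) : FiniteDimensional ℂ K := by
  have h1 : K ≤ restrictTotalDegree σ ℂ N := by
    intro P hP
    rw [mem_restrictTotalDegree]
    refine Finset.sup_le fun α hα => ?_
    by_contra h
    exact mem_support_iff.1 hα (hK P hP α (by
      have h2 : (α.sum fun _ e => e) = α.degree := rfl
      omega))
  exact Submodule.finiteDimensional_of_le h1

/-- The algebra generated by the passive variables and the scalar products. -/
noncomputable def Alg (ν M A : Type) [Fintype A] : Subalgebra ℂ (MvPolynomial (ν ⊕ (M × A)) ℂ) :=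
  Algebra.adjoin ℂ ((Set.range fun i : ν => X (Sum.inl i)) ∪
    Set.range fun x : M × M => GG ν x.1 x.2)

lemma GG_mem (p q : M) : GG ν p q ∈ Alg ν M A :=
  Algebra.subset_adjoin (Or.inr ⟨(p, q), rfl⟩)

lemma rotd (a b : A) (P : MvPolynomial (ν ⊕ (M × A)) ℂ) :
    ((∑ p : M, (X (Sum.inr (p, a)) : MvPolynomial (ν ⊕ (M × A)) ℂ) • pderiv (Sum.inr (p, b)) :
      Derivation ℂ (MvPolynomial (ν ⊕ (M × A)) ℂ) (MvPolynomial (ν ⊕ (M × A)) ℂ))) P =
      ∑ p, X (Sum.inr (p, a)) * pderiv (Sum.inr (p, b)) P := by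
  rw [← Derivation.coeFnAddMonoidHom_apply, map_sum, Finset.sum_apply]
  rfl

/-- The infinitesimal rotation as a derivation. -/
noncomputable def rot (a b : A) :
    Derivation ℂ (MvPolynomial (ν ⊕ (M × A)) ℂ) (MvPolynomial (ν ⊕ (M × A)) ℂ) :=
  ∑ p : M, (X (Sum.inr (p, a)) : MvPolynomial (ν ⊕ (M × A)) ℂ) • pderiv (Sum.inr (p, b)) -
    ∑ p : M, (X (Sum.inr (p, b)) : MvPolynomial (ν ⊕ (M × A)) ℂ) • pderiv (Sum.inr (p, a))

lemma rot_apply (a b : A) (P : MvPolynomial (ν ⊕ (M × A)) ℂ) :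
    rot a b P = ∑ p, X (Sum.inr (p, a)) * pderiv (Sum.inr (p, b)) P -
      ∑ p, X (Sum.inr (p, b)) * pderiv (Sum.inr (p, a)) P := by
  rw [rot, Derivation.sub_apply, rotd, rotd]

lemma isInv_iff (P : MvPolynomial (ν ⊕ (M × A)) ℂ) : IsInv P ↔ ∀ a b : A, rot a b P = 0 := by
  refine forall_congr' fun a => forall_congr' fun b => ?_
  rw [rot_apply, sub_eq_zero]

lemma rot_inl (a b : A) (i : ν) :
    rot (M := M) a b (X (Sum.inl i) : MvPolynomial (ν ⊕ (M × A)) ℂ) = 0 := by
  rw [rot_apply]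
  simp [pderiv_X]

lemma rot_inr (a b : A) (p : M) (c : A) :
    rot a b (X (Sum.inr (p, c)) : MvPolynomial (ν ⊕ (M × A)) ℂ) =
      (if b = c then X (Sum.inr (p, a)) else 0) - (if a = c then X (Sum.inr (p, b)) else 0) := by
  have key : ∀ a b : A, ∑ q : M, X (Sum.inr (q, a)) * pderiv (Sum.inr (q, b))
      (X (Sum.inr (p, c)) : MvPolynomial (ν ⊕ (M × A)) ℂ) =
      if b = c then X (Sum.inr (p, a)) else 0 := by
    intro a b
    rw [Finset.sum_eq_single_of_mem p (Finset.mem_univ p)]
    · by_cases h : b = c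
      · subst h
        rw [pderiv_X_self, mul_one, if_pos rfl]
      · rw [pderiv_X_of_ne (by simpa using Ne.symm h), mul_zero, if_neg h]
    · intro q _ hq
      rw [pderiv_X_of_ne (by
        intro h
        rw [Sum.inr.injEq, Prod.mk.injEq] at h
        exact hq h.1.symm), mul_zero]
  rw [rot_apply, key, key]

lemma rot_GG (a b : A) (p q : M) : rot a b (GG ν p q : MvPolynomial (ν ⊕ (M × A)) ℂ) = 0 := by
  rw [GG, map_sum]
  simp only [Derivation.leibniz, rot_inr, smul_eq_mul, mul_sub, mul_ite, mul_zero,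
    Finset.sum_add_distrib, Finset.sum_sub_distrib, Finset.sum_ite_eq, Finset.mem_univ, if_true]
  ring

lemma rot_alg (a b : A) {P : MvPolynomial (ν ⊕ (M × A)) ℂ} (hP : P ∈ Alg ν M A) :
    rot a b P = 0 := by
  unfold Alg at hP
  induction hP using Algebra.adjoin_induction with
  | mem x hx =>
    rcases hx with ⟨i, rfl⟩ | ⟨⟨p, q⟩, rfl⟩
    · exact rot_inl a b i
    · exact rot_GG a b p q
  | algebraMap c => exact Derivation.map_algebraMap _ _
  | add x y _ _ hx hy => rw [map_add, hx, hy, add_zero]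
  | mul x y _ _ hx hy => rw [Derivation.leibniz, hx, hy, smul_zero, smul_zero, add_zero]

lemma pd_rot (a b c : A) (q : M) (P : MvPolynomial (ν ⊕ (M × A)) ℂ) :
    pderiv (Sum.inr (q, c)) (rot a b P) = rot a b (pderiv (Sum.inr (q, c)) P) +
      ((if c = a then pderiv (Sum.inr (q, b)) P else 0) -
        (if c = b then pderiv (Sum.inr (q, a)) P else 0)) := by
  have key : ∀ a b : A, pderiv (Sum.inr (q, c)) (∑ p : M, X (Sum.inr (p, a)) *
      pderiv (Sum.inr (p, b)) P) = (if c = a then pderiv (Sum.inr (q, b)) P else 0) +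
        ∑ p : M, X (Sum.inr (p, a)) * pderiv (Sum.inr (p, b)) (pderiv (Sum.inr (q, c)) P) := by
    intro a b
    simp only [map_sum, pd_X_mul, Finset.sum_add_distrib]
    refine congrArg₂ (· + ·) ?_ ?_
    · rw [Finset.sum_eq_single_of_mem q (Finset.mem_univ q)]
      · by_cases h : c = a
        · subst h
          rw [if_pos rfl, if_pos rfl]
        · rw [if_neg h, if_neg (by simpa using h)]
      · intro p _ hp
        rw [if_neg]
        intro h
        rw [Sum.inr.injEq, Prod.mk.injEq] at h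
        exact hp h.1.symm
    · refine Finset.sum_congr rfl fun p _ => ?_
      rw [pd_comm]
  rw [rot_apply, rot_apply, map_sub, key, key]
  ring

lemma rot_LL (a b : A) (p q : M) (P : MvPolynomial (ν ⊕ (M × A)) ℂ) :
    LL p q (rot a b P) = rot a b (LL p q P) := by
  have h1 : ∀ c, pderiv (Sum.inr (p, c)) (pderiv (Sum.inr (q, c)) (rot a b P)) =
      rot a b (pderiv (Sum.inr (p, c)) (pderiv (Sum.inr (q, c)) P)) +
      ((if c = a then pderiv (Sum.inr (p, b)) (pderiv (Sum.inr (q, a)) P) else 0) -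
        (if c = b then pderiv (Sum.inr (p, a)) (pderiv (Sum.inr (q, b)) P) else 0)) +
      ((if c = a then pderiv (Sum.inr (p, a)) (pderiv (Sum.inr (q, b)) P) else 0) -
        (if c = b then pderiv (Sum.inr (p, b)) (pderiv (Sum.inr (q, a)) P) else 0)) := by
    intro c
    rw [pd_rot, map_add, pd_rot, map_sub]
    refine congrArg₂ (· + ·) (congrArg₂ (· + ·) rfl (congrArg₂ (· - ·) ?_ ?_))
      (congrArg₂ (· - ·) ?_ ?_)
    · by_cases h : c = a
      · rw [if_pos h, if_pos h, h]
      · rw [if_neg h, if_neg h]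
    · by_cases h : c = b
      · rw [if_pos h, if_pos h, h]
      · rw [if_neg h, if_neg h]
    · by_cases h : c = a
      · rw [if_pos h, if_pos h, h]
      · rw [if_neg h, if_neg h, map_zero]
    · by_cases h : c = b
      · rw [if_pos h, if_pos h, h]
      · rw [if_neg h, if_neg h, map_zero]
  rw [LL, LL, map_sum, Finset.sum_congr rfl fun c _ => h1 c]
  simp only [Finset.sum_add_distrib, Finset.sum_sub_distrib, Finset.sum_ite_eq', Finset.mem_univ,
    if_true]
  ring

lemma isInv_LL {P : MvPolynomial (ν ⊕ (M × A)) ℂ} (hP : IsInv P) (p q : M) : IsInv (LL p q P) := by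
  rw [isInv_iff] at hP ⊢
  intro a b
  rw [← rot_LL, hP]
  simp [LL]

lemma mem_alg_of_pd {P : MvPolynomial (ν ⊕ (M × A)) ℂ}
    (h : ∀ p a, pderiv (Sum.inr (p, a)) P = 0) : P ∈ Alg ν M A := by
  have h1 : P ∈ supported ℂ (Set.range (Sum.inl : ν → ν ⊕ (M × A))) := by
    rw [mem_supported]
    intro v hv
    rw [Finset.mem_coe, mem_vars] at hv
    obtain ⟨α, hα, hαv⟩ := hv
    rcases v with v | ⟨p, a⟩
    · exact ⟨v, rfl⟩
    · exfalso
      have h2 : α = α - Finsupp.single (Sum.inr (p, a)) 1 + Finsupp.single (Sum.inr (p, a)) 1 := by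
        rw [tsub_add_cancel_of_le]
        rw [Finsupp.single_le_iff]
        exact Nat.one_le_iff_ne_zero.2 (Finsupp.mem_support_iff.1 hαv)
      have h3 := coeff_pderiv (i := Sum.inr (p, a)) P (α - Finsupp.single (Sum.inr (p, a)) 1)
      rw [h, coeff_zero, ← h2] at h3
      rcases mul_eq_zero.1 h3.symm with h4 | h4
      · exact mem_support_iff.1 hα h4
      · exact Nat.cast_add_one_ne_zero _ h4
  refine Algebra.adjoin_mono ?_ h1
  rintro x ⟨_, ⟨i, rfl⟩, rfl⟩
  exact Or.inl ⟨i, rfl⟩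

lemma bd_GG_mul {N : ℕ} {P : MvPolynomial (ν ⊕ (M × A)) ℂ} (hP : Bd N P) (p q : M) :
    Bd (N + 2) (GG ν p q * P) := by
  rw [GG, Finset.sum_mul]
  refine Bd.sum _ fun a _ => ?_
  rw [mul_assoc]
  exact (hP.X_mul _).X_mul _

/-- The essential step: an invariant polynomial which is orthogonal to the algebra of the evident
invariants is zero. -/
theorem eq_zero_of_orth (hMA : Fintype.card M < Fintype.card A) (N : ℕ) :
    ∀ P : MvPolynomial (ν ⊕ (M × A)) ℂ, Bd N P → IsInv P →
      (∀ Z ∈ Alg ν M A, Bd N Z → (fischer _).h Z P = 0) → P = 0 := by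
  induction N using Nat.strong_induction_on with
  | _ N ih =>
    intro P hN hinv horth
    have hLL : ∀ p q, LL p q P = 0 := by
      intro p q
      by_cases h2 : 2 ≤ N
      · obtain ⟨N', rfl⟩ := Nat.exists_eq_add_of_le' h2
        refine ih N' (by omega) _ ?_ (isInv_LL hinv p q) fun Z hZ hZN => ?_
        · exact Bd.sum _ fun a _ => Bd.pd (Bd.pd (N := N' + 1) hN _) _
        · rw [h_LL]
          exact horth _ (Subalgebra.mul_mem _ (GG_mem p q) hZ) (bd_GG_mul hZN p q)
      · refine Finset.sum_eq_zero fun a _ => ?_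
        ext α
        rw [coeff_pderiv, coeff_pderiv, hN, zero_mul, zero_mul, coeff_zero]
        rw [map_add, map_add, Finsupp.degree_single, Finsupp.degree_single]
        omega
    have hc := capelli hinv
    simp only [hLL, mul_zero, Finset.sum_const_zero, zero_add] at hc
    -- the positivity
    have hE : ∀ p, (fischer _).h P (EE p p P) = ∑ a, (fischer _).h
        (pderiv (Sum.inr (p, a)) P) (pderiv (Sum.inr (p, a)) P) := by
      intro p
      rw [EE, map_sum]
      refine Finset.sum_congr rfl fun a _ => ?_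
      rw [← fischer_pderiv]
    have hE0 : ∀ p, 0 ≤ ((fischer _).h P (EE p p P)).re := by
      intro p
      rw [hE, Complex.re_sum]
      exact Finset.sum_nonneg fun a _ => Herm.nonneg _ _
    have h1 : ∑ p, ∑ q, ((fischer _).h (EE q p P) (EE q p P)).re +
        ((Fintype.card A : ℝ) - 1 - Fintype.card M) * ∑ p, ((fischer _).h P (EE p p P)).re = 0 := by
      have h2 := congrArg (fun x => ((fischer _).h P x).re) hc
      simp only [map_add, map_sub, map_sum, map_smul, Complex.add_re, Complex.sub_re,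
        Complex.re_sum, smul_eq_mul, Complex.mul_re, Complex.natCast_re, Complex.natCast_im,
        zero_mul, sub_zero] at h2
      have h3 : ∑ p : M, ∑ q : M, ((fischer (ν ⊕ M × A)).h P (EE p q (EE q p P))).re =
          ∑ p, ∑ q, ((fischer _).h (EE q p P) (EE q p P)).re :=
        Finset.sum_congr rfl fun p _ => Finset.sum_congr rfl fun q _ => by rw [h_EE]
      rw [h3] at h2
      linarith
    have hpos : (0 : ℝ) ≤ (Fintype.card A : ℝ) - 1 - Fintype.card M := by
      have : (Fintype.card M : ℝ) + 1 ≤ Fintype.card A := by exact_mod_cast hMA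
      linarith
    have hS0 : 0 ≤ ∑ p, ∑ q, ((fischer _).h (EE q p P) (EE q p P)).re :=
      Finset.sum_nonneg fun p _ => Finset.sum_nonneg fun q _ => Herm.nonneg _ _
    have hS1 : 0 ≤ ((Fintype.card A : ℝ) - 1 - Fintype.card M) *
        ∑ p, ((fischer _).h P (EE p p P)).re :=
      mul_nonneg hpos (Finset.sum_nonneg fun p _ => hE0 p)
    have hS2 : ∑ p, ∑ q, ((fischer _).h (EE q p P) (EE q p P)).re = 0 := by linarith
    have hEE : ∀ p, EE p p P = 0 := by
      intro p
      apply Herm.eq_zero (fischer _)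
      rw [Finset.sum_eq_zero_iff_of_nonneg fun p _ => Finset.sum_nonneg fun q _ =>
        Herm.nonneg _ _] at hS2
      have h3 := hS2 p (Finset.mem_univ p)
      rw [Finset.sum_eq_zero_iff_of_nonneg fun q _ => Herm.nonneg _ _] at h3
      exact h3 p (Finset.mem_univ p)
    have hpd : ∀ p a, pderiv (Sum.inr (p, a)) P = 0 := by
      intro p a
      apply Herm.eq_zero (fischer _)
      have h3 := congrArg Complex.re (hE p)
      rw [hEE, map_zero, Complex.zero_re, Complex.re_sum] at h3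
      exact (Finset.sum_eq_zero_iff_of_nonneg fun a _ => Herm.nonneg _ _).1 h3.symm a
        (Finset.mem_univ a)
    apply Herm.eq_zero (fischer _)
    rw [horth P (mem_alg_of_pd hpd) hN, Complex.zero_re]

/-- **The first fundamental theorem** for the special orthogonal Lie algebra and fewer vectors than
the dimension. -/
theorem fft (hMA : Fintype.card M < Fintype.card A) {P : MvPolynomial (ν ⊕ (M × A)) ℂ}
    (hP : IsInv P) : P ∈ Alg ν M A := by
  obtain ⟨N, hN⟩ := exists_Bd P
  let K : Submodule ℂ (MvPolynomial (ν ⊕ (M × A)) ℂ) :=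
    { carrier := {Z | Z ∈ Alg ν M A ∧ Bd N Z}
      add_mem' := fun h h' => ⟨Subalgebra.add_mem _ h.1 h'.1, h.2.add h'.2⟩
      zero_mem' := ⟨Subalgebra.zero_mem _, fun α _ => coeff_zero α⟩
      smul_mem' := fun c x h => ⟨Subalgebra.smul_mem _ h.1 c, fun α hα => by
        rw [coeff_smul, h.2 α hα, smul_zero]⟩ }
  have : FiniteDimensional ℂ K := finite_bd N K fun P hP => hP.2
  obtain ⟨k, hk, horth⟩ := (fischer (ν ⊕ (M × A))).exists_proj K P
  have h1 : P - k = 0 := by
    refine eq_zero_of_orth hMA N (P - k) (hN.sub hk.2) ?_ fun Z hZ hZN => horth Z ⟨hZ, hZN⟩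
    rw [isInv_iff] at hP ⊢
    intro a b
    rw [map_sub, hP, rot_alg a b hk.1, sub_zero]
  rw [sub_eq_zero.1 h1]
  exact hk.1

end Run7.h158.Hdg
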