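import Mathlib

/-!
# Irreducible Lie algebras of skew endomorphisms which contain an element of rank two
-/

set_option autoImplicit false
set_option linter.unusedSectionVars false

namespace Run7.h158.Hdg

variable {V : Type} [AddCommGroup V] [Module ℂ V]

/-- The endomorphism `x ↦ B(u, x) v - B(v, x) u`. -/
noncomputable def wd (B : V →ₗ[ℂ] V →ₗ[ℂ] ℂ) (u v : V) : Module.End ℂ V :=
  (B u).smulRight v - (B v).smulRight u

variable (B : V →ₗ[ℂ] V →ₗ[ℂ] ℂ)

lemma wd_apply (u v x : V) : wd B u v x = B u x • v - B v x • u := rfl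

lemma wd_add_left (u u' v : V) : wd B (u + u') v = wd B u v + wd B u' v := by
  refine LinearMap.ext fun x => ?_
  rw [LinearMap.add_apply, wd_apply, wd_apply, wd_apply, map_add, LinearMap.add_apply, add_smul,
    smul_add]
  abel

lemma wd_smul_left (c : ℂ) (u v : V) : wd B (c • u) v = c • wd B u v := by
  refine LinearMap.ext fun x => ?_
  rw [LinearMap.smul_apply, wd_apply, wd_apply, map_smul, LinearMap.smul_apply, smul_sub,
    smul_assoc, smul_comm c (B v x) u]

lemma wd_swap (u v : V) : wd B v u = -wd B u v := by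
  refine LinearMap.ext fun x => ?_
  rw [LinearMap.neg_apply, wd_apply, wd_apply, neg_sub]

lemma wd_add_right (u v v' : V) : wd B u (v + v') = wd B u v + wd B u v' := by
  rw [wd_swap, wd_add_left, wd_swap B u v, wd_swap B u v']
  abel

lemma wd_smul_right (c : ℂ) (u v : V) : wd B u (c • v) = c • wd B u v := by
  rw [wd_swap, wd_smul_left, wd_swap B u v]
  module

lemma wd_self (u : V) : wd B u u = 0 := by
  refine LinearMap.ext fun x => ?_
  rw [wd_apply, sub_self, LinearMap.zero_apply]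

lemma brk_wd {f : Module.End ℂ V} (hf : ∀ x y, B (f x) y = -B x (f y)) (u v : V) :
    f * wd B u v - wd B u v * f = wd B (f u) v + wd B u (f v) := by
  refine LinearMap.ext fun x => ?_
  rw [LinearMap.sub_apply, Module.End.mul_apply, Module.End.mul_apply, LinearMap.add_apply,
    wd_apply, wd_apply, wd_apply, wd_apply, map_sub, map_smul, map_smul, hf, hf]
  module

/-- The data of the theorem. -/
structure Zd (𝔤 : Submodule ℂ (Module.End ℂ V)) (s s' : V) : Prop where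
  symm : ∀ x y, B x y = B y x
  brk : ∀ f ∈ 𝔤, ∀ g ∈ 𝔤, f * g - g * f ∈ 𝔤
  skew : ∀ f ∈ 𝔤, ∀ x y, B (f x) y = -B x (f y)
  irr : ∀ M : Submodule ℂ V, (∀ f ∈ 𝔤, ∀ x ∈ M, f x ∈ M) → M = ⊥ ∨ M = ⊤
  ss : B s s = 0
  ss' : B s' s' = 0
  tau : B s s' ≠ 0
  mem : wd B s s' ∈ 𝔤

variable {B} {𝔤 : Submodule ℂ (Module.End ℂ V)} {s s' : V}

lemma Zd.swap (z : Zd B 𝔤 s s') : Zd B 𝔤 s' s where
  symm := z.symm
  brk := z.brk
  skew := z.skew
  irr := z.irr
  ss := z.ss'
  ss' := z.ss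
  tau := by rw [z.symm]; exact z.tau
  mem := by rw [wd_swap]; exact 𝔤.neg_mem z.mem

/-- The component orthogonal to `s` and `s'`. -/
noncomputable def pw (B : V →ₗ[ℂ] V →ₗ[ℂ] ℂ) (s s' : V) : V →ₗ[ℂ] V :=
  LinearMap.id - ((B s s')⁻¹ • B s').smulRight s - ((B s s')⁻¹ • B s).smulRight s'

lemma pw_apply (x : V) :
    pw B s s' x = x - ((B s s')⁻¹ * B s' x) • s - ((B s s')⁻¹ * B s x) • s' := rfl

lemma eq_pw (x : V) :
    x = ((B s s')⁻¹ * B s' x) • s + ((B s s')⁻¹ * B s x) • s' + pw B s s' x := by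
  rw [pw_apply]
  abel

/-- The first space. -/
def W1 (B : V →ₗ[ℂ] V →ₗ[ℂ] ℂ) (𝔤 : Submodule ℂ (Module.End ℂ V)) (s s' : V) :
    Submodule ℂ V where
  carrier := {w | B s w = 0 ∧ B s' w = 0 ∧ wd B s w ∈ 𝔤}
  add_mem' := by
    rintro a b ⟨h1, h2, h3⟩ ⟨h4, h5, h6⟩
    refine ⟨by rw [map_add, h1, h4, add_zero], by rw [map_add, h2, h5, add_zero], ?_⟩
    rw [wd_add_right]
    exact 𝔤.add_mem h3 h6
  zero_mem' := ⟨map_zero _, map_zero _, by
    have : wd B s (0 : V) = 0 := by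
      have := wd_smul_right B 0 s s
      rwa [zero_smul, zero_smul] at this
    rw [this]
    exact 𝔤.zero_mem⟩
  smul_mem' := by
    rintro c a ⟨h1, h2, h3⟩
    refine ⟨by rw [map_smul, h1, smul_zero], by rw [map_smul, h2, smul_zero], ?_⟩
    rw [wd_smul_right]
    exact 𝔤.smul_mem c h3

namespace Zd

variable (z : Zd B 𝔤 s s')

include z

lemma tau' : B s' s = B s s' := z.symm _ _

lemma pw_swap (x : V) : pw B s' s x = pw B s s' x := by
  rw [pw_apply, pw_apply, z.tau']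
  abel

lemma s_pw (x : V) : B s (pw B s s' x) = 0 := by
  rw [pw_apply, map_sub, map_sub, map_smul, map_smul, z.ss, smul_zero, smul_eq_mul, sub_zero,
    mul_right_comm, inv_mul_cancel₀ z.tau, one_mul, sub_self]

lemma s'_pw (x : V) : B s' (pw B s s' x) = 0 := by
  rw [← z.pw_swap]
  exact z.swap.s_pw x

lemma pw_of {w : V} (h : B s w = 0) (h' : B s' w = 0) : pw B s s' w = w := by
  rw [pw_apply, h, h', mul_zero, zero_smul, zero_smul, sub_zero, sub_zero]

/-- The element `h` with `h s = s`, `h s' = -s'`. -/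
lemma h_mem : (B s s')⁻¹ • wd B s' s ∈ 𝔤 := 𝔤.smul_mem _ z.swap.mem

lemma h_s : ((B s s')⁻¹ • wd B s' s) s = s := by
  rw [LinearMap.smul_apply, wd_apply, z.ss, zero_smul, sub_zero, z.tau', smul_smul,
    inv_mul_cancel₀ z.tau, one_smul]

lemma h_s' : ((B s s')⁻¹ • wd B s' s) s' = -s' := by
  rw [LinearMap.smul_apply, wd_apply, z.ss', zero_smul, zero_sub, smul_neg, smul_smul,
    inv_mul_cancel₀ z.tau, one_smul]

lemma h_w {w : V} (h : B s w = 0) (h' : B s' w = 0) : ((B s s')⁻¹ • wd B s' s) w = 0 := by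
  rw [LinearMap.smul_apply, wd_apply, h, h', zero_smul, zero_smul, sub_zero, smul_zero]

/-- The brackets with `h`. -/
lemma brk_h (u v : V) {a b : ℂ} (hu : ((B s s')⁻¹ • wd B s' s) u = a • u)
    (hv : ((B s s')⁻¹ • wd B s' s) v = b • v) :
    ((B s s')⁻¹ • wd B s' s) * wd B u v - wd B u v * ((B s s')⁻¹ • wd B s' s) =
      (a + b) • wd B u v := by
  rw [brk_wd B (z.skew _ z.h_mem), hu, hv, wd_smul_left, wd_smul_right, add_smul]

/-- Extraction of the component of weight one. -/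
lemma extract {w w' u : V} (hw : B s w = 0) (hw' : B s' w = 0) (hu : B s u = 0)
    (hu' : B s' u = 0) {c : ℂ} {v : V} (hv : ((B s s')⁻¹ • wd B s' s) v = c • v) (hc : c ≠ 1)
    (h : wd B w' v + wd B s w ∈ 𝔤) (hw2 : ((B s s')⁻¹ • wd B s' s) w' = (0 : ℂ) • w') :
    wd B s w ∈ 𝔤 := by
  have h1 := z.brk _ z.h_mem _ h
  have e1 := z.brk_h w' v hw2 hv
  have e2 := z.brk_h s w (a := 1) (b := 0) (by rw [z.h_s, one_smul])
    (by rw [z.h_w hw hw', zero_smul])
  have e3 : ((B s s')⁻¹ • wd B s' s) * (wd B w' v + wd B s w) -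
      (wd B w' v + wd B s w) * ((B s s')⁻¹ • wd B s' s) =
      (0 + c) • wd B w' v + (1 + 0 : ℂ) • wd B s w := by
    rw [← e1, ← e2, mul_add, add_mul]
    abel
  rw [e3, zero_add, add_zero, one_smul] at h1
  have h2 := 𝔤.sub_mem h1 (𝔤.smul_mem c h)
  have h3 : c • wd B w' v + wd B s w - c • (wd B w' v + wd B s w) = (1 - c) • wd B s w := by
    module
  rw [h3] at h2
  have h4 := 𝔤.smul_mem (1 - c)⁻¹ h2
  rwa [smul_smul, inv_mul_cancel₀ (sub_ne_zero.2 (Ne.symm hc)), one_smul] at h4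

lemma pw_f_s' {f : Module.End ℂ V} (hf : f ∈ 𝔤) : pw B s s' (f s') ∈ W1 B 𝔤 s s' := by
  refine ⟨z.s_pw _, z.s'_pw _, ?_⟩
  have h1 := z.brk _ hf _ z.mem
  rw [brk_wd B (z.skew f hf)] at h1
  have hs : B s (f s) = 0 := by
    have h2 := z.skew f hf s s
    rw [z.symm] at h2
    linear_combination h2 / 2
  have hs' : B s' (f s') = 0 := by
    have h2 := z.skew f hf s' s'
    rw [z.symm] at h2
    linear_combination h2 / 2
  have e1 : f s = ((B s s')⁻¹ * B s' (f s)) • s + pw B s s' (f s) := by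
    conv_lhs => rw [eq_pw (B := B) (s := s) (s' := s') (f s)]
    rw [hs, mul_zero, zero_smul, add_zero]
  have e2 : f s' = ((B s s')⁻¹ * B s (f s')) • s' + pw B s s' (f s') := by
    conv_lhs => rw [eq_pw (B := B) (s := s) (s' := s') (f s')]
    rw [hs', mul_zero, zero_smul, zero_add]
  rw [e1, e2, wd_add_left, wd_add_right, wd_smul_left, wd_smul_right] at h1
  have h2 : wd B (pw B s s' (f s)) s' + wd B s (pw B s s' (f s')) ∈ 𝔤 := by
    have h3 := 𝔤.sub_mem h1 (𝔤.smul_mem ((B s s')⁻¹ * B s' (f s) + (B s s')⁻¹ * B s (f s')) z.mem)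
    convert h3 using 1
    rw [add_smul]
    abel
  refine z.extract (c := -1) (z.s_pw _) (z.s'_pw _) (z.s_pw (f s)) (z.s'_pw (f s)) ?_ ?_ h2 ?_
  · rw [z.h_s', neg_smul, one_smul]
  · norm_num
  · rw [z.h_w (z.s_pw _) (z.s'_pw _), zero_smul]

lemma pw_f_w {f : Module.End ℂ V} (hf : f ∈ 𝔤) {w : V} (hw : w ∈ W1 B 𝔤 s s') :
    pw B s s' (f w) ∈ W1 B 𝔤 s s' := by
  refine ⟨z.s_pw _, z.s'_pw _, ?_⟩
  have h1 := z.brk _ hf _ hw.2.2
  rw [brk_wd B (z.skew f hf)] at h1
  have hs : B s (f s) = 0 := by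
    have h2 := z.skew f hf s s
    rw [z.symm] at h2
    linear_combination h2 / 2
  have e1 : f s = ((B s s')⁻¹ * B s' (f s)) • s + pw B s s' (f s) := by
    conv_lhs => rw [eq_pw (B := B) (s := s) (s' := s') (f s)]
    rw [hs, mul_zero, zero_smul, add_zero]
  have e2 := eq_pw (B := B) (s := s) (s' := s') (f w)
  rw [e1, e2, wd_add_left, wd_smul_left, wd_add_right, wd_add_right, wd_smul_right,
    wd_smul_right, wd_self, smul_zero, zero_add] at h1
  have h2 : wd B (pw B s s' (f s)) w + wd B s (pw B s s' (f w)) ∈ 𝔤 := by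
    have h3 := 𝔤.sub_mem h1 (𝔤.add_mem (𝔤.smul_mem ((B s s')⁻¹ * B s' (f s)) hw.2.2)
      (𝔤.smul_mem ((B s s')⁻¹ * B s (f w)) z.mem))
    convert h3 using 1
    abel
  refine z.extract (c := 0) (z.s_pw _) (z.s'_pw _) (z.s_pw (f s)) (z.s'_pw (f s)) ?_ ?_ h2 ?_
  · rw [z.h_w hw.1 hw.2.1, zero_smul]
  · norm_num
  · rw [z.h_w (z.s_pw _) (z.s'_pw _), zero_smul]

lemma s_ne : s ≠ 0 := by
  rintro rfl
  apply z.tau
  rw [map_zero, LinearMap.zero_apply]

/-- The whole orthogonal complement. -/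
lemma w_mem_sup {w : V} (hw : B s w = 0) (hw' : B s' w = 0) : w ∈ W1 B 𝔤 s s' ⊔ W1 B 𝔤 s' s := by
  have h1 : (W1 B 𝔤 s s' ⊔ W1 B 𝔤 s' s).comap (pw B s s') = ⊤ := by
    refine (z.irr _ fun f hf x hx => ?_).resolve_left ?_
    · rw [Submodule.mem_comap] at hx ⊢
      rw [eq_pw (B := B) (s := s) (s' := s') x]
      simp only [map_add f, map_smul f]
      simp only [map_add (pw B s s'), map_smul (pw B s s')]
      refine Submodule.add_mem _ (Submodule.add_mem _ (Submodule.smul_mem _ _ ?_)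
        (Submodule.smul_mem _ _ ?_)) ?_
      · refine Submodule.mem_sup_right ?_
        rw [← z.pw_swap]
        exact z.swap.pw_f_s' hf
      · exact Submodule.mem_sup_left (z.pw_f_s' hf)
      · obtain ⟨a, ha, b, hb, hab⟩ := Submodule.mem_sup.1 hx
        rw [← hab, map_add, map_add]
        refine Submodule.add_mem _ (Submodule.mem_sup_left (z.pw_f_w hf ha))
          (Submodule.mem_sup_right ?_)
        rw [← z.pw_swap]
        exact z.swap.pw_f_w hf hb
    · intro h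
      have h2 : s ∈ (W1 B 𝔤 s s' ⊔ W1 B 𝔤 s' s).comap (pw B s s') := by
        rw [Submodule.mem_comap]
        have : pw B s s' s = 0 := by
          rw [pw_apply, z.ss, z.tau', inv_mul_cancel₀ z.tau, one_smul, mul_zero, zero_smul, sub_self,
            sub_zero]
        rw [this]
        exact Submodule.zero_mem _
      rw [h, Submodule.mem_bot] at h2
      exact z.s_ne h2
  have h2 : w ∈ (W1 B 𝔤 s s' ⊔ W1 B 𝔤 s' s).comap (pw B s s') := by
    rw [h1]
    exact Submodule.mem_top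
  rw [Submodule.mem_comap, z.pw_of hw hw'] at h2
  exact h2

lemma wd_w1_w2 {w w' : V} (hw : w ∈ W1 B 𝔤 s s') (hw' : w' ∈ W1 B 𝔤 s' s) : wd B w w' ∈ 𝔤 := by
  have h1 := z.brk _ hw.2.2 _ hw'.2.2
  rw [brk_wd B (z.skew _ hw.2.2), wd_apply, wd_apply, z.symm w s', hw.2.1, hw'.2.1, zero_smul,
    sub_zero, zero_smul, zero_sub, ← neg_smul, wd_smul_left, wd_smul_right] at h1
  have h2 := 𝔤.sub_mem h1 (𝔤.smul_mem (-(B w w')) z.swap.mem)
  rw [add_sub_cancel_right] at h2
  have h3 := 𝔤.smul_mem (B s s')⁻¹ h2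
  rwa [smul_smul, inv_mul_cancel₀ z.tau, one_smul] at h3

lemma exists_ne : ∃ w ∈ W1 B 𝔤 s s', ∃ w' ∈ W1 B 𝔤 s s', B w w' ≠ 0 := by
  by_contra hcon
  push Not at hcon
  have h1 : (W1 B 𝔤 s s').comap (pw B s s') ⊓ LinearMap.ker (B s') = ⊤ := by
    refine (z.irr _ fun f hf x hx => ?_).resolve_left ?_
    · rw [Submodule.mem_inf, Submodule.mem_comap, LinearMap.mem_ker] at hx ⊢
      have e1 : x = ((B s s')⁻¹ * B s x) • s' + pw B s s' x := by
        conv_lhs => rw [eq_pw (B := B) (s := s) (s' := s') x]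
        rw [hx.2, mul_zero, zero_smul, zero_add]
      have hs' : B s' (f s') = 0 := by
        have h2 := z.skew f hf s' s'
        rw [z.symm] at h2
        linear_combination h2 / 2
      constructor
      · rw [e1, map_add, map_add, map_smul, map_smul]
        exact Submodule.add_mem _ (Submodule.smul_mem _ _ (z.pw_f_s' hf)) (z.pw_f_w hf hx.1)
      · rw [e1, map_add, map_add, map_smul, map_smul, hs', smul_zero, zero_add]
        have h3 := z.skew f hf s' (pw B s s' x)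
        have h4 : B (f s') (pw B s s' x) = 0 := by
          rw [eq_pw (B := B) (s := s) (s' := s') (f s'), map_add, map_add, map_smul, map_smul,
            LinearMap.add_apply, LinearMap.add_apply, LinearMap.smul_apply, LinearMap.smul_apply,
            z.s_pw, z.s'_pw, smul_zero, smul_zero, zero_add, zero_add]
          exact hcon _ (z.pw_f_s' hf) _ hx.1
        rw [h4] at h3
        linear_combination h3
    · intro h
      have h2 : s' ∈ (W1 B 𝔤 s s').comap (pw B s s') ⊓ LinearMap.ker (B s') := by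
        rw [Submodule.mem_inf, Submodule.mem_comap, LinearMap.mem_ker]
        refine ⟨?_, z.ss'⟩
        have : pw B s s' s' = 0 := by
          rw [pw_apply, z.ss', inv_mul_cancel₀ z.tau, one_smul, mul_zero, zero_smul, sub_zero,
            sub_self]
        rw [this]
        exact Submodule.zero_mem _
      rw [h, Submodule.mem_bot] at h2
      exact z.swap.s_ne h2
  have h2 : s ∈ (W1 B 𝔤 s s').comap (pw B s s') ⊓ LinearMap.ker (B s') := by
    rw [h1]
    exact Submodule.mem_top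
  rw [Submodule.mem_inf, LinearMap.mem_ker, z.tau'] at h2
  exact z.tau h2.2

lemma W2_le : W1 B 𝔤 s' s ≤ W1 B 𝔤 s s' := by
  obtain ⟨w1, h1, w1', h1', hne⟩ := z.exists_ne
  intro w2 h2
  refine ⟨h2.2.1, h2.1, ?_⟩
  have h3 := z.wd_w1_w2 h1 h2
  have h4 := z.brk _ h3 _ h1'.2.2
  have e1 : wd B w1 w2 s = 0 := by
    rw [wd_apply, z.symm w1 s, h1.1, z.symm w2 s, h2.2.1, zero_smul, zero_smul, sub_zero]
  have e2 : wd B (0 : V) w1' = 0 := by
    have := wd_smul_left B 0 w1' w1'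
    rwa [zero_smul, zero_smul] at this
  rw [brk_wd B (z.skew _ h3), e1, e2, zero_add, wd_apply, sub_eq_add_neg, ← neg_smul,
    wd_add_right, wd_smul_right, wd_smul_right] at h4
  have h5 := 𝔤.sub_mem h4 (𝔤.smul_mem (-(B w2 w1')) h1.2.2)
  rw [add_sub_cancel_right] at h5
  have h6 := 𝔤.smul_mem (B w1 w1')⁻¹ h5
  rwa [smul_smul, inv_mul_cancel₀ hne, one_smul] at h6

/-- **The theorem.** -/
theorem all (u v : V) : wd B u v ∈ 𝔤 := by
  have h12 : W1 B 𝔤 s' s = W1 B 𝔤 s s' := le_antisymm z.W2_le z.swap.W2_le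
  have hW : ∀ x, pw B s s' x ∈ W1 B 𝔤 s s' := by
    intro x
    have h := z.w_mem_sup (z.s_pw x) (z.s'_pw x)
    rwa [h12, sup_idem] at h
  have hW' : ∀ x, pw B s s' x ∈ W1 B 𝔤 s' s := by
    intro x
    rw [h12]
    exact hW x
  have key : ∀ x, (wd B s x ∈ 𝔤 ∧ wd B s' x ∈ 𝔤) := by
    intro x
    rw [eq_pw (B := B) (s := s) (s' := s') x, wd_add_right, wd_add_right, wd_smul_right,
      wd_smul_right, wd_add_right, wd_add_right, wd_smul_right, wd_smul_right, wd_self, wd_self,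
      smul_zero, smul_zero, zero_add, add_zero]
    exact ⟨𝔤.add_mem (𝔤.smul_mem _ z.mem) (hW x).2.2,
      𝔤.add_mem (𝔤.smul_mem _ z.swap.mem) (hW' x).2.2⟩
  have key2 : ∀ x, wd B (pw B s s' u) x ∈ 𝔤 := by
    intro x
    rw [eq_pw (B := B) (s := s) (s' := s') x, wd_add_right, wd_add_right, wd_smul_right,
      wd_smul_right]
    refine 𝔤.add_mem (𝔤.add_mem (𝔤.smul_mem _ ?_) (𝔤.smul_mem _ ?_)) (z.wd_w1_w2 (hW u) (hW' x))
    · rw [wd_swap]
      exact 𝔤.neg_mem (key _).1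
    · rw [wd_swap]
      exact 𝔤.neg_mem (key _).2
  rw [eq_pw (B := B) (s := s) (s' := s') u, wd_add_left, wd_add_left, wd_smul_left, wd_smul_left]
  exact 𝔤.add_mem (𝔤.add_mem (𝔤.smul_mem _ (key v).1) (𝔤.smul_mem _ (key v).2)) (key2 v)

end Zd

end Run7.h158.Hdg
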