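import Mathlib
import Pool.Agent.Run7.h158.Hdg.Wd

/-!
# The Lie algebra of a Hodge structure of K3 type with scalar endomorphisms
-/

set_option autoImplicit false
set_option linter.unusedSectionVars false

open Matrix

namespace Run7.h158.Hdg

variable {J : Type} [Fintype J] [DecidableEq J]

/-- Extension of scalars for matrices. -/
noncomputable def cm (Y : Matrix J J ℚ) : Matrix J J ℂ := Y.map (algebraMap ℚ ℂ)

/-- Extension of scalars for vectors. -/
noncomputable def cv (v : J → ℚ) : J → ℂ := fun j => algebraMap ℚ ℂ (v j)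

lemma cm_mulVec (Y : Matrix J J ℚ) (v : J → ℚ) : cm Y *ᵥ cv v = cv (Y *ᵥ v) := by
  funext j
  simp [cm, cv, Matrix.mulVec, dotProduct]

lemma cm_mul (X Y : Matrix J J ℚ) : cm (X * Y) = cm X * cm Y := Matrix.map_mul

lemma cm_sub (X Y : Matrix J J ℚ) : cm (X - Y) = cm X - cm Y := by
  ext i j
  simp [cm]

lemma cm_add (X Y : Matrix J J ℚ) : cm (X + Y) = cm X + cm Y := by
  ext i j
  simp [cm]

lemma cm_smul (c : ℚ) (X : Matrix J J ℚ) : cm (c • X) = (c : ℂ) • cm X := by
  ext i j
  simp [cm]

lemma cm_injective : Function.Injective (cm (J := J)) :=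
  Matrix.map_injective (algebraMap ℚ ℂ).injective

/-- The bilinear form on `ℂ^J`. -/
noncomputable def bQ (Q : Matrix J J ℚ) : (J → ℂ) →ₗ[ℂ] (J → ℂ) →ₗ[ℂ] ℂ :=
  LinearMap.mk₂ ℂ (fun u v => u ⬝ᵥ (cm Q *ᵥ v)) (fun _ _ _ => add_dotProduct _ _ _)
    (fun _ _ _ => smul_dotProduct _ _ _)
    (fun _ _ _ => by rw [mulVec_add, dotProduct_add])
    (fun _ _ _ => by rw [mulVec_smul, dotProduct_smul])

lemma bQ_apply (Q : Matrix J J ℚ) (u v : J → ℂ) : bQ Q u v = u ⬝ᵥ (cm Q *ᵥ v) := rfl

lemma bQ_cv (Q : Matrix J J ℚ) (u v : J → ℚ) :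
    bQ Q (cv u) (cv v) = algebraMap ℚ ℂ (u ⬝ᵥ (Q *ᵥ v)) := by
  rw [bQ_apply, cm_mulVec]
  simp [cv, dotProduct]

/-- Finitely many complex numbers in terms of rational functionals. -/
lemma exists_exp {ι : Type} [Finite ι] (c : ι → ℂ) :
    ∃ (L : Type) (_ : Fintype L) (β : L → ℂ) (π : L → ℂ →ₗ[ℚ] ℚ),
      ∀ i, c i = ∑ l, β l * ((π l (c i) : ℚ) : ℂ) := by
  classical
  have := Fintype.ofFinite ι
  let B := Module.Basis.ofVectorSpace ℚ ℂ
  let S := Finset.univ.biUnion fun i => (B.repr (c i)).support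
  refine ⟨S, inferInstance, fun l => B l, fun l => B.coord l, fun i => ?_⟩
  have h1 := B.linearCombination_repr (c i)
  rw [Finsupp.linearCombination_apply, Finsupp.sum] at h1
  rw [Finset.sum_coe_sort S fun l => (B l : ℂ) * ((B.coord l (c i) : ℚ) : ℂ)]
  conv_lhs => rw [← h1]
  rw [Finset.sum_subset (Finset.subset_biUnion_of_mem (fun i => (B.repr (c i)).support)
    (Finset.mem_univ i))]
  · refine Finset.sum_congr rfl fun l _ => ?_
    rw [Rat.smul_def, mul_comm]
    rfl
  · intro l _ hl
    rw [Finsupp.notMem_support_iff.1 hl, zero_smul]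

lemma exists_exp_matrix (A : Matrix J J ℂ) :
    ∃ (L : Type) (_ : Fintype L) (β : L → ℂ) (π : L → ℂ →ₗ[ℚ] ℚ),
      A = ∑ l, β l • cm (A.map (π l)) := by
  obtain ⟨L, iL, β, π, h⟩ := exists_exp fun x : J × J => A x.1 x.2
  refine ⟨L, iL, β, π, ?_⟩
  ext i j
  rw [h (i, j), Matrix.sum_apply]
  rfl

/-- The endomorphism defined by a rational matrix. -/
noncomputable def em (Y : Matrix J J ℚ) : Module.End ℂ (J → ℂ) := Matrix.toLin' (cm Y)

lemma em_apply (Y : Matrix J J ℚ) (v : J → ℂ) : em Y v = cm Y *ᵥ v := Matrix.toLin'_apply _ _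

lemma em_mul (X Y : Matrix J J ℚ) : em (X * Y) = em X * em Y := by
  rw [em, cm_mul, Matrix.toLin'_mul]
  rfl

lemma em_sub (X Y : Matrix J J ℚ) : em (X - Y) = em X - em Y := by
  rw [em, cm_sub, map_sub]
  rfl

/-- The Hodge operator. -/
noncomputable def hA (Q : Matrix J J ℚ) (s s' : J → ℂ) : Matrix J J ℂ :=
  LinearMap.toMatrix' (wd (bQ Q) s' s)

lemma hA_mulVec (Q : Matrix J J ℚ) (s s' v : J → ℂ) :
    hA Q s s' *ᵥ v = wd (bQ Q) s' s v := by
  rw [← Matrix.toLin'_apply, hA, Matrix.toLin'_toMatrix']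

/-- A Lie algebra of rational matrices containing the components of the Hodge operator. -/
structure RatLie (Q : Matrix J J ℚ) (s s' : J → ℂ) (𝔤 : Submodule ℚ (Matrix J J ℚ)) : Prop where
  symm : ∀ x y, bQ Q x y = bQ Q y x
  det : IsUnit Q.det
  brk : ∀ X ∈ 𝔤, ∀ Y ∈ 𝔤, X * Y - Y * X ∈ 𝔤
  skew : ∀ X ∈ 𝔤, ∀ u v, bQ Q (em X u) v = -bQ Q u (em X v)
  ss : bQ Q s s = 0
  ss' : bQ Q s' s' = 0
  tau : bQ Q s s' ≠ 0
  irr : ∀ v : J → ℚ, bQ Q s (cv v) = 0 → v = 0
  irr' : ∀ v : J → ℚ, bQ Q s' (cv v) = 0 → v = 0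
  scalar : ∀ Z : Matrix J J ℚ, cm Z * hA Q s s' = hA Q s s' * cm Z → ∃ c : ℚ, Z = c • 1
  mem : ∀ π : ℂ →ₗ[ℚ] ℚ, (hA Q s s').map π ∈ 𝔤

variable {Q : Matrix J J ℚ} {s s' : J → ℂ} {𝔤 : Submodule ℚ (Matrix J J ℚ)}

/-- The complexification. -/
noncomputable def cg (𝔤 : Submodule ℚ (Matrix J J ℚ)) : Submodule ℂ (Module.End ℂ (J → ℂ)) :=
  Submodule.span ℂ (em '' 𝔤)

namespace RatLie

variable (z : RatLie Q s s' 𝔤)

include z

lemma mem_cg : wd (bQ Q) s' s ∈ cg 𝔤 := by
  obtain ⟨L, iL, β, π, h⟩ := exists_exp_matrix (hA Q s s')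
  have h1 : wd (bQ Q) s' s = ∑ l, β l • em ((hA Q s s').map (π l)) := by
    have h2 := congrArg Matrix.toLin' h
    rw [map_sum, hA, Matrix.toLin'_toMatrix'] at h2
    rw [h2]
    refine Finset.sum_congr rfl fun l _ => ?_
    rw [map_smul]
    rfl
  rw [h1]
  exact Submodule.sum_mem _ fun l _ => Submodule.smul_mem _ _
    (Submodule.subset_span ⟨_, z.mem (π l), rfl⟩)

/-- The rational space is simple. -/
lemma simple (W : Submodule ℚ (J → ℚ)) (hW : ∀ X ∈ 𝔤, ∀ v ∈ W, X *ᵥ v ∈ W) : W = ⊥ ∨ W = ⊤ := by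
  by_cases h0 : W = ⊥
  · exact Or.inl h0
  right
  obtain ⟨v, hv, hv0⟩ := Submodule.exists_mem_ne_zero_of_ne_bot h0
  -- the complexification is stable under the Hodge operator
  let WC : Submodule ℂ (J → ℂ) := Submodule.span ℂ (cv '' W)
  have hWC : ∀ x ∈ WC, wd (bQ Q) s' s x ∈ WC := by
    obtain ⟨L, iL, β, π, h⟩ := exists_exp_matrix (hA Q s s')
    intro x hx
    induction hx using Submodule.span_induction with
    | mem x hx =>
      obtain ⟨u, hu, rfl⟩ := hx
      rw [← hA_mulVec, h, Matrix.sum_mulVec]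
      refine Submodule.sum_mem _ fun l _ => ?_
      rw [Matrix.smul_mulVec, cm_mulVec]
      exact Submodule.smul_mem _ _ (Submodule.subset_span ⟨_, hW _ (z.mem (π l)) u hu, rfl⟩)
    | zero => rw [map_zero]; exact Submodule.zero_mem _
    | add a b _ _ ha hb => rw [map_add]; exact Submodule.add_mem _ ha hb
    | smul c a _ ha => rw [map_smul]; exact Submodule.smul_mem _ _ ha
  have hvC : cv v ∈ WC := Submodule.subset_span ⟨v, hv, rfl⟩
  have h1 := hWC _ hvC
  have h2 := hWC _ h1
  by_contra htop
  obtain ⟨f, hf0, hf⟩ := Submodule.exists_le_ker_of_lt_top W (lt_top_iff_ne_top.2 htop)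
  -- the functional is given by a vector
  let w : J → ℚ := Qᵀ⁻¹ *ᵥ fun j => f (Pi.single j 1)
  have hw : ∀ u, w ⬝ᵥ (Q *ᵥ u) = f u := by
    intro u
    have hd : IsUnit (Qᵀ).det := by
      rw [Matrix.det_transpose]
      exact z.det
    rw [Matrix.dotProduct_mulVec, ← Matrix.mulVec_transpose, Matrix.mulVec_mulVec,
      Matrix.mul_nonsing_inv _ hd, Matrix.one_mulVec]
    conv_rhs => rw [← Finset.univ_sum_single u, map_sum]
    rw [dotProduct]
    refine Finset.sum_congr rfl fun j _ => ?_
    have : (Pi.single j (u j) : J → ℚ) = u j • Pi.single j 1 := by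
      rw [← Pi.single_smul, smul_eq_mul, mul_one]
    rw [this, map_smul, smul_eq_mul, mul_comm]
  have hwW : ∀ x ∈ WC, bQ Q (cv w) x = 0 := by
    intro x hx
    induction hx using Submodule.span_induction with
    | mem x hx =>
      obtain ⟨u, hu, rfl⟩ := hx
      rw [bQ_cv, hw, LinearMap.mem_ker.1 (hf hu), map_zero]
    | zero => rw [map_zero]
    | add a b _ _ ha hb => rw [map_add, ha, hb, add_zero]
    | smul c a _ ha => rw [map_smul, ha, smul_zero]
  have h3 := hwW _ h1
  have h4 := hwW _ h2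
  have hw0 : bQ Q s (cv w) = 0 := by
    have hx' : bQ Q s' (cv v) ≠ 0 := fun h => hv0 (z.irr' v h)
    rw [wd_apply, map_sub, map_smul, map_smul, z.symm (cv w) s, z.symm (cv w) s', smul_eq_mul,
      smul_eq_mul] at h3
    simp only [wd_apply, map_sub, map_smul, z.ss, z.ss', z.symm s' s, z.symm (cv w) s,
      z.symm (cv w) s', smul_eq_mul, mul_zero, zero_sub, sub_zero] at h4
    have h5 : bQ Q s' (cv v) * bQ Q s (cv w) * (2 * bQ Q s s') = 0 := by
      linear_combination bQ Q s s' * h3 + h4
    rcases mul_eq_zero.1 h5 with h6 | h6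
    · exact (mul_eq_zero.1 h6).resolve_left hx'
    · exact absurd h6 (mul_ne_zero two_ne_zero z.tau)
  have hw1 := z.irr w hw0
  apply hf0
  refine LinearMap.ext fun u => ?_
  rw [← hw, hw1, zero_dotProduct, LinearMap.zero_apply]

/-- The matrices commuting with the Lie algebra are scalar. -/
lemma commutant {Z : Matrix J J ℚ} (hZ : ∀ X ∈ 𝔤, Z * X = X * Z) : ∃ c : ℚ, Z = c • 1 := by
  apply z.scalar
  obtain ⟨L, iL, β, π, h⟩ := exists_exp_matrix (hA Q s s')
  conv_lhs => rw [h]
  conv_rhs => rw [h]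
  rw [Finset.mul_sum, Finset.sum_mul]
  refine Finset.sum_congr rfl fun l _ => ?_
  rw [mul_smul_comm, smul_mul_assoc, ← cm_mul, ← cm_mul, hZ _ (z.mem (π l))]

/-- The associative algebra generated by the Lie algebra is everything. -/
lemma adjoin_eq : Algebra.adjoin ℚ ((fun X : Matrix J J ℚ => Matrix.toLin' X) '' 𝔤) = ⊤ := by
  set R := Algebra.adjoin ℚ ((fun X : Matrix J J ℚ => Matrix.toLin' X) '' 𝔤) with hR
  have hmem : ∀ X ∈ 𝔤, Matrix.toLin' X ∈ R := fun X hX => Algebra.subset_adjoin ⟨X, hX, rfl⟩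
  have hsm : ∀ (c : ℚ) (v : J → ℚ), (algebraMap ℚ R c) • v = c • v := by
    intro c v
    rfl
  by_cases hJ : Nonempty J
  · have hne : Nontrivial (J → ℚ) := Function.nontrivial
    have hsimple : IsSimpleModule R (J → ℚ) := by
      refine { exists_pair_ne := ?_, eq_bot_or_eq_top := fun W => ?_ }
      · exact exists_pair_ne _
      · let W' : Submodule ℚ (J → ℚ) :=
          { carrier := W
            add_mem' := fun ha hb => W.add_mem ha hb
            zero_mem' := W.zero_mem
            smul_mem' := fun c v hv => by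
              have := W.smul_mem (algebraMap ℚ R c) hv
              rwa [hsm] at this }
        rcases z.simple W' (fun X hX v hv => by
          have h1 := W.smul_mem (⟨_, hmem X hX⟩ : R) hv
          have h2 : (⟨_, hmem X hX⟩ : R) • v = X *ᵥ v := Matrix.toLin'_apply X v
          rw [h2] at h1
          exact h1) with h | h
        · left
          ext v
          have h1 : v ∈ W' ↔ v ∈ (⊥ : Submodule ℚ (J → ℚ)) := by rw [h]
          exact h1
        · right
          ext v
          have h1 : v ∈ W' ↔ v ∈ (⊤ : Submodule ℚ (J → ℚ)) := by rw [h]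
          exact h1
    have hend : ∀ φ : Module.End R (J → ℚ), ∃ c : ℚ, ∀ v, φ v = c • v := by
      intro φ
      let ψ : Module.End ℚ (J → ℚ) :=
        { toFun := φ
          map_add' := map_add φ
          map_smul' := fun c v => by
            have := map_smul φ (algebraMap ℚ R c) v
            rwa [hsm, hsm] at this }
      obtain ⟨c, hc⟩ := z.commutant (Z := LinearMap.toMatrix' ψ) (fun X hX => by
        apply Matrix.toLin'.injective
        rw [Matrix.toLin'_mul, Matrix.toLin'_mul, Matrix.toLin'_toMatrix']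
        refine LinearMap.ext fun v => ?_
        have h1 := map_smul φ (⟨_, hmem X hX⟩ : R) v
        exact h1)
      refine ⟨c, fun v => ?_⟩
      have h1 : ψ = Matrix.toLin' (c • (1 : Matrix J J ℚ)) := by
        rw [← hc, Matrix.toLin'_toMatrix']
      have h2 : φ v = ψ v := rfl
      rw [h2, h1, Matrix.toLin'_apply, Matrix.smul_mulVec, Matrix.one_mulVec]
    rw [eq_top_iff]
    intro g _
    let f : Module.End (Module.End R (J → ℚ)) (J → ℚ) :=
      { toFun := g
        map_add' := map_add g
        map_smul' := fun φ v => by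
          obtain ⟨c, hc⟩ := hend φ
          rw [RingHom.id_apply, Module.End.smul_def, Module.End.smul_def, hc, hc, map_smul] }
    obtain ⟨r, hr⟩ := jacobson_density (R := R) (M := J → ℚ) f
      (Finset.univ.image fun j : J => (Pi.single j 1 : J → ℚ))
    have h1 : g = (r : Module.End ℚ (J → ℚ)) := by
      refine (Pi.basisFun ℚ J).ext fun j => ?_
      have h2 := hr (Pi.single j 1) (Finset.mem_image.2 ⟨j, Finset.mem_univ j, rfl⟩)
      rw [Pi.basisFun_apply]
      exact h2
    rw [h1]
    exact r.2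
  · have : Subsingleton (Module.End ℚ (J → ℚ)) := by
      have : IsEmpty J := not_nonempty_iff.1 hJ
      infer_instance
    rw [eq_top_iff]
    intro g _
    rw [Subsingleton.elim g 0]
    exact R.zero_mem

/-- Irreducibility of the complexification. -/
lemma irr_cg (M : Submodule ℂ (J → ℂ)) (hM : ∀ f ∈ cg 𝔤, ∀ x ∈ M, f x ∈ M) : M = ⊥ ∨ M = ⊤ := by
  have h1 : ∀ X : Matrix J J ℚ, ∀ x ∈ M, cm X *ᵥ x ∈ M := by
    have key : ∀ g : Module.End ℚ (J → ℚ), ∀ x ∈ M, cm (LinearMap.toMatrix' g) *ᵥ x ∈ M := by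
      intro g
      have hg : g ∈ Algebra.adjoin ℚ ((fun X : Matrix J J ℚ => Matrix.toLin' X) '' 𝔤) := by
        rw [z.adjoin_eq]
        exact Algebra.mem_top
      induction hg using Algebra.adjoin_induction with
      | mem x hx =>
        obtain ⟨X, hX, rfl⟩ := hx
        intro x hx
        have h2 := hM _ (Submodule.subset_span ⟨X, hX, rfl⟩) x hx
        rw [em_apply] at h2
        simp only [LinearMap.toMatrix'_toLin']
        exact h2
      | algebraMap c =>
        intro x hx
        have h2 : LinearMap.toMatrix' (algebraMap ℚ (Module.End ℚ (J → ℚ)) c) = c • 1 := by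
          rw [Algebra.algebraMap_eq_smul_one, map_smul, LinearMap.toMatrix'_one]
        rw [h2, cm_smul, Matrix.smul_mulVec]
        have h3 : cm (1 : Matrix J J ℚ) = 1 := by
          ext i j
          simp [cm, Matrix.one_apply, apply_ite]
        rw [h3, Matrix.one_mulVec]
        exact M.smul_mem _ hx
      | add a b _ _ ha hb =>
        intro x hx
        rw [map_add, cm_add, Matrix.add_mulVec]
        exact M.add_mem (ha x hx) (hb x hx)
      | mul a b _ _ ha hb =>
        intro x hx
        rw [LinearMap.toMatrix'_mul, cm_mul, ← Matrix.mulVec_mulVec]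
        exact ha _ (hb x hx)
    intro X x hx
    have h2 := key (Matrix.toLin' X) x hx
    rwa [LinearMap.toMatrix'_toLin'] at h2
  by_cases h0 : M = ⊥
  · exact Or.inl h0
  right
  obtain ⟨x, hx, hx0⟩ := Submodule.exists_mem_ne_zero_of_ne_bot h0
  obtain ⟨j, hj⟩ := Function.ne_iff.1 hx0
  rw [Pi.zero_apply] at hj
  have h2 : ∀ i, (Pi.single i 1 : J → ℂ) ∈ M := by
    intro i
    have h3 := M.smul_mem (x j)⁻¹ (h1 (Matrix.single i j 1) x hx)
    have h4 : cm (Matrix.single i j (1 : ℚ)) *ᵥ x = x j • (Pi.single i 1 : J → ℂ) := by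
      funext k
      rw [Matrix.mulVec, dotProduct, Finset.sum_eq_single_of_mem j (Finset.mem_univ j)]
      · by_cases h : k = i
        · subst h
          simp [cm, Matrix.single_apply]
        · simp [cm, Matrix.single_apply, h, Ne.symm h]
      · intro l _ hl
        simp [cm, Matrix.single_apply, Ne.symm hl]
    rw [h4, smul_smul, inv_mul_cancel₀ hj, one_smul] at h3
    exact h3
  rw [eq_top_iff]
  intro y _
  rw [← Finset.univ_sum_single y]
  refine M.sum_mem fun i _ => ?_
  have h3 : (Pi.single i (y i) : J → ℂ) = y i • Pi.single i 1 := by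
    rw [← Pi.single_smul, smul_eq_mul, mul_one]
  rw [h3]
  exact M.smul_mem _ (h2 i)

/-- **The complexification contains all skew endomorphisms of rank two.** -/
theorem wd_mem (u v : J → ℂ) : wd (bQ Q) u v ∈ cg 𝔤 := by
  have zd : Zd (bQ Q) (cg 𝔤) s s' :=
    { symm := z.symm
      brk := by
        intro f hf g hg
        induction hf using Submodule.span_induction with
        | mem f hf =>
          obtain ⟨X, hX, rfl⟩ := hf
          induction hg using Submodule.span_induction with
          | mem g hg =>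
            obtain ⟨Y, hY, rfl⟩ := hg
            rw [← em_mul, ← em_mul, ← em_sub]
            exact Submodule.subset_span ⟨_, z.brk X hX Y hY, rfl⟩
          | zero => rw [mul_zero, zero_mul, sub_zero]; exact Submodule.zero_mem _
          | add a b _ _ ha hb =>
            rw [mul_add, add_mul, add_sub_add_comm]
            exact Submodule.add_mem _ ha hb
          | smul c a _ ha =>
            rw [mul_smul_comm, smul_mul_assoc]
            have := Submodule.smul_mem _ c ha
            rwa [smul_sub] at this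
        | zero => rw [mul_zero, zero_mul, sub_zero]; exact Submodule.zero_mem _
        | add a b _ _ ha hb =>
          rw [mul_add, add_mul, add_sub_add_comm]
          exact Submodule.add_mem _ ha hb
        | smul c a _ ha =>
          rw [mul_smul_comm, smul_mul_assoc]
          have := Submodule.smul_mem _ c ha
          rwa [smul_sub] at this
      skew := by
        intro f hf
        induction hf using Submodule.span_induction with
        | mem f hf =>
          obtain ⟨X, hX, rfl⟩ := hf
          exact z.skew X hX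
        | zero =>
          intro x y
          rw [LinearMap.zero_apply, LinearMap.zero_apply, map_zero, LinearMap.zero_apply, map_zero,
            neg_zero]
        | add a b _ _ ha hb =>
          intro x y
          rw [LinearMap.add_apply, LinearMap.add_apply, map_add, LinearMap.add_apply, map_add, ha,
            hb, neg_add]
        | smul c a _ ha =>
          intro x y
          rw [LinearMap.smul_apply, LinearMap.smul_apply, map_smul, LinearMap.smul_apply, map_smul,
            ha, smul_neg]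
      irr := z.irr_cg
      ss := z.ss
      ss' := z.ss'
      tau := z.tau
      mem := by
        rw [wd_swap]
        exact (cg 𝔤).neg_mem z.mem_cg }
  exact zd.all u v

end RatLie

end Run7.h158.Hdg
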