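import Mathlib
import Pool.Agent.Run7.h158.Hdg.Zar

/-!
# Complex orthonormal bases
-/

set_option autoImplicit false
set_option linter.unusedSectionVars false

open Matrix

namespace Run7.h158.Hdg

variable {J : Type} [Fintype J] [DecidableEq J]

lemma cm_det {Q : Matrix J J ℚ} (hd : IsUnit Q.det) : IsUnit (cm Q).det := by
  have h1 : (cm Q).det = algebraMap ℚ ℂ Q.det := (RingHom.map_det (algebraMap ℚ ℂ) Q).symm
  rw [h1]
  exact hd.map _

/-- A nondegenerate symmetric form over the complex numbers has an orthonormal basis. -/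
theorem exists_orthonormal (Q : Matrix J J ℚ) (hs : ∀ x y, bQ Q x y = bQ Q y x)
    (hd : IsUnit Q.det) : ∃ g : Matrix J J ℂ, gᵀ * cm Q * g = 1 := by
  obtain ⟨v, hv⟩ := LinearMap.BilinForm.exists_orthogonal_basis (B := bQ Q)
    ⟨fun x y => by simpa using hs x y⟩
  have hcard : Module.finrank ℂ (J → ℂ) = Fintype.card J := Module.finrank_fintype_fun_eq_card ℂ
  let e : Fin (Module.finrank ℂ (J → ℂ)) ≃ J :=
    (finCongr hcard).trans (Fintype.equivFin J).symm
  have horth : ∀ i j : J, i ≠ j → bQ Q (v (e.symm i)) (v (e.symm j)) = 0 := by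
    intro i j hij
    exact hv (fun h => hij (e.symm.injective h))
  have hne : ∀ i : J, bQ Q (v (e.symm i)) (v (e.symm i)) ≠ 0 := by
    intro i h0
    have h1 : bQ Q (v (e.symm i)) = 0 := by
      refine v.ext fun k => ?_
      rw [LinearMap.zero_apply]
      by_cases hk : i = e k
      · rw [hk, Equiv.symm_apply_apply] at h0
        rw [hk, Equiv.symm_apply_apply]
        exact h0
      · have := horth i (e k) hk
        rwa [Equiv.symm_apply_apply] at this
    have h2 : v (e.symm i) = 0 := by
      have h3 : (cm Q) *ᵥ (v (e.symm i)) = 0 := by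
        funext j
        have h4 : bQ Q (Pi.single j 1) (v (e.symm i)) = 0 := by
          rw [hs, h1, LinearMap.zero_apply]
        rw [bQ_apply, single_one_dotProduct] at h4
        exact h4
      have h4 := congrArg (fun x => (cm Q)⁻¹ *ᵥ x) h3
      simpa [Matrix.mulVec_mulVec, Matrix.nonsing_inv_mul _ (cm_det hd)] using h4
    exact v.ne_zero _ h2
  have hsq : ∀ i : J, ∃ c : ℂ, c * c * bQ Q (v (e.symm i)) (v (e.symm i)) = 1 := by
    intro i
    obtain ⟨c, hc⟩ := IsAlgClosed.exists_pow_nat_eq (bQ Q (v (e.symm i)) (v (e.symm i)))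
      (n := 2) (by norm_num)
    have hc0 : c ≠ 0 := by
      rintro rfl
      apply hne i
      rw [← hc]
      norm_num
    refine ⟨c⁻¹, ?_⟩
    rw [← hc]
    field_simp
  choose c hc using hsq
  let g : Matrix J J ℂ := Matrix.of fun a j => c j * v (e.symm j) a
  refine ⟨g, ?_⟩
  ext i j
  have h1 : (gᵀ * cm Q * g) i j = c i * c j * bQ Q (v (e.symm i)) (v (e.symm j)) := by
    rw [bQ_apply, Matrix.mul_assoc, Matrix.mul_apply, dotProduct, Finset.mul_sum]
    refine Finset.sum_congr rfl fun a _ => ?_
    rw [Matrix.transpose_apply, Matrix.mul_apply, Matrix.mulVec, dotProduct, Finset.mul_sum,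
      Finset.mul_sum, Finset.mul_sum]
    refine Finset.sum_congr rfl fun b _ => ?_
    simp only [g, Matrix.of_apply]
    ring
  rw [h1]
  by_cases hij : i = j
  · subst hij
    rw [Matrix.one_apply_eq, hc]
  · rw [horth i j hij, mul_zero, Matrix.one_apply_ne hij]

end Run7.h158.Hdg
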