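import Mathlib
import Pool.Agent.Run7.h158.Hdg.Fft
import Pool.Agent.Run7.h158.Hdg.Orth

/-!
# Hodge classes in the images of spaces of polynomials
-/

set_option autoImplicit false
set_option linter.unusedSectionVars false

open MvPolynomial

namespace Run7.h158.Hdg

variable {JN JT M ι K B : Type} [Fintype JN] [DecidableEq JN] [Fintype JT] [DecidableEq JT]
  [Fintype M] [DecidableEq M] [Fintype ι] [DecidableEq ι] [Fintype K] [AddCommGroup B] [Module ℂ B]

section derivation

variable {F : Type} [Field F]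

/-- The derivation defined by a matrix. -/
noncomputable def DX (Y : Matrix JT JT F) :
    Derivation F (MvPolynomial (JN ⊕ (M × JT)) F) (MvPolynomial (JN ⊕ (M × JT)) F) :=
  mkDerivation F (Sum.elim (fun _ => 0) fun x => ∑ b, Y b x.2 • X (Sum.inr (x.1, b)))

lemma DX_inl (Y : Matrix JT JT F) (i : JN) :
    DX (M := M) Y (X (Sum.inl i) : MvPolynomial (JN ⊕ (M × JT)) F) = 0 := by
  rw [DX, mkDerivation_X]
  rfl

lemma DX_inr (Y : Matrix JT JT F) (p : M) (a : JT) :
    DX Y (X (Sum.inr (p, a)) : MvPolynomial (JN ⊕ (M × JT)) F) =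
      ∑ b, Y b a • X (Sum.inr (p, b)) := by
  rw [DX, mkDerivation_X]
  rfl

lemma DX_add (Y Z : Matrix JT JT F) :
    DX (JN := JN) (M := M) (Y + Z) = DX Y + DX Z := by
  refine derivation_ext fun i => ?_
  rw [Derivation.add_apply]
  rcases i with i | ⟨p, a⟩
  · rw [DX_inl, DX_inl, DX_inl, add_zero]
  · rw [DX_inr, DX_inr, DX_inr, ← Finset.sum_add_distrib]
    exact Finset.sum_congr rfl fun b _ => by rw [Matrix.add_apply, add_smul]

lemma DX_smul (c : F) (Y : Matrix JT JT F) :
    DX (JN := JN) (M := M) (c • Y) = c • DX Y := by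
  refine derivation_ext fun i => ?_
  rw [Derivation.smul_apply]
  rcases i with i | ⟨p, a⟩
  · rw [DX_inl, DX_inl, smul_zero]
  · rw [DX_inr, DX_inr, Finset.smul_sum]
    exact Finset.sum_congr rfl fun b _ => by rw [Matrix.smul_apply, smul_eq_mul, mul_smul]

/-- The derivations as a linear map in the matrix. -/
noncomputable def DXl : Matrix JT JT F →ₗ[F]
    Derivation F (MvPolynomial (JN ⊕ (M × JT)) F) (MvPolynomial (JN ⊕ (M × JT)) F) where
  toFun := DX
  map_add' := DX_add
  map_smul' := DX_smul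

lemma DX_sum {L : Type} (S : Finset L) (β : L → F) (Y : L → Matrix JT JT F)
    (P : MvPolynomial (JN ⊕ (M × JT)) F) :
    DX (∑ l ∈ S, β l • Y l) P = ∑ l ∈ S, β l • DX (Y l) P := by
  have h1 : DX (JN := JN) (M := M) (∑ l ∈ S, β l • Y l) = ∑ l ∈ S, β l • DX (Y l) := by
    have h2 := map_sum (DXl (JN := JN) (M := M)) (fun l => β l • Y l) S
    simp only [map_smul] at h2
    exact h2
  rw [h1, ← Derivation.coeFnAddMonoidHom_apply, map_sum, Finset.sum_apply]
  rfl

lemma DX_brk (Y Z : Matrix JT JT F) (P : MvPolynomial (JN ⊕ (M × JT)) F) :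
    DX (Y * Z - Z * Y) P = DX Y (DX Z P) - DX Z (DX Y P) := by
  have h1 : DX (JN := JN) (M := M) (Y * Z - Z * Y) = ⁅DX (JN := JN) (M := M) Y, DX Z⁆ := by
    refine derivation_ext fun i => ?_
    rw [Derivation.commutator_apply]
    rcases i with i | ⟨p, a⟩
    · rw [DX_inl, DX_inl, DX_inl, map_zero, map_zero, sub_zero]
    · have key : ∀ Y Z : Matrix JT JT F, DX Y (∑ b, Z b a •
          (X (Sum.inr (p, b)) : MvPolynomial (JN ⊕ (M × JT)) F)) =
          ∑ c, (Y * Z) c a • X (Sum.inr (p, c)) := by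
        intro Y Z
        rw [map_sum]
        simp only [Derivation.map_smul, DX_inr, Finset.smul_sum, smul_smul, Matrix.mul_apply,
          Finset.sum_smul]
        rw [Finset.sum_comm]
        exact Finset.sum_congr rfl fun c _ => Finset.sum_congr rfl fun b _ => by rw [mul_comm]
      rw [DX_inr, DX_inr, DX_inr, key, key, ← Finset.sum_sub_distrib]
      exact Finset.sum_congr rfl fun b _ => by rw [Matrix.sub_apply, sub_smul]
  rw [h1, Derivation.commutator_apply]

lemma DX_eq (Y : Matrix JT JT F) (P : MvPolynomial (JN ⊕ (M × JT)) F) :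
    DX Y P = ∑ p : M, ∑ a, ∑ b, Y b a • (X (Sum.inr (p, b)) * pderiv (Sum.inr (p, a)) P) := by
  let D' : Derivation F (MvPolynomial (JN ⊕ (M × JT)) F) (MvPolynomial (JN ⊕ (M × JT)) F) :=
    ∑ p : M, ∑ a, ∑ b, Y b a • ((X (Sum.inr (p, b)) : MvPolynomial (JN ⊕ (M × JT)) F) •
      pderiv (Sum.inr (p, a)))
  have hD' : ∀ P, D' P = ∑ p : M, ∑ a, ∑ b, Y b a •
      (X (Sum.inr (p, b)) * pderiv (Sum.inr (p, a)) P) := by
    intro P
    simp only [D']
    rw [← Derivation.coeFnAddMonoidHom_apply, map_sum, Finset.sum_apply]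
    refine Finset.sum_congr rfl fun p _ => ?_
    rw [map_sum, Finset.sum_apply]
    refine Finset.sum_congr rfl fun a _ => ?_
    rw [map_sum, Finset.sum_apply]
    rfl
  have h1 : DX (JN := JN) (M := M) Y = D' := by
    refine derivation_ext fun i => ?_
    rw [hD']
    rcases i with i | ⟨p, a⟩
    · rw [DX_inl]
      symm
      refine Finset.sum_eq_zero fun q _ => Finset.sum_eq_zero fun a _ =>
        Finset.sum_eq_zero fun b _ => ?_
      rw [pderiv_X_of_ne (by simp), mul_zero, smul_zero]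
    · rw [DX_inr]
      symm
      rw [Finset.sum_eq_single_of_mem p (Finset.mem_univ p)]
      · rw [Finset.sum_eq_single_of_mem a (Finset.mem_univ a)]
        · refine Finset.sum_congr rfl fun b _ => ?_
          rw [pderiv_X_self, mul_one]
        · intro c _ hc
          refine Finset.sum_eq_zero fun b _ => ?_
          rw [pderiv_X_of_ne (by
            intro h
            rw [Sum.inr.injEq, Prod.mk.injEq] at h
            exact hc h.2.symm), mul_zero, smul_zero]
      · intro q _ hq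
        refine Finset.sum_eq_zero fun c _ => Finset.sum_eq_zero fun b _ => ?_
        rw [pderiv_X_of_ne (by
          intro h
          rw [Sum.inr.injEq, Prod.mk.injEq] at h
          exact hq h.1.symm), mul_zero, smul_zero]
  rw [h1, hD']

end derivation

lemma DX_map (Y : Matrix JT JT ℚ) (P : MvPolynomial (JN ⊕ (M × JT)) ℚ) :
    DX (cm Y) (map (algebraMap ℚ ℂ) P) = map (algebraMap ℚ ℂ) (DX Y P) := by
  induction P using MvPolynomial.induction_on with
  | C a =>
    rw [map_C, derivation_C, derivation_C, map_zero]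
  | add p q hp hq => rw [map_add, map_add, map_add, map_add, hp, hq]
  | mul_X p i hp =>
    rw [map_mul, map_X, Derivation.leibniz, Derivation.leibniz, map_add, hp, smul_eq_mul,
      smul_eq_mul, smul_eq_mul, smul_eq_mul, map_mul, map_mul, map_X]
    congr 1
    rcases i with i | ⟨p', a⟩
    · rw [DX_inl, DX_inl, map_zero]
    · rw [DX_inr, DX_inr, map_sum]
      congr 1
      refine Finset.sum_congr rfl fun b _ => ?_
      rw [MvPolynomial.smul_eq_C_mul, MvPolynomial.smul_eq_C_mul, map_mul, map_C, map_X]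
      rfl

lemma Bd.smul {N : ℕ} {σ : Type} {P : MvPolynomial σ ℂ} (hP : Bd N P) (c : ℂ) : Bd N (c • P) :=
  fun α h => by rw [coeff_smul, hP α h, smul_zero]

lemma Bd.X_pd {N : ℕ} {σ : Type} {P : MvPolynomial σ ℂ} (hP : Bd N P) (i j : σ) :
    Bd N (X i * pderiv j P) := fun α h => by
  classical
  rw [mul_comm, coeff_mul_X']
  split_ifs with hi
  · rw [coeff_pderiv, hP, zero_mul]
    have h1 : α = α - Finsupp.single i 1 + Finsupp.single i 1 := by
      rw [tsub_add_cancel_of_le]
      rw [Finsupp.single_le_iff]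
      exact Nat.one_le_iff_ne_zero.2 (Finsupp.mem_support_iff.1 hi)
    have h2 := congrArg Finsupp.degree h1
    rw [map_add, Finsupp.degree_single] at h2
    rw [map_add, Finsupp.degree_single]
    omega
  · rfl

lemma Bd.DX {N : ℕ} {P : MvPolynomial (JN ⊕ (M × JT)) ℂ} (hP : Bd N P) (Y : Matrix JT JT ℂ) :
    Bd N (DX Y P) := by
  rw [DX_eq]
  exact Bd.sum _ fun p _ => Bd.sum _ fun a _ => Bd.sum _ fun b _ => (hP.X_pd _ _).smul _

/-! ### Rational vectors -/

/-- The rational vectors. -/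
def IsRt (b : Module.Basis K ℂ B) (x : B) : Prop := ∀ k, ∃ r : ℚ, b.repr x k = r

lemma exists_retraction : ∃ π : ℂ →ₗ[ℚ] ℚ, ∀ r : ℚ, π (r : ℂ) = r := by
  obtain ⟨π, hπ⟩ := LinearMap.exists_leftInverse_of_injective (Algebra.linearMap ℚ ℂ)
    (LinearMap.ker_eq_bot.2 (algebraMap ℚ ℂ).injective)
  exact ⟨π, fun r => LinearMap.congr_fun hπ r⟩

lemma pi_mul (π : ℂ →ₗ[ℚ] ℚ) (c : ℂ) (r : ℚ) : π (c * r) = π c * r := by
  have h : c * (r : ℂ) = r • c := by rw [Rat.smul_def, mul_comm]
  rw [h, map_smul, smul_eq_mul, mul_comm]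

/-- A rational vector in the complex span of a rational space lies in this space. -/
theorem desc (b : Module.Basis K ℂ B) {S : Set B} (h0 : (0 : B) ∈ S)
    (hadd : ∀ x ∈ S, ∀ y ∈ S, x + y ∈ S) (hsmul : ∀ (r : ℚ), ∀ x ∈ S, (r : ℂ) • x ∈ S)
    (hS : ∀ x ∈ S, IsRt b x) {x : B} (hx : IsRt b x) (hxS : x ∈ Submodule.span ℂ S) : x ∈ S := by
  obtain ⟨π, hπ⟩ := exists_retraction
  obtain ⟨n, c, y, hxy⟩ := (Submodule.mem_span_set' (R := ℂ)).1 hxS
  have h1 : x = ∑ i, ((π (c i) : ℚ) : ℂ) • (y i : B) := by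
    apply b.repr.injective
    refine Finsupp.ext fun k => ?_
    obtain ⟨q, hq⟩ := hx k
    choose r hr using fun i => hS _ (y i).2 k
    rw [hq, map_sum, Finsupp.finsetSum_apply]
    simp only [map_smul, Finsupp.smul_apply, smul_eq_mul, hr]
    have h2 : (q : ℂ) = ∑ i, c i * (r i : ℂ) := by
      rw [← hq, ← hxy, map_sum, Finsupp.finsetSum_apply]
      refine Finset.sum_congr rfl fun i _ => ?_
      rw [map_smul, Finsupp.smul_apply, smul_eq_mul, hr]
    have h3 := congrArg π h2
    rw [hπ, map_sum] at h3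
    simp only [pi_mul] at h3
    rw [h3]
    push_cast
    rfl
  rw [h1]
  exact Finset.sum_induction _ (· ∈ S) (fun a b ha hb => hadd a ha b hb) h0
    fun i _ => hsmul _ _ (y i).2

end Run7.h158.Hdg
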