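import Mathlib
import Pool.Agent.Run7.h158.Hdg.Orth

/-!
# Bases adapted to the decomposition into algebraic and transcendental classes
-/

set_option autoImplicit false
set_option linter.unusedSectionVars false

namespace Run7.h158.Hdg

/-- A basis adapted to the decomposition of a rational quadratic space into the algebraic and the
transcendental part. -/
structure Adp {V : Type} [AddCommGroup V] [Module ℂ V] (q : V →ₗ[ℂ] V →ₗ[ℂ] ℂ) (R N : V → Prop)
    (JN JT : Type) [Fintype JT] [DecidableEq JT] where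
  B : Module.Basis (JN ⊕ JT) ℂ V
  Q : Matrix JT JT ℚ
  ns : ∀ c, N (B (Sum.inl c))
  rt : ∀ a, R (B (Sum.inr a))
  orth : ∀ c a, q (B (Sum.inl c)) (B (Sum.inr a)) = 0
  coord : ∀ v, R v → ∀ k, ∃ r : ℚ, B.repr v k = r
  ns_inr : ∀ v, N v → ∀ a, B.repr v (Sum.inr a) = 0
  tr_inl : ∀ v, (∀ w, N w → q v w = 0) → ∀ c, B.repr v (Sum.inl c) = 0
  gram : ∀ a b, q (B (Sum.inr a)) (B (Sum.inr b)) = Q a b
  det : IsUnit Q.det

variable {V J : Type} [AddCommGroup V] [Module ℂ V] [Fintype J]

/-- Combinations of basis vectors with rational coefficients. -/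
noncomputable def wr (e : Module.Basis J ℂ V) (w : J → ℚ) : V := ∑ j, (w j : ℂ) • e j

section wr

variable (e : Module.Basis J ℂ V)

lemma wr_add (w w' : J → ℚ) : wr e (w + w') = wr e w + wr e w' := by
  simp only [wr, Pi.add_apply, Rat.cast_add, add_smul, Finset.sum_add_distrib]

lemma wr_smul (r : ℚ) (w : J → ℚ) : wr e (r • w) = (r : ℂ) • wr e w := by
  simp only [wr, Pi.smul_apply, smul_eq_mul, Rat.cast_mul, Finset.smul_sum, smul_smul]

lemma wr_zero : wr e 0 = 0 := by
  simp [wr]

lemma wr_sum {K : Type} (S : Finset K) (r : K → ℚ) (w : K → J → ℚ) :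
    wr e (∑ k ∈ S, r k • w k) = ∑ k ∈ S, (r k : ℂ) • wr e (w k) := by
  classical
  induction S using Finset.induction_on with
  | empty => rw [Finset.sum_empty, Finset.sum_empty, wr_zero]
  | insert a S ha ih => rw [Finset.sum_insert ha, Finset.sum_insert ha, wr_add, wr_smul, ih]

lemma wr_single [DecidableEq J] (j : J) : wr e (Pi.single j 1) = e j := by
  rw [wr, Finset.sum_eq_single_of_mem j (Finset.mem_univ j)]
  · simp
  · intro k _ hk
    simp [Pi.single_eq_of_ne hk]

lemma wr_repr (w : J → ℚ) (j : J) : e.repr (wr e w) j = w j := by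
  classical
  rw [wr, map_sum, Finsupp.finsetSum_apply]
  simp only [map_smul, Module.Basis.repr_self, Finsupp.smul_apply, smul_eq_mul]
  rw [Finset.sum_eq_single_of_mem j (Finset.mem_univ j)]
  · simp
  · intro k _ hk
    rw [Finsupp.single_eq_of_ne (Ne.symm hk), mul_zero]

lemma wr_injective : Function.Injective (wr e) := by
  intro w w' h
  funext j
  have h1 := wr_repr e w j
  rw [h, wr_repr] at h1
  exact_mod_cast h1.symm

end wr

variable [DecidableEq J]

/-- The Gram matrix. -/
noncomputable def gm (G : J → J → ℚ) : LinearMap.BilinForm ℚ (J → ℚ) :=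
  Matrix.toBilin' (Matrix.of G)

lemma gm_spec (e : Module.Basis J ℂ V) (q : V →ₗ[ℂ] V →ₗ[ℂ] ℂ) {G : J → J → ℚ}
    (hG : ∀ j k, q (e j) (e k) = G j k) (w w' : J → ℚ) :
    q (wr e w) (wr e w') = ((gm G w w' : ℚ) : ℂ) := by
  have h1 : gm G w w' = ∑ i, ∑ j, w i * G i j * w' j := Matrix.toBilin'_apply _ _ _
  rw [h1, wr, wr]
  simp only [map_sum, LinearMap.sum_apply, map_smul, LinearMap.smul_apply, smul_eq_mul, hG]
  push_cast
  rw [Finset.sum_comm]
  refine Finset.sum_congr rfl fun j _ => ?_
  rw [Finset.mul_sum]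
  refine Finset.sum_congr rfl fun k _ => ?_
  ring

/-- Existence of adapted bases. -/
theorem exists_adp (e : Module.Basis J ℂ V) (q : V →ₗ[ℂ] V →ₗ[ℂ] ℂ)
    (hs : ∀ x y, q x y = q y x) (hnd : ∀ x, (∀ y, q x y = 0) → x = 0) {G : J → J → ℚ}
    (hG : ∀ j k, q (e j) (e k) = G j k) (N : Submodule ℚ (J → ℚ))
    (hN : ∀ w ∈ N, (∀ w' ∈ N, q (wr e w) (wr e w') = 0) → w = 0) :
    ∃ (JN JT : Type) (_ : Fintype JN) (_ : Fintype JT) (_ : DecidableEq JN) (_ : DecidableEq JT),
      Nonempty (Adp q (fun v => ∃ w, wr e w = v) (fun v => ∃ w ∈ N, wr e w = v) JN JT) := by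
  have hrefl : (gm G).IsRefl := by
    intro w w' h
    have h1 : ((gm G w' w : ℚ) : ℂ) = 0 := by
      rw [← gm_spec e q hG, hs, gm_spec e q hG, h, Rat.cast_zero]
    exact_mod_cast h1
  have hres : ((gm G).restrict N).Nondegenerate := by
    refine (LinearMap.BilinForm.nondegenerate_iff_ker_eq_bot).2 ?_
    rw [LinearMap.ker_eq_bot']
    intro w hw
    refine Subtype.ext (hN _ w.2 fun w' hw' => ?_)
    rw [gm_spec e q hG]
    have h1 := LinearMap.congr_fun hw ⟨w', hw'⟩
    have h2 : gm G w w' = 0 := h1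
    rw [h2, Rat.cast_zero]
  have hc : IsCompl N ((gm G).orthogonal N) :=
    LinearMap.BilinForm.isCompl_orthogonal_of_restrict_nondegenerate hrefl hres
  let T := (gm G).orthogonal N
  let nb := Module.finBasis ℚ N
  let tb := Module.finBasis ℚ T
  let JN := Fin (Module.finrank ℚ N)
  let JT := Fin (Module.finrank ℚ T)
  let b0 : Module.Basis (JN ⊕ JT) ℚ (J → ℚ) := (nb.prod tb).map (Submodule.prodEquivOfIsCompl N T hc)
  have hb1 : ∀ c : JN, b0 (Sum.inl c) = nb c := fun c => by
    simp [b0]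
  have hb2 : ∀ a : JT, b0 (Sum.inr a) = tb a := fun a => by
    simp [b0]
  -- the complex basis
  have hw : ∀ w : J → ℚ, wr e w = ∑ k, ((b0.repr w k : ℚ) : ℂ) • wr e (b0 k) := by
    intro w
    conv_lhs => rw [← b0.sum_repr w]
    exact wr_sum e _ _ _
  have hsp : ⊤ ≤ Submodule.span ℂ (Set.range fun k => wr e (b0 k)) := by
    rw [← e.span_eq, Submodule.span_le]
    rintro _ ⟨j, rfl⟩
    rw [← wr_single e j, hw]
    exact Submodule.sum_mem _ fun k _ => Submodule.smul_mem _ _ (Submodule.subset_span ⟨k, rfl⟩)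
  have hcard : Fintype.card (JN ⊕ JT) = Module.finrank ℂ V := by
    rw [Module.finrank_eq_card_basis e, ← Module.finrank_eq_card_basis b0,
      Module.finrank_fintype_fun_eq_card]
  let B : Module.Basis (JN ⊕ JT) ℂ V := basisOfTopLeSpanOfCardEqFinrank _ hsp hcard
  have hB : ∀ k, B k = wr e (b0 k) := fun k => by
    simp [B]
  have hrep : ∀ (w : J → ℚ) k, B.repr (wr e w) k = b0.repr w k := by
    intro w k
    rw [hw w, map_sum, Finsupp.finsetSum_apply]
    simp only [← hB, map_smul, Module.Basis.repr_self, Finsupp.smul_apply, smul_eq_mul]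
    rw [Finset.sum_eq_single_of_mem k (Finset.mem_univ k)]
    · simp
    · intro l _ hl
      rw [Finsupp.single_eq_of_ne (Ne.symm hl), mul_zero]
  have hnN : ∀ c : JN, (b0 (Sum.inl c)) ∈ N := fun c => by rw [hb1]; exact (nb c).2
  have horth : ∀ w ∈ N, ∀ a : JT, q (wr e w) (wr e (b0 (Sum.inr a))) = 0 := by
    intro w hw' a
    rw [gm_spec e q hG, hb2]
    have h1 : gm G w (tb a) = 0 := (tb a).2 w hw'
    rw [h1, Rat.cast_zero]
  have hnr : ∀ w ∈ N, ∀ a : JT, b0.repr w (Sum.inr a) = 0 := by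
    intro w hw' a
    have h1 : (Submodule.prodEquivOfIsCompl N T hc).symm w = (⟨w, hw'⟩, 0) :=
      Submodule.prodEquivOfIsCompl_symm_apply_left (p := N) (q := T) hc ⟨w, hw'⟩
    have h2 : b0.repr w = (nb.prod tb).repr ((Submodule.prodEquivOfIsCompl N T hc).symm w) := rfl
    rw [h2, h1]
    simp
  -- Gram matrices
  let Q : Matrix JT JT ℚ := Matrix.of fun a b => gm G (b0 (Sum.inr a)) (b0 (Sum.inr b))
  let P : Matrix JN JN ℚ := Matrix.of fun a b => gm G (b0 (Sum.inl a)) (b0 (Sum.inl b))
  have hQ : ∀ a b, q (B (Sum.inr a)) (B (Sum.inr b)) = ((Q a b : ℚ) : ℂ) := by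
    intro a b
    rw [hB, hB, gm_spec e q hG]
    rfl
  have hPq : ∀ a b, q (B (Sum.inl a)) (B (Sum.inl b)) = ((P a b : ℚ) : ℂ) := by
    intro a b
    rw [hB, hB, gm_spec e q hG]
    rfl
  have hBo : ∀ c a, q (B (Sum.inl c)) (B (Sum.inr a)) = 0 := by
    intro c a
    rw [hB, hB]
    exact horth _ (hnN c) a
  have hdetQ : Q.det ≠ 0 := by
    intro h0
    obtain ⟨w, hw0, hw1⟩ := Matrix.exists_mulVec_eq_zero_iff.2 h0
    apply hw0
    have h1 : ∑ a, ((w a : ℚ) : ℂ) • B (Sum.inr a) = 0 := by
      apply hnd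
      have h2 : ∀ k, q (∑ a, ((w a : ℚ) : ℂ) • B (Sum.inr a)) (B k) = 0 := by
        intro k
        rw [map_sum, LinearMap.sum_apply]
        simp only [map_smul, LinearMap.smul_apply, smul_eq_mul]
        rcases k with c | b
        · refine Finset.sum_eq_zero fun a _ => ?_
          rw [hs, hBo, mul_zero]
        · have h3 := congrFun hw1 b
          rw [Matrix.mulVec, dotProduct] at h3
          have h4 : ((∑ a, Q b a * w a : ℚ) : ℂ) = 0 := by rw [h3]; simp
          push_cast at h4
          rw [← h4]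
          refine Finset.sum_congr rfl fun a _ => ?_
          rw [hs, hQ, mul_comm]
      intro y
      rw [← B.sum_repr y, map_sum]
      exact Finset.sum_eq_zero fun k _ => by rw [map_smul, h2, smul_zero]
    have h3 : ∀ b, w b = 0 := by
      intro b
      have h4 := congrArg (fun z => B.repr z (Sum.inr b)) h1
      simp only [map_sum, map_smul, Finsupp.finsetSum_apply, Finsupp.smul_apply,
        Module.Basis.repr_self, map_zero, Finsupp.zero_apply, smul_eq_mul] at h4
      rw [Finset.sum_eq_single_of_mem b (Finset.mem_univ b)] at h4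
      · simpa using h4
      · intro l _ hl
        rw [Finsupp.single_eq_of_ne (by simpa using Ne.symm hl), mul_zero]
    exact funext h3
  have hdetP : P.det ≠ 0 := by
    intro h0
    obtain ⟨w, hw0, hw1⟩ := Matrix.exists_mulVec_eq_zero_iff.2 h0
    apply hw0
    have h1 : ∑ c, w c • b0 (Sum.inl c) = 0 := by
      refine hN _ (Submodule.sum_mem _ fun c _ => Submodule.smul_mem _ _ (hnN c)) fun w' hw' => ?_
      have h5 : ∀ c, q (∑ a, ((w a : ℚ) : ℂ) • B (Sum.inl a)) (B (Sum.inl c)) = 0 := by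
        intro c
        rw [map_sum, LinearMap.sum_apply]
        simp only [map_smul, LinearMap.smul_apply, smul_eq_mul]
        have h3 := congrFun hw1 c
        rw [Matrix.mulVec, dotProduct] at h3
        have h4 : ((∑ a, P c a * w a : ℚ) : ℂ) = 0 := by rw [h3]; simp
        push_cast at h4
        rw [← h4]
        refine Finset.sum_congr rfl fun a _ => ?_
        rw [hs, hPq, mul_comm]
      have h6 : wr e w' = ∑ c, ((b0.repr w' (Sum.inl c) : ℚ) : ℂ) • B (Sum.inl c) := by
        rw [hw w', Fintype.sum_sum_type]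
        simp only [hnr w' hw', Rat.cast_zero, zero_smul, Finset.sum_const_zero, add_zero, hB]
      rw [wr_sum, h6]
      simp only [← hB]
      rw [map_sum]
      exact Finset.sum_eq_zero fun c _ => by rw [map_smul, h5, smul_zero]
    have h3 : ∀ b, w b = 0 := by
      intro b
      have h4 := congrArg (fun z => b0.repr z (Sum.inl b)) h1
      simp only [map_sum, map_smul, Finsupp.finsetSum_apply, Finsupp.smul_apply,
        Module.Basis.repr_self, map_zero, Finsupp.zero_apply, smul_eq_mul] at h4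
      rw [Finset.sum_eq_single_of_mem b (Finset.mem_univ b)] at h4
      · simpa using h4
      · intro l _ hl
        rw [Finsupp.single_eq_of_ne (by simpa using Ne.symm hl), mul_zero]
    exact funext h3
  refine ⟨JN, JT, inferInstance, inferInstance, inferInstance, inferInstance, ⟨
    { B := B
      Q := Q
      ns := fun c => ⟨_, hnN c, (hB _).symm⟩
      rt := fun a => ⟨_, (hB _).symm⟩
      orth := hBo
      coord := ?_
      ns_inr := ?_
      tr_inl := ?_
      gram := hQ
      det := isUnit_iff_ne_zero.2 hdetQ }⟩⟩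
  · rintro _ ⟨w, rfl⟩ k
    exact ⟨_, hrep w k⟩
  · rintro _ ⟨w, hw', rfl⟩ a
    rw [hrep, hnr w hw', Rat.cast_zero]
  · intro v hv
    have h1 : ∀ c, q (B (Sum.inl c)) v = 0 := by
      intro c
      rw [hs]
      exact hv _ ⟨_, hnN c, (hB _).symm⟩
    have h2 : (cm P).mulVec (fun c => B.repr v (Sum.inl c)) = 0 := by
      funext c
      have h3 := h1 c
      rw [← B.sum_repr v, map_sum, Fintype.sum_sum_type] at h3
      simp only [map_smul, hBo, smul_eq_mul, mul_zero, Finset.sum_const_zero, add_zero, hPq] at h3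
      rw [Matrix.mulVec, dotProduct, Pi.zero_apply, ← h3]
      refine Finset.sum_congr rfl fun a _ => ?_
      rw [mul_comm]
      rfl
    have h3 : IsUnit (cm P).det := cm_det (isUnit_iff_ne_zero.2 hdetP)
    have h4 := congrArg (fun x => ((cm P)⁻¹).mulVec x) h2
    simp only [Matrix.mulVec_mulVec, Matrix.nonsing_inv_mul _ h3, Matrix.one_mulVec,
      Matrix.mulVec_zero] at h4
    exact fun c => congrFun h4 c

end Run7.h158.Hdg
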