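import Mathlib
import Pool.Agent.Run7.h158.Hdg.Alg

/-!
# Hodge classes in the images of spaces of polynomials: the theorem
-/

set_option autoImplicit false
set_option linter.unusedSectionVars false

open MvPolynomial

namespace Run7.h158.Hdg

variable {JN JT M ι K B : Type} [Fintype JN] [DecidableEq JN] [Fintype JT] [DecidableEq JT]
  [Fintype M] [DecidableEq M] [Fintype ι] [DecidableEq ι] [Fintype K] [AddCommGroup B] [Module ℂ B]

/-! ### Substitutions -/

/-- The substitution defined by a matrix. -/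
noncomputable def sub (g : Matrix JT JT ℂ) :
    MvPolynomial (JN ⊕ (M × JT)) ℂ →ₐ[ℂ] MvPolynomial (JN ⊕ (M × JT)) ℂ :=
  aeval (Sum.elim (fun i => X (Sum.inl i)) fun x => ∑ b, g b x.2 • X (Sum.inr (x.1, b)))

lemma sub_inl (g : Matrix JT JT ℂ) (i : JN) :
    sub (M := M) g (X (Sum.inl i)) = X (Sum.inl i) := by
  rw [sub, aeval_X]
  rfl

lemma sub_inr (g : Matrix JT JT ℂ) (p : M) (a : JT) :
    sub (JN := JN) g (X (Sum.inr (p, a))) = ∑ b, g b a • X (Sum.inr (p, b)) := by
  rw [sub, aeval_X]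
  rfl

lemma sub_sub (g g' : Matrix JT JT ℂ) (h : g * g' = 1) (P : MvPolynomial (JN ⊕ (M × JT)) ℂ) :
    sub g (sub g' P) = P := by
  have h1 : (sub g).comp (sub (JN := JN) (M := M) g') = AlgHom.id ℂ _ := by
    refine MvPolynomial.algHom_ext fun i => ?_
    rw [AlgHom.comp_apply, AlgHom.id_apply]
    rcases i with i | ⟨p, a⟩
    · rw [sub_inl, sub_inl]
    · rw [sub_inr, map_sum]
      simp only [map_smul, sub_inr, Finset.smul_sum, smul_smul]
      rw [Finset.sum_comm]
      have h2 : ∀ c, ∑ b, (g' b a * g c b) • (X (Sum.inr (p, c)) :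
          MvPolynomial (JN ⊕ (M × JT)) ℂ) = if c = a then X (Sum.inr (p, c)) else 0 := by
        intro c
        rw [← Finset.sum_smul]
        have h3 : ∑ b, g' b a * g c b = (g * g') c a := by
          rw [Matrix.mul_apply]
          exact Finset.sum_congr rfl fun b _ => mul_comm _ _
        rw [h3, h, Matrix.one_apply]
        split_ifs <;> simp
      rw [Finset.sum_congr rfl fun c _ => h2 c, Finset.sum_ite_eq', if_pos (Finset.mem_univ a)]
  exact AlgHom.congr_fun h1 P

lemma sub_DX {h Y Y' : Matrix JT JT ℂ} (hY : h * Y = Y' * h)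
    (P : MvPolynomial (JN ⊕ (M × JT)) ℂ) : sub h (DX Y P) = DX Y' (sub h P) := by
  induction P using MvPolynomial.induction_on with
  | C a =>
    rw [derivation_C, map_zero, MvPolynomial.algHom_C, Derivation.map_algebraMap]
  | add p q hp hq => rw [map_add, map_add, map_add, map_add, hp, hq]
  | mul_X p i hp =>
    rw [Derivation.leibniz, map_add, smul_eq_mul, smul_eq_mul, map_mul, map_mul, map_mul,
      Derivation.leibniz, hp, smul_eq_mul, smul_eq_mul]
    congr 2
    rcases i with i | ⟨p', a⟩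
    · rw [DX_inl, sub_inl, DX_inl, map_zero]
    · rw [DX_inr, sub_inr, map_sum, map_sum]
      simp only [map_smul, Derivation.map_smul, sub_inr, DX_inr, Finset.smul_sum, smul_smul]
      rw [Finset.sum_comm]
      conv_rhs => rw [Finset.sum_comm]
      refine Finset.sum_congr rfl fun c _ => ?_
      rw [← Finset.sum_smul, ← Finset.sum_smul]
      congr 1
      have h1 := congrFun (congrFun hY c) a
      rw [Matrix.mul_apply, Matrix.mul_apply] at h1
      rw [Finset.sum_congr rfl fun b _ => mul_comm (Y b a) (h c b), h1]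
      exact Finset.sum_congr rfl fun b _ => mul_comm _ _

lemma rot_eq (a b : JT) (P : MvPolynomial (JN ⊕ (M × JT)) ℂ) :
    rot a b P = DX (Matrix.single a b 1 - Matrix.single b a 1) P := by
  have h1 : rot (ν := JN) (M := M) a b = DX (Matrix.single a b 1 - Matrix.single b a 1) := by
    refine derivation_ext fun i => ?_
    rcases i with i | ⟨p, c⟩
    · rw [rot_inl, DX_inl]
    · rw [rot_inr, DX_inr]
      simp only [Matrix.sub_apply, sub_smul, Finset.sum_sub_distrib, Matrix.single_apply,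
        ite_smul, one_smul, zero_smul]
      congr 1
      · by_cases h : b = c
        · rw [if_pos h]
          simp [h]
        · rw [if_neg h]
          simp [h]
      · by_cases h : a = c
        · rw [if_pos h]
          simp [h]
        · rw [if_neg h]
          simp [h]
  rw [h1]

/-- The evident invariants. -/
noncomputable def GQ (JN : Type) {M : Type} (Q : Matrix JT JT ℚ) (p q : M) :
    MvPolynomial (JN ⊕ (M × JT)) ℂ :=
  ∑ a, ∑ b, cm Q⁻¹ a b • (X (Sum.inr (p, a)) * X (Sum.inr (q, b)))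

/-- The algebra of the evident invariants. -/
noncomputable def AlgQ (JN M : Type) (Q : Matrix JT JT ℚ) :
    Subalgebra ℂ (MvPolynomial (JN ⊕ (M × JT)) ℂ) :=
  Algebra.adjoin ℂ ((Set.range fun i : JN => X (Sum.inl i)) ∪
    Set.range fun x : M × M => GQ JN Q x.1 x.2)

lemma cm_one : cm (1 : Matrix JT JT ℚ) = 1 := by
  ext i j
  simp [cm, Matrix.one_apply, apply_ite]

lemma cm_neg (Y : Matrix JT JT ℚ) : cm (-Y) = -cm Y := by
  ext i j
  simp [cm]

lemma g_gT {Q : Matrix JT JT ℚ} (hd : IsUnit Q.det) {g : Matrix JT JT ℂ}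
    (hg : g.transpose * cm Q * g = 1) : g * g.transpose = cm Q⁻¹ := by
  have h1 : g * (g.transpose * cm Q) = 1 := mul_eq_one_comm.1 hg
  have h2 : cm Q * cm Q⁻¹ = 1 := by
    rw [← cm_mul, Matrix.mul_nonsing_inv _ hd, cm_one]
  calc g * g.transpose = g * g.transpose * (cm Q * cm Q⁻¹) := by rw [h2, mul_one]
    _ = g * (g.transpose * cm Q) * cm Q⁻¹ := by simp only [mul_assoc]
    _ = cm Q⁻¹ := by rw [h1, one_mul]

lemma sub_GG {Q : Matrix JT JT ℚ} (hd : IsUnit Q.det) {g : Matrix JT JT ℂ}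
    (hg : g.transpose * cm Q * g = 1) (p q : M) :
    sub g (GG JN (A := JT) p q) = GQ JN Q p q := by
  rw [GG, map_sum, GQ, ← g_gT hd hg]
  simp only [map_mul, sub_inr, Finset.sum_mul_sum, smul_mul_smul_comm, Matrix.mul_apply,
    Matrix.transpose_apply, Finset.sum_smul]
  rw [Finset.sum_comm]
  refine Finset.sum_congr rfl fun a _ => ?_
  rw [Finset.sum_comm]

lemma sub_alg {Q : Matrix JT JT ℚ} (hd : IsUnit Q.det) {g : Matrix JT JT ℂ}
    (hg : g.transpose * cm Q * g = 1) {P : MvPolynomial (JN ⊕ (M × JT)) ℂ}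
    (hP : P ∈ Alg JN M JT) : sub g P ∈ AlgQ JN M Q := by
  have h1 : (Alg JN M JT).map (sub g) ≤ AlgQ JN M Q := by
    rw [Alg, AlgHom.map_adjoin, AlgQ]
    refine Algebra.adjoin_mono ?_
    rintro _ ⟨x, hx, rfl⟩
    rcases hx with ⟨i, rfl⟩ | ⟨⟨p, q⟩, rfl⟩
    · exact Or.inl ⟨i, (sub_inl g i).symm⟩
    · exact Or.inr ⟨(p, q), (sub_GG hd hg p q).symm⟩
  exact h1 ⟨P, hP, rfl⟩

lemma h_rot (a b : JT) (P P' : MvPolynomial (JN ⊕ (M × JT)) ℂ) :
    (fischer _).h (rot a b P) P' = -(fischer _).h P (rot a b P') := by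
  have key : ∀ a b : JT, (fischer (JN ⊕ (M × JT))).h
      (∑ p, X (Sum.inr (p, a)) * pderiv (Sum.inr (p, b)) P) P' =
      (fischer _).h P (∑ p, X (Sum.inr (p, b)) * pderiv (Sum.inr (p, a)) P') := by
    intro a b
    rw [Herm.sum_left, map_sum]
    refine Finset.sum_congr rfl fun p _ => ?_
    rw [fischer_X_mul, fischer_pderiv]
  rw [rot_apply, rot_apply, sub_eq_add_neg, Herm.add_left, Herm.neg_left, key, key, map_sub]
  ring

/-! ### The theorem -/

/-- Extension of scalars for families of polynomials. -/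
noncomputable def TT (κ : ι → MvPolynomial (JN ⊕ (M × JT)) ℚ) :
    ι → MvPolynomial (JN ⊕ (M × JT)) ℂ := fun i => map (algebraMap ℚ ℂ) (κ i)

/-- The derivation on families. -/
noncomputable def DT (ι : Type) (Y : Matrix JT JT ℂ) :
    (ι → MvPolynomial (JN ⊕ (M × JT)) ℂ) →ₗ[ℂ] (ι → MvPolynomial (JN ⊕ (M × JT)) ℂ) :=
  LinearMap.compLeft (DX (JN := JN) (M := M) Y).toLinearMap ι

lemma DT_apply (Y : Matrix JT JT ℂ) (κ : ι → MvPolynomial (JN ⊕ (M × JT)) ℂ) (i : ι) :
    DT ι Y κ i = DX Y (κ i) := rfl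

lemma DT_TT (Y : Matrix JT JT ℚ) (κ : ι → MvPolynomial (JN ⊕ (M × JT)) ℚ) :
    DT ι (cm Y) (TT κ) = TT fun i => DX Y (κ i) := by
  funext i
  exact DX_map Y (κ i)

lemma DT_add (Y Z : Matrix JT JT ℂ) (κ : ι → MvPolynomial (JN ⊕ (M × JT)) ℂ) :
    DT ι (Y + Z) κ = DT ι Y κ + DT ι Z κ := by
  funext i
  rw [Pi.add_apply, DT_apply, DT_apply, DT_apply, DX_add, Derivation.add_apply]

lemma DT_smul (c : ℂ) (Y : Matrix JT JT ℂ) (κ : ι → MvPolynomial (JN ⊕ (M × JT)) ℂ) :
    DT ι (c • Y) κ = c • DT ι Y κ := by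
  funext i
  rw [Pi.smul_apply, DT_apply, DT_apply, DX_smul, Derivation.smul_apply]

lemma DT_brk (Y Z : Matrix JT JT ℚ) (κ : ι → MvPolynomial (JN ⊕ (M × JT)) ℂ) :
    DT ι (cm (Y * Z - Z * Y)) κ = DT ι (cm Y) (DT ι (cm Z) κ) - DT ι (cm Z) (DT ι (cm Y) κ) := by
  funext i
  rw [cm_sub, cm_mul, cm_mul, Pi.sub_apply, DT_apply, DT_apply, DT_apply, DT_apply, DT_apply,
    DX_brk]

/-- The hypotheses of the theorem. -/
structure Setup (Q : Matrix JT JT ℚ) (s s' : JT → ℂ) (b : Module.Basis K ℂ B) (eta : B → B)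
    (F : (ι → MvPolynomial (JN ⊕ (M × JT)) ℂ) →ₗ[ℂ] B) : Prop where
  symm : ∀ x y, bQ Q x y = bQ Q y x
  det : IsUnit Q.det
  ss : bQ Q s s = 0
  ss' : bQ Q s' s' = 0
  tau : bQ Q s s' ≠ 0
  irr : ∀ v : JT → ℚ, bQ Q s (cv v) = 0 → v = 0
  irr' : ∀ v : JT → ℚ, bQ Q s' (cv v) = 0 → v = 0
  scalar : ∀ Z : Matrix JT JT ℚ, cm Z * hA Q s s' = hA Q s s' * cm Z → ∃ c : ℚ, Z = c • 1
  rat : ∀ κ, IsRt b (F (TT κ))
  eta_F : ∀ κ, F (DT ι (hA Q s s') κ) = eta (F κ)

variable {Q : Matrix JT JT ℚ} {s s' : JT → ℂ} {b : Module.Basis K ℂ B} {eta : B → B}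
  {F : (ι → MvPolynomial (JN ⊕ (M × JT)) ℂ) →ₗ[ℂ] B}

namespace Setup

variable (h : Setup Q s s' b eta F)

include h

lemma exists_rat {x : B} (hx : IsRt b x) (hxF : x ∈ LinearMap.range F) :
    ∃ κ, F (TT κ) = x := by
  have hsp : x ∈ Submodule.span ℂ {y | ∃ κ, F (TT κ) = y} := by
    obtain ⟨κ, rfl⟩ := hxF
    rw [← Finset.univ_sum_single κ, map_sum]
    refine Submodule.sum_mem _ fun i _ => ?_
    generalize κ i = P
    induction P using MvPolynomial.induction_on' with
    | monomial α c =>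
      have h1 : (Pi.single i (monomial α c) : ι → MvPolynomial (JN ⊕ (M × JT)) ℂ) =
          c • TT (Pi.single i (monomial α 1)) := by
        funext j
        rw [Pi.smul_apply, TT]
        by_cases hj : j = i
        · subst hj
          rw [Pi.single_eq_same, Pi.single_eq_same, map_monomial, map_one, smul_monomial,
            smul_eq_mul, mul_one]
        · rw [Pi.single_eq_of_ne hj, Pi.single_eq_of_ne hj, map_zero, smul_zero]
      rw [h1, map_smul]
      exact Submodule.smul_mem _ _ (Submodule.subset_span ⟨_, rfl⟩)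
    | add p q hp hq =>
      rw [Pi.single_add, map_add]
      exact Submodule.add_mem _ hp hq
  refine desc b ?_ ?_ ?_ ?_ hx hsp
  · refine ⟨0, ?_⟩
    have h1 : (TT (0 : ι → MvPolynomial (JN ⊕ (M × JT)) ℚ)) = 0 := by
      funext i
      exact map_zero _
    rw [h1, map_zero]
  · rintro _ ⟨κ, rfl⟩ _ ⟨κ', rfl⟩
    refine ⟨κ + κ', ?_⟩
    have h1 : TT (κ + κ') = TT κ + TT κ' := by
      funext i
      exact map_add _ _ _
    rw [h1, map_add]
  · rintro r _ ⟨κ, rfl⟩
    refine ⟨r • κ, ?_⟩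
    have h1 : TT (r • κ) = (r : ℂ) • TT κ := by
      funext i
      rw [Pi.smul_apply, TT, TT, Pi.smul_apply, MvPolynomial.smul_eq_C_mul,
        MvPolynomial.smul_eq_C_mul, map_mul, map_C]
      rfl
    rw [h1, map_smul]
  · rintro _ ⟨κ, rfl⟩
    exact h.rat κ

omit h in
lemma skew_of_matrix {Y : Matrix JT JT ℂ}
    (hY : Y.transpose * cm Q = -(cm Q * Y)) (u v : JT → ℂ) :
    bQ Q (Y.mulVec u) v = -bQ Q u (Y.mulVec v) := by
  rw [bQ_apply, bQ_apply, Matrix.mulVec_mulVec, ← Matrix.vecMul_transpose,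
    ← Matrix.dotProduct_mulVec, Matrix.mulVec_mulVec, hY, Matrix.neg_mulVec, dotProduct_neg]

omit h in
lemma matrix_of_skew {Y : Matrix JT JT ℂ}
    (hY : ∀ u v, bQ Q (Y.mulVec u) v = -bQ Q u (Y.mulVec v)) :
    Y.transpose * cm Q = -(cm Q * Y) := by
  ext i j
  have h1 := hY (Pi.single i 1) (Pi.single j 1)
  rw [bQ_apply, bQ_apply, Matrix.mulVec_single_one, Matrix.mulVec_single_one,
    single_one_dotProduct, Matrix.mulVec_single_one] at h1
  rw [Matrix.mul_apply, Matrix.neg_apply, Matrix.mul_apply]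
  exact h1

/-- The Lie algebra. -/
def lie (Q : Matrix JT JT ℚ) (F : (ι → MvPolynomial (JN ⊕ (M × JT)) ℂ) →ₗ[ℂ] B)
    (P : ι → MvPolynomial (JN ⊕ (M × JT)) ℚ) : Submodule ℚ (Matrix JT JT ℚ) where
  carrier := {Y | (cm Y).transpose * cm Q = -(cm Q * cm Y) ∧ F (DT ι (cm Y) (TT P)) = 0 ∧
    ∀ κ, F (TT κ) = 0 → F (DT ι (cm Y) (TT κ)) = 0}
  add_mem' := by
    rintro Y Z ⟨h1, h2, h3⟩ ⟨h4, h5, h6⟩
    refine ⟨?_, ?_, fun κ hκ => ?_⟩
    · rw [cm_add, Matrix.transpose_add, add_mul, h1, h4, mul_add]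
      abel
    · rw [cm_add, DT_add, map_add, h2, h5, add_zero]
    · rw [cm_add, DT_add, map_add, h3 κ hκ, h6 κ hκ, add_zero]
  zero_mem' := by
    have h0 : cm (0 : Matrix JT JT ℚ) = 0 := by
      ext i j
      simp [cm]
    have h1 : ∀ κ : ι → MvPolynomial (JN ⊕ (M × JT)) ℂ, DT ι 0 κ = 0 := by
      intro κ
      have := DT_smul 0 0 κ
      rwa [zero_smul, zero_smul] at this
    refine ⟨?_, ?_, fun κ hκ => ?_⟩
    · rw [h0, Matrix.transpose_zero, zero_mul, mul_zero, neg_zero]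
    · rw [h0, h1, map_zero]
    · rw [h0, h1, map_zero]
  smul_mem' := by
    rintro c Y ⟨h1, h2, h3⟩
    refine ⟨?_, ?_, fun κ hκ => ?_⟩
    · rw [cm_smul, Matrix.transpose_smul, smul_mul_assoc, h1, mul_smul_comm, smul_neg]
    · rw [cm_smul, DT_smul, map_smul, h2, smul_zero]
    · rw [cm_smul, DT_smul, map_smul, h3 κ hκ, smul_zero]

lemma skew_hA : (hA Q s s').transpose * cm Q = -(cm Q * hA Q s s') := by
  apply matrix_of_skew
  intro u v
  rw [hA_mulVec, hA_mulVec, wd_apply, wd_apply, map_sub, map_sub, map_smul, map_smul, map_smul,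
    map_smul, LinearMap.sub_apply, LinearMap.smul_apply, LinearMap.smul_apply, h.symm u s,
    h.symm u s']
  simp only [smul_eq_mul]
  ring

lemma map_mem {κ : ι → MvPolynomial (JN ⊕ (M × JT)) ℚ}
    (hκ : F (DT ι (hA Q s s') (TT κ)) = 0) (π : ℂ →ₗ[ℚ] ℚ) :
    F (DT ι (cm ((hA Q s s').map π)) (TT κ)) = 0 := by
  have key : ∀ Z : Matrix JT JT ℂ, F (DT ι Z (TT κ)) =
      ∑ x : JT × JT, Z x.1 x.2 • F (DT ι (cm (Matrix.single x.1 x.2 1)) (TT κ)) := by
    intro Z
    have h1 : Z = ∑ x : JT × JT, Z x.1 x.2 • cm (Matrix.single x.1 x.2 1) := by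
      ext i j
      rw [Matrix.sum_apply, Finset.sum_eq_single_of_mem (i, j) (Finset.mem_univ _)]
      · simp [cm]
      · rintro ⟨k, l⟩ _ hkl
        have : ¬ (k = i ∧ l = j) := by
          rintro ⟨rfl, rfl⟩
          exact hkl rfl
        simp [cm, Matrix.single_apply, this]
    have h2 : DT ι Z (TT κ) = ∑ x : JT × JT, Z x.1 x.2 •
        DT ι (cm (Matrix.single x.1 x.2 1)) (TT κ) := by
      funext i
      rw [Finset.sum_apply, DT_apply]
      conv_lhs => rw [h1]
      rw [DX_sum]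
      rfl
    rw [h2, map_sum]
    exact Finset.sum_congr rfl fun x _ => map_smul _ _ _
  have hr : ∀ x : JT × JT, IsRt b (F (DT ι (cm (Matrix.single x.1 x.2 1)) (TT κ))) := by
    intro x
    rw [DT_TT]
    exact h.rat _
  choose r hr using hr
  apply b.repr.injective
  refine Finsupp.ext fun k => ?_
  rw [map_zero, Finsupp.zero_apply, key, map_sum, Finsupp.finsetSum_apply]
  have h1 := congrArg (fun y => π (b.repr y k)) hκ
  simp only [map_zero, Finsupp.zero_apply] at h1
  rw [key, map_sum, Finsupp.finsetSum_apply, map_sum] at h1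
  simp only [map_smul, Finsupp.smul_apply, smul_eq_mul, hr, pi_mul] at h1 ⊢
  have h2 : ∀ x : JT × JT, cm ((hA Q s s').map π) x.1 x.2 * (r x k : ℂ) =
      ((π (hA Q s s' x.1 x.2) * r x k : ℚ) : ℂ) := by
    intro x
    push_cast
    rfl
  rw [Finset.sum_congr rfl fun x _ => h2 x, ← Rat.cast_sum, h1, Rat.cast_zero]

lemma ratLie {P : ι → MvPolynomial (JN ⊕ (M × JT)) ℚ} (heta0 : eta 0 = 0)
    (hP : eta (F (TT P)) = 0) : RatLie Q s s' (lie Q F P) where
  symm := h.symm
  det := h.det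
  brk X hX Y hY := by
    refine ⟨?_, ?_, fun κ hκ => ?_⟩
    · rw [cm_sub, cm_mul, cm_mul, Matrix.transpose_sub, Matrix.transpose_mul,
        Matrix.transpose_mul, sub_mul, mul_assoc, mul_assoc, hX.1, hY.1, mul_neg, mul_neg,
        ← mul_assoc, ← mul_assoc, hX.1, hY.1, mul_sub]
      noncomm_ring
    · rw [DT_brk, map_sub]
      have h1 := hY.2.2 _ (by
        have := hX.2.1
        rwa [DT_TT] at this)
      have h2 := hX.2.2 _ (by
        have := hY.2.1
        rwa [DT_TT] at this)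
      rw [DT_TT (Y := Y), DT_TT (Y := X) (κ := P), h1, h2, sub_zero]
    · rw [DT_brk, map_sub]
      have h1 := hY.2.2 _ (by
        have := hX.2.2 κ hκ
        rwa [DT_TT] at this)
      have h2 := hX.2.2 _ (by
        have := hY.2.2 κ hκ
        rwa [DT_TT] at this)
      rw [DT_TT (Y := Y), DT_TT (Y := X) (κ := κ), h1, h2, sub_zero]
  skew X hX u v := by
    rw [em_apply, em_apply]
    exact skew_of_matrix hX.1 u v
  ss := h.ss
  ss' := h.ss'
  tau := h.tau
  irr := h.irr
  irr' := h.irr'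
  scalar := h.scalar
  mem π := by
    refine ⟨?_, ?_, fun κ hκ => ?_⟩
    · have h1 : (((hA Q s s').map π).transpose * Q) = -(Q * (hA Q s s').map π) := by
        ext i j
        have h2 := congrArg π (congrFun (congrFun h.skew_hA i) j)
        rw [Matrix.mul_apply, Matrix.neg_apply, Matrix.mul_apply, map_neg, map_sum, map_sum] at h2
        rw [Matrix.mul_apply, Matrix.neg_apply, Matrix.mul_apply]
        have h3 : ∀ k, π ((hA Q s s').transpose i k * cm Q k j) =
            ((hA Q s s').map π).transpose i k * Q k j := fun k => pi_mul π _ _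
        have h4 : ∀ k, π (cm Q i k * hA Q s s' k j) = Q i k * (hA Q s s').map π k j := by
          intro k
          rw [mul_comm, mul_comm (Q i k)]
          exact pi_mul π _ _
        rw [Finset.sum_congr rfl fun k _ => h3 k, Finset.sum_congr rfl fun k _ => h4 k] at h2
        exact h2
      have h2 := congrArg cm h1
      rw [cm_mul] at h2
      have h3 : cm (-(Q * (hA Q s s').map π)) = -(cm Q * cm ((hA Q s s').map π)) := by
        rw [cm_neg, cm_mul]
      rw [h3] at h2
      exact h2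
    · exact h.map_mem (by rw [h.eta_F, hP]) π
    · exact h.map_mem (by rw [h.eta_F, hκ, heta0]) π

/-- The space of the evident relations. -/
noncomputable def rel (F : (ι → MvPolynomial (JN ⊕ (M × JT)) ℂ) →ₗ[ℂ] B) (N : ℕ) :
    Submodule ℂ (ι → MvPolynomial (JN ⊕ (M × JT)) ℂ) :=
  Submodule.span ℂ {y | ∃ κ, TT κ = y ∧ F (TT κ) = 0 ∧ ∀ i, Bd N (TT κ i)}

omit h in
lemma rel_le (N : ℕ) : rel F N ≤ LinearMap.ker F := by
  rw [rel, Submodule.span_le]
  rintro _ ⟨κ, rfl, hκ, -⟩
  exact hκ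

omit h in
lemma rel_bd {N : ℕ} {κ : ι → MvPolynomial (JN ⊕ (M × JT)) ℂ} (hκ : κ ∈ rel F N) (i : ι) :
    Bd N (κ i) := by
  unfold rel at hκ
  induction hκ using Submodule.span_induction with
  | mem y hy =>
    obtain ⟨κ, rfl, -, hκ⟩ := hy
    exact hκ i
  | zero => exact fun α _ => coeff_zero α
  | add x y _ _ hx hy => exact hx.add hy
  | smul c x _ hx => exact hx.smul c

omit h in
lemma rel_finite (N : ℕ) : FiniteDimensional ℂ (rel F N) := by
  have h1 : rel F N ≤ LinearMap.range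
      ((restrictTotalDegree (JN ⊕ (M × JT)) ℂ N).subtype.compLeft ι) := by
    intro κ hκ
    have h2 : ∀ i, κ i ∈ restrictTotalDegree (JN ⊕ (M × JT)) ℂ N := by
      intro i
      rw [mem_restrictTotalDegree]
      refine Finset.sup_le fun α hα => ?_
      by_contra hlt
      exact mem_support_iff.1 hα (rel_bd hκ i α (by
        have h2 : (α.sum fun _ e => e) = α.degree := rfl
        omega))
    exact ⟨fun i => ⟨κ i, h2 i⟩, rfl⟩
  exact Submodule.finiteDimensional_of_le h1

/-- The Lie algebra preserves the relations. -/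
lemma lie_rel {P : ι → MvPolynomial (JN ⊕ (M × JT)) ℚ} {N : ℕ} (hN : ∀ i, Bd N (TT P i))
    {f : Module.End ℂ (JT → ℂ)} (hf : f ∈ cg (lie Q F P)) :
    DT ι (LinearMap.toMatrix' f) (TT P) ∈ rel F N ∧
      ∀ y ∈ rel F N, DT ι (LinearMap.toMatrix' f) y ∈ rel F N := by
  unfold cg at hf
  induction hf using Submodule.span_induction with
  | mem f hf =>
    obtain ⟨Y, hY, rfl⟩ := hf
    have h1 : LinearMap.toMatrix' (em Y) = cm Y := LinearMap.toMatrix'_toLin' _
    rw [h1]
    constructor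
    · have h2 := hY.2.1
      rw [DT_TT] at h2 ⊢
      refine Submodule.subset_span ⟨_, rfl, h2, fun i => ?_⟩
      have h3 := (hN i).DX (cm Y)
      rw [← DT_apply (ι := ι) (cm Y) (TT P), DT_TT] at h3
      exact h3
    · intro y hy
      unfold rel at hy
      induction hy using Submodule.span_induction with
      | mem y hy =>
        obtain ⟨κ, rfl, hκ, hκN⟩ := hy
        have h2 := hY.2.2 κ hκ
        rw [DT_TT] at h2 ⊢
        refine Submodule.subset_span ⟨_, rfl, h2, fun i => ?_⟩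
        have h3 := (hκN i).DX (cm Y)
        rw [← DT_apply (ι := ι) (cm Y) (TT κ), DT_TT] at h3
        exact h3
      | zero => rw [map_zero]; exact Submodule.zero_mem _
      | add a b _ _ ha hb => rw [map_add]; exact Submodule.add_mem _ ha hb
      | smul c a _ ha => rw [map_smul]; exact Submodule.smul_mem _ _ ha
  | zero =>
    have h1 : ∀ κ : ι → MvPolynomial (JN ⊕ (M × JT)) ℂ,
        DT ι (LinearMap.toMatrix' (0 : Module.End ℂ (JT → ℂ))) κ = 0 := by
      intro κ
      rw [map_zero]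
      have := DT_smul 0 0 κ
      rwa [zero_smul, zero_smul] at this
    exact ⟨by rw [h1]; exact Submodule.zero_mem _, fun y _ => by
      rw [h1]; exact Submodule.zero_mem _⟩
  | add f g _ _ hf hg =>
    rw [map_add]
    exact ⟨by rw [DT_add]; exact Submodule.add_mem _ hf.1 hg.1, fun y hy => by
      rw [DT_add]; exact Submodule.add_mem _ (hf.2 y hy) (hg.2 y hy)⟩
  | smul c f _ hf =>
    rw [map_smul]
    exact ⟨by rw [DT_smul]; exact Submodule.smul_mem _ _ hf.1, fun y hy => by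
      rw [DT_smul]; exact Submodule.smul_mem _ _ (hf.2 y hy)⟩

/-- **Hodge classes.** The rational vectors which are killed by the Hodge operator come from the
evident invariants. -/
theorem exists_inv (hM : Fintype.card M < Fintype.card JT) (heta0 : eta 0 = 0) {x : B}
    (hx : IsRt b x) (hxe : eta x = 0) (hxF : x ∈ LinearMap.range F) :
    ∃ T : ι → MvPolynomial (JN ⊕ (M × JT)) ℂ, (∀ i, T i ∈ AlgQ JN M Q) ∧ F T = x := by
  obtain ⟨P, hP⟩ := h.exists_rat hx hxF
  have z := h.ratLie (P := P) heta0 (by rw [hP, hxe])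
  obtain ⟨g, hg⟩ := exists_orthonormal Q h.symm h.det
  obtain ⟨h', hh'⟩ : ∃ h' : Matrix JT JT ℂ, h' = g.transpose * cm Q := ⟨_, rfl⟩
  have hg' : g * h' = 1 := by
    rw [hh']
    exact mul_eq_one_comm.1 hg
  -- the degree bound
  have hN : ∃ N, ∀ i, Bd N (TT P i) := by
    choose n hn using fun i => exists_Bd (TT P i)
    exact ⟨Finset.univ.sup n, fun i => (hn i).mono (Finset.le_sup (Finset.mem_univ i))⟩
  obtain ⟨N, hN⟩ := hN
  -- the rotations
  have hrot : ∀ (a b : JT) (P : MvPolynomial (JN ⊕ (M × JT)) ℂ), rot a b (sub h' P) =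
      sub h' (DX (LinearMap.toMatrix' (wd (bQ Q) (fun i => g i b) fun i => g i a)) P) := by
    intro a b P
    rw [rot_eq]
    symm
    apply sub_DX
    apply Matrix.toLin'.injective
    refine LinearMap.ext fun v => ?_
    rw [Matrix.toLin'_mul, Matrix.toLin'_mul, LinearMap.comp_apply, LinearMap.comp_apply,
      Matrix.toLin'_toMatrix', wd_apply, map_sub, map_smul, map_smul]
    have e1 : ∀ c, Matrix.toLin' h' (fun i => g i c) = Pi.single c 1 := by
      intro c
      rw [Matrix.toLin'_apply]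
      have h2 : (fun i => g i c) = g.mulVec (Pi.single c 1) := by
        rw [Matrix.mulVec_single_one]
        rfl
      rw [h2, Matrix.mulVec_mulVec, hh', hg, Matrix.one_mulVec]
    have e2 : ∀ c, (Matrix.toLin' h' v) c = bQ Q (fun i => g i c) v := by
      intro c
      rw [Matrix.toLin'_apply, hh', ← Matrix.mulVec_mulVec, bQ_apply]
      rfl
    rw [e1, e1, ← e2, ← e2]
    generalize Matrix.toLin' h' v = y
    rw [map_sub, LinearMap.sub_apply, Matrix.toLin'_apply, Matrix.toLin'_apply]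
    have e3 : ∀ c d : JT, (Matrix.single c d (1 : ℂ)).mulVec y = y d • Pi.single c 1 := by
      intro c d
      funext k
      rw [Matrix.mulVec, dotProduct, Finset.sum_eq_single_of_mem d (Finset.mem_univ d)]
      · by_cases hk : k = c
        · subst hk
          simp [Matrix.single_apply]
        · simp [Matrix.single_apply, hk, Ne.symm hk]
      · intro l _ hl
        simp [Matrix.single_apply, Ne.symm hl]
    rw [e3, e3]
  -- lifting of the invariants
  have := rel_finite (F := F) N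
  let Λ : (ι → MvPolynomial (JN ⊕ (M × JT)) ℂ) →ₗ[ℂ] (ι → MvPolynomial (JN ⊕ (M × JT)) ℂ) :=
    (sub (JN := JN) (M := M) h').toLinearMap.compLeft ι
  let D : JT × JT → (ι → MvPolynomial (JN ⊕ (M × JT)) ℂ) →ₗ[ℂ]
      (ι → MvPolynomial (JN ⊕ (M × JT)) ℂ) := fun x =>
    (rot (ν := JN) (M := M) x.1 x.2).toLinearMap.compLeft ι
  have hDΛ : ∀ (x : JT × JT) κ, D x (Λ κ) =
      Λ (DT ι (LinearMap.toMatrix' (wd (bQ Q) (fun i => g i x.2) fun i => g i x.1)) κ) := by
    intro x κ
    funext i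
    exact hrot x.1 x.2 (κ i)
  obtain ⟨k, hk, hk0⟩ := ((fischer (JN ⊕ (M × JT))).pi ι).exists_invariant D (fun x P P' => by
    rw [Herm.pi_apply, Herm.pi_apply, ← Finset.sum_neg_distrib]
    exact Finset.sum_congr rfl fun i _ => h_rot x.1 x.2 (P i) (P' i)) ((rel F N).map Λ)
    (by
      rintro x _ ⟨κ, hκ, rfl⟩
      rw [hDΛ]
      exact ⟨_, (h.lie_rel hN (z.wd_mem _ _)).2 κ hκ, rfl⟩) (x := Λ (TT P)) (by
      intro x
      rw [hDΛ]
      exact ⟨_, (h.lie_rel hN (z.wd_mem _ _)).1, rfl⟩)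
  obtain ⟨κ, hκ, rfl⟩ := hk
  have hinv : ∀ i, sub h' (TT P i - κ i) ∈ Alg JN M JT := by
    intro i
    refine fft hM ?_
    rw [isInv_iff]
    intro a b
    have h1 := congrFun (hk0 (a, b)) i
    rw [← map_sub] at h1
    exact h1
  refine ⟨fun i => sub g (sub h' (TT P i - κ i)), fun i => sub_alg h.det hg (hinv i), ?_⟩
  have h1 : (fun i => sub g (sub h' (TT P i - κ i))) = TT P - κ := by
    funext i
    exact sub_sub g h' hg' _
  rw [h1, map_sub, hP, LinearMap.mem_ker.1 (rel_le N hκ), sub_zero]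

end Setup

end Run7.h158.Hdg
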