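import Pool.Agent.Q8.HK.Unip
import Pool.Agent.Run7.h158.Hdg.Basis
import Pool.Agent.Run7.h158.Hdg.Main

/-!
# The second cohomology of hyper-Kähler varieties: adapted bases and Hodge endomorphisms
-/

set_option autoImplicit false
set_option linter.unusedSectionVars false

namespace Run7.h158.Hdg

open Pool.Agent.Q8.HK

variable {n : ℕ} {A V : Type} [Ring A] [Algebra ℂ A] [AddCommGroup V] [Module ℂ V]

section basis

variable (K : Coh n A V)

/-- The indices of the basis vectors of degree two. -/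
def J2 : Type := {j : Fin K.m // K.d j = 2}

instance : Fintype (J2 K) := by unfold J2; infer_instance

instance : DecidableEq (J2 K) := by unfold J2; infer_instance

/-- The coordinates. -/
noncomputable def coordL : V →ₗ[ℂ] (J2 K → ℂ) :=
  LinearMap.pi fun j => (K.b.coord j.1) ∘ₗ K.i

lemma coordL_apply (v : V) (j : J2 K) : coordL K v j = K.b.repr (K.i v) j.1 := rfl

lemma coordL_bij : Function.Bijective (coordL K) := by
  constructor
  · intro v w h
    apply K.i_inj
    apply K.b.repr.injective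
    refine Finsupp.ext fun j => ?_
    by_cases hj : K.d j = 2
    · exact congrFun h ⟨j, hj⟩
    · rw [(K.i_range (K.i v)).2 ⟨v, rfl⟩ j hj, (K.i_range (K.i w)).2 ⟨w, rfl⟩ j hj]
  · intro x
    obtain ⟨v, hv⟩ := (K.i_range (∑ j : J2 K, x j • K.b j.1)).1 (by
      intro k hk
      rw [map_sum, Finsupp.finsetSum_apply]
      refine Finset.sum_eq_zero fun j _ => ?_
      rw [map_smul, Module.Basis.repr_self, Finsupp.smul_apply,
        Finsupp.single_eq_of_ne (fun h => hk (by rw [h]; exact j.2)), smul_zero])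
    refine ⟨v, funext fun k => ?_⟩
    rw [coordL_apply, hv, map_sum, Finsupp.finsetSum_apply,
      Finset.sum_eq_single_of_mem k (Finset.mem_univ k)]
    · simp
    · intro j _ hj
      rw [map_smul, Module.Basis.repr_self, Finsupp.smul_apply,
        Finsupp.single_eq_of_ne (fun h => hj (Subtype.ext h.symm)), smul_zero]

/-- The rational basis of the second cohomology. -/
noncomputable def e2 : Module.Basis (J2 K) ℂ V :=
  Module.Basis.ofEquivFun (LinearEquiv.ofBijective (coordL K) (coordL_bij K))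

lemma e2_repr (v : V) (j : J2 K) : (e2 K).repr v j = K.b.repr (K.i v) j.1 := rfl

lemma rat_iff (v : V) : IsRat K.b (K.i v) ↔ ∃ w, wr (e2 K) w = v := by
  constructor
  · intro h
    choose r hr using h
    refine ⟨fun j => r j.1, ?_⟩
    apply (e2 K).repr.injective
    refine Finsupp.ext fun j => ?_
    rw [wr_repr, e2_repr, hr]
  · rintro ⟨w, rfl⟩ j
    by_cases hj : K.d j = 2
    · exact ⟨w ⟨j, hj⟩, wr_repr (e2 K) w ⟨j, hj⟩⟩
    · exact ⟨0, by rw [(K.i_range _).2 ⟨_, rfl⟩ j hj, Rat.cast_zero]⟩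

lemma exists_gram : ∃ G : J2 K → J2 K → ℚ, ∀ j k, K.q (e2 K j) (e2 K k) = G j k := by
  have h : ∀ j, IsRat K.b (K.i (e2 K j)) := fun j => (rat_iff K _).2 ⟨_, wr_single (e2 K) j⟩
  choose G hG using fun j k => K.q_rat _ _ (h j) (h k)
  exact ⟨G, hG⟩

/-- The algebraic part. -/
noncomputable def NQ : Submodule ℚ (J2 K → ℚ) where
  carrier := {w | K.q (wr (e2 K) w) K.s = 0 ∧ K.q (wr (e2 K) w) K.s' = 0}
  add_mem' := by
    rintro w w' ⟨h1, h2⟩ ⟨h3, h4⟩
    constructor
    · rw [wr_add, map_add, LinearMap.add_apply, h1, h3, add_zero]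
    · rw [wr_add, map_add, LinearMap.add_apply, h2, h4, add_zero]
  zero_mem' := by
    constructor
    · rw [wr_zero, map_zero, LinearMap.zero_apply]
    · rw [wr_zero, map_zero, LinearMap.zero_apply]
  smul_mem' := by
    rintro r w ⟨h1, h2⟩
    constructor
    · rw [wr_smul, map_smul, LinearMap.smul_apply, h1, smul_zero]
    · rw [wr_smul, map_smul, LinearMap.smul_apply, h2, smul_zero]

/-- The existence of adapted bases. -/
theorem exists_adp_coh : ∃ (JN JT : Type) (_ : Fintype JN) (_ : Fintype JT) (_ : DecidableEq JN)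
    (_ : DecidableEq JT), Nonempty (Adp K.q (fun v => IsRat K.b (K.i v)) K.NS JN JT) := by
  obtain ⟨G, hG⟩ := exists_gram K
  have h := exists_adp (e2 K) K.q K.q_symm K.q_nondeg hG (NQ K) (by
    intro w hw h
    have h1 : wr (e2 K) w = 0 := by
      refine K.index _ ((rat_iff K _).2 ⟨w, rfl⟩) hw.1 hw.2 ?_ (h w hw)
      obtain ⟨wl, hwl⟩ := (rat_iff K K.l).1 K.l_rat
      rw [K.q_symm, ← hwl]
      exact h wl ⟨by rw [hwl]; exact K.l_s, by rw [hwl]; exact K.l_s'⟩
    rw [← wr_zero (e2 K)] at h1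
    exact wr_injective _ h1)
  have e1 : (fun v => ∃ w, wr (e2 K) w = v) = fun v => IsRat K.b (K.i v) :=
    funext fun v => propext (rat_iff K v).symm
  have e2' : (fun v => ∃ w ∈ NQ K, wr (e2 K) w = v) = K.NS := by
    funext v
    apply propext
    constructor
    · rintro ⟨w, hw, rfl⟩
      exact ⟨(rat_iff K _).2 ⟨w, rfl⟩, hw.1, hw.2⟩
    · rintro ⟨h1, h2, h3⟩
      obtain ⟨w, rfl⟩ := (rat_iff K _).1 h1
      exact ⟨w, ⟨h2, h3⟩, rfl⟩
  rw [e1, e2'] at h
  exact h

/-- The class `s'` is the complex conjugate of the class `s`. -/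
def IsConj : Prop := ∀ j, K.b.repr (K.i K.s') j = (starRingEnd ℂ) (K.b.repr (K.i K.s) j)

variable {K}

lemma q_conj (hc : IsConj K) {v : V} (hv : IsRat K.b (K.i v)) :
    K.q v K.s' = (starRingEnd ℂ) (K.q v K.s) := by
  have h : ∀ j, ∃ r : ℚ, K.q v (e2 K j) = r := fun j =>
    K.q_rat _ _ hv ((rat_iff K _).2 ⟨_, wr_single (e2 K) j⟩)
  choose r hr using h
  have key : ∀ x : V, K.q v x = ∑ j, K.b.repr (K.i x) j.1 * (r j : ℂ) := by
    intro x
    conv_lhs => rw [← (e2 K).sum_repr x]
    rw [map_sum]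
    refine Finset.sum_congr rfl fun j _ => ?_
    rw [map_smul, smul_eq_mul, hr, e2_repr]
  rw [key, key, map_sum]
  refine Finset.sum_congr rfl fun j _ => ?_
  rw [map_mul, hc]
  congr 1
  exact (map_ratCast (starRingEnd ℂ) (r j)).symm

end basis

section adp

variable {K : Coh n A V} {JN JT : Type} [Fintype JN] [Fintype JT] [DecidableEq JN]
  [DecidableEq JT] (P : Adp K.q (fun v => IsRat K.b (K.i v)) K.NS JN JT)

/-- The transcendental class with given coordinates. -/
noncomputable def tv (P : Adp K.q (fun v => IsRat K.b (K.i v)) K.NS JN JT) :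
    (JT → ℂ) →ₗ[ℂ] V := Fintype.linearCombination ℂ fun a => P.B (Sum.inr a)

lemma tv_apply (x : JT → ℂ) : tv P x = ∑ a, x a • P.B (Sum.inr a) := rfl

lemma tv_single (a : JT) : tv P (Pi.single a 1) = P.B (Sum.inr a) := by
  rw [tv_apply, Finset.sum_eq_single_of_mem a (Finset.mem_univ a)]
  · simp
  · intro b _ hb
    simp [Pi.single_eq_of_ne hb]

lemma tv_repr (x : JT → ℂ) (a : JT) : P.B.repr (tv P x) (Sum.inr a) = x a := by
  rw [tv_apply, map_sum, Finsupp.finsetSum_apply, Finset.sum_eq_single_of_mem a (Finset.mem_univ a)]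
  · simp
  · intro b _ hb
    rw [map_smul, Module.Basis.repr_self, Finsupp.smul_apply, Finsupp.single_eq_of_ne (by
      simpa using Ne.symm hb), smul_zero]

lemma tv_inj : Function.Injective (tv P) := by
  intro x y h
  funext a
  rw [← tv_repr P x, h, tv_repr]

lemma bQ_tv (x y : JT → ℂ) : bQ P.Q x y = K.q (tv P x) (tv P y) := by
  rw [bQ_apply, dotProduct, tv_apply, map_sum, LinearMap.sum_apply]
  refine Finset.sum_congr rfl fun a _ => ?_
  rw [map_smul, LinearMap.smul_apply, tv_apply, map_sum, Matrix.mulVec, dotProduct, smul_eq_mul]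
  congr 1
  refine Finset.sum_congr rfl fun b _ => ?_
  rw [map_smul, P.gram, smul_eq_mul, mul_comm]
  rfl

/-- The transcendental part. -/
def Tr (K : Coh n A V) : Submodule ℂ V where
  carrier := {v | ∀ w, K.NS w → K.q v w = 0}
  add_mem' := by
    intro v v' h1 h2 w hw
    rw [map_add, LinearMap.add_apply, h1 w hw, h2 w hw, add_zero]
  zero_mem' := by
    intro w _
    rw [map_zero, LinearMap.zero_apply]
  smul_mem' := by
    intro c v h w hw
    rw [map_smul, LinearMap.smul_apply, h w hw, smul_zero]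

include P in
lemma ns_expand {w : V} (hw : K.NS w) : w = ∑ c, P.B.repr w (Sum.inl c) • P.B (Sum.inl c) := by
  conv_lhs => rw [← P.B.sum_repr w, Fintype.sum_sum_type]
  have h1 := P.ns_inr w hw
  simp only [h1, zero_smul, Finset.sum_const_zero, add_zero]

lemma tv_mem (x : JT → ℂ) : tv P x ∈ Tr K := by
  intro w hw
  rw [ns_expand P hw, map_sum]
  refine Finset.sum_eq_zero fun c _ => ?_
  rw [map_smul, tv_apply, map_sum, LinearMap.sum_apply, Finset.sum_eq_zero, smul_zero]
  intro a _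
  rw [map_smul, LinearMap.smul_apply, K.q_symm, P.orth, smul_zero]

lemma tr_expand {v : V} (hv : v ∈ Tr K) : tv P (fun a => P.B.repr v (Sum.inr a)) = v := by
  conv_rhs => rw [← P.B.sum_repr v, Fintype.sum_sum_type]
  have h1 := P.tr_inl v hv
  simp only [h1, zero_smul, Finset.sum_const_zero, zero_add]
  rfl

include P in
lemma finrank_Tr : Module.finrank ℂ (Tr K) = Fintype.card JT := by
  have h1 : LinearMap.range (tv P) = Tr K := by
    ext v
    constructor
    · rintro ⟨x, rfl⟩
      exact tv_mem P x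
    · intro hv
      exact ⟨_, tr_expand P hv⟩
  rw [← h1, LinearMap.finrank_range_of_inj (tv_inj P), Module.finrank_fintype_fun_eq_card]

lemma s_mem : K.s ∈ Tr K := fun w hw => by rw [K.q_symm]; exact hw.2.1

lemma s'_mem : K.s' ∈ Tr K := fun w hw => by rw [K.q_symm]; exact hw.2.2

/-- The coordinates of the symplectic form. -/
noncomputable def sT (P : Adp K.q (fun v => IsRat K.b (K.i v)) K.NS JN JT) : JT → ℂ :=
  fun a => P.B.repr K.s (Sum.inr a)

/-- The coordinates of its conjugate. -/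
noncomputable def sT' (P : Adp K.q (fun v => IsRat K.b (K.i v)) K.NS JN JT) : JT → ℂ :=
  fun a => P.B.repr K.s' (Sum.inr a)

lemma tv_s : tv P (sT P) = K.s := tr_expand P s_mem

lemma tv_s' : tv P (sT' P) = K.s' := tr_expand P s'_mem

lemma rat_add {x y : V} (hx : IsRat K.b (K.i x)) (hy : IsRat K.b (K.i y)) :
    IsRat K.b (K.i (x + y)) := by
  intro j
  obtain ⟨r, hr⟩ := hx j
  obtain ⟨r', hr'⟩ := hy j
  exact ⟨r + r', by rw [map_add, map_add, Finsupp.add_apply, hr, hr', Rat.cast_add]⟩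

lemma rat_smul {x : V} (hx : IsRat K.b (K.i x)) (r : ℚ) : IsRat K.b (K.i ((r : ℂ) • x)) := by
  intro j
  obtain ⟨r', hr'⟩ := hx j
  exact ⟨r * r', by rw [map_smul, map_smul, Finsupp.smul_apply, hr', smul_eq_mul, Rat.cast_mul]⟩

lemma rat_zero : IsRat K.b (K.i (0 : V)) := fun j => ⟨0, by simp⟩

include P in
lemma rat_of_coord {v : V} (h : ∀ k, ∃ r : ℚ, P.B.repr v k = r) : IsRat K.b (K.i v) := by
  rw [← P.B.sum_repr v]
  refine Finset.sum_induction _ (fun v => IsRat K.b (K.i v)) (fun a b ha hb => rat_add ha hb)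
    rat_zero fun k _ => ?_
  obtain ⟨r, hr⟩ := h k
  rw [hr]
  refine rat_smul ?_ r
  rcases k with c | a
  · exact (P.ns c).1
  · exact P.rt a

lemma rat_tv (x : JT → ℚ) : IsRat K.b (K.i (tv P (cv x))) := by
  refine Finset.sum_induction _ (fun v => IsRat K.b (K.i v)) (fun a b ha hb => rat_add ha hb)
    rat_zero fun a _ => ?_
  exact rat_smul (P.rt a) (x a)

lemma ns_tv {x : JT → ℚ} (h1 : K.q (tv P (cv x)) K.s = 0) (h2 : K.q (tv P (cv x)) K.s' = 0) :
    x = 0 := by
  have h3 : K.NS (tv P (cv x)) := ⟨rat_tv P x, h1, h2⟩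
  funext a
  have h4 := P.ns_inr _ h3 a
  rw [tv_repr] at h4
  exact (algebraMap ℚ ℂ).injective (h4.trans (map_zero _).symm)

/-- The Hodge operator on the second cohomology. -/
noncomputable def g0 (K : Coh n A V) : Module.End ℂ V := wd K.q K.s' K.s

lemma g0_apply (v : V) : g0 K v = K.q K.s' v • K.s - K.q K.s v • K.s' := rfl

lemma g0_tv (x : JT → ℂ) : g0 K (tv P x) = tv P ((hA P.Q (sT P) (sT' P)).mulVec x) := by
  rw [hA_mulVec, wd_apply, map_sub, map_smul, map_smul, tv_s, tv_s', g0_apply, bQ_tv, bQ_tv, tv_s,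
    tv_s']

lemma g0_ns {v : V} (hv : K.NS v) : g0 K v = 0 := by
  rw [g0_apply, K.q_symm, hv.2.2, K.q_symm, hv.2.1, zero_smul, zero_smul, sub_zero]

/-- The endomorphisms of the Hodge structure of the second cohomology act as scalars on the
transcendental part. -/
def ScalarEnd (K : Coh n A V) : Prop :=
  ∀ f : V →ₗ[ℂ] V, (∀ v, IsRat K.b (K.i v) → IsRat K.b (K.i (f v))) →
    (∀ v, f (g0 K v) = g0 K (f v)) → ∃ c : ℚ, ∀ v ∈ Tr K, f v = (c : ℂ) • v

lemma scalar_of (hE : ScalarEnd K) (Z : Matrix JT JT ℚ)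
    (hZ : cm Z * hA P.Q (sT P) (sT' P) = hA P.Q (sT P) (sT' P) * cm Z) : ∃ c : ℚ, Z = c • 1 := by
  let f : V →ₗ[ℂ] V := P.B.constr ℂ (Sum.elim (fun _ => 0) fun a =>
    tv P ((cm Z).mulVec (Pi.single a 1)))
  have hf1 : ∀ c, f (P.B (Sum.inl c)) = 0 := fun c => by
    rw [Module.Basis.constr_basis]
    rfl
  have hf2 : ∀ a, f (P.B (Sum.inr a)) = tv P ((cm Z).mulVec (Pi.single a 1)) := fun a => by
    rw [Module.Basis.constr_basis]
    rfl
  have hf3 : ∀ x, f (tv P x) = tv P ((cm Z).mulVec x) := by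
    intro x
    have h1 : f ∘ₗ tv P = tv P ∘ₗ Matrix.mulVecLin (cm Z) := by
      refine LinearMap.pi_ext' fun a => LinearMap.ext_ring ?_
      rw [LinearMap.comp_apply, LinearMap.comp_apply, LinearMap.comp_apply, LinearMap.comp_apply,
        Matrix.mulVecLin_apply, LinearMap.single_apply, tv_single, hf2]
    exact LinearMap.congr_fun h1 x
  have hf4 : ∀ v, f v = tv P ((cm Z).mulVec fun a => P.B.repr v (Sum.inr a)) := by
    intro v
    rw [← hf3]
    conv_lhs => rw [← P.B.sum_repr v, Fintype.sum_sum_type]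
    rw [map_add, map_sum]
    simp only [map_smul, hf1, smul_zero, Finset.sum_const_zero, zero_add]
    rfl
  obtain ⟨c, hc⟩ := hE f (fun v hv => by
    choose r hr using P.coord v hv
    rw [hf4]
    have h1 : (fun a => P.B.repr v (Sum.inr a)) = cv fun a => r (Sum.inr a) := by
      funext a
      rw [hr]
      rfl
    rw [h1, cm_mulVec]
    exact rat_tv P _) (fun v => by
    have h1 : f ∘ₗ g0 K = g0 K ∘ₗ f := by
      refine P.B.ext fun k => ?_
      rcases k with c | a
      · rw [LinearMap.comp_apply, LinearMap.comp_apply, g0_ns (P.ns c), hf1, map_zero, map_zero]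
      · rw [LinearMap.comp_apply, LinearMap.comp_apply, ← tv_single, g0_tv, hf3, hf3, g0_tv,
          Matrix.mulVec_mulVec, Matrix.mulVec_mulVec, hZ]
    exact LinearMap.congr_fun h1 v)
  refine ⟨c, ?_⟩
  apply cm_injective
  ext a b
  have h1 := hc _ (tv_mem P (Pi.single b 1))
  rw [hf3, ← map_smul] at h1
  have h2 := congrFun (tv_inj P h1) a
  rw [Matrix.mulVec_single_one, Pi.smul_apply, smul_eq_mul] at h2
  rw [cm_smul, Matrix.smul_apply, cm_one, smul_eq_mul]
  have h3 : (cm Z) a b = (c : ℂ) * (Pi.single b (1 : ℂ) : JT → ℂ) a := h2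
  rw [h3, Matrix.one_apply, Pi.single_apply]

end adp

end Run7.h158.Hdg
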