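import Mathlib
import Pool.Agent.Run7.h158.Hdg.Alg

/-!
# Polarisation of the Fujiki relation, evaluation of polynomials
-/

set_option autoImplicit false
set_option linter.unusedSectionVars false

open Polynomial

namespace Run7.h158.Hdg

variable {A V : Type} [Ring A] [Algebra ℂ A] [AddCommGroup V] [Module ℂ V]

/-- The first derivative of `tr ((y + b v) ^ N)`. -/
lemma lin1 (tr : A →ₗ[ℂ] ℂ) {y v : A} (hc : Commute y v) {N : ℕ} (hN : 0 < N) (R : ℂ[X])
    (h : ∀ b : ℂ, tr ((y + b • v) ^ N) = R.eval b) :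
    (N : ℂ) * tr (y ^ (N - 1) * v) = R.derivative.eval 0 := by
  let P : ℂ[X] := ∑ m ∈ Finset.range (N + 1),
    monomial (N - m) ((N.choose m : ℂ) * tr (y ^ m * v ^ (N - m)))
  have hP : ∀ b, P.eval b = R.eval b := by
    intro b
    rw [← h b, (hc.smul_right b).add_pow, map_sum, eval_finsetSum]
    refine Finset.sum_congr rfl fun m _ => ?_
    have h1 : tr (y ^ m * v ^ (N - m) * (N.choose m : A)) =
        (N.choose m : ℂ) * tr (y ^ m * v ^ (N - m)) := by
      rw [← Nat.cast_comm, ← nsmul_eq_mul, map_nsmul, nsmul_eq_mul]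
    rw [eval_monomial, _root_.smul_pow, mul_smul_comm, smul_mul_assoc, map_smul, h1, smul_eq_mul]
    ring
  have hPR : P = R := Polynomial.funext hP
  rw [← hPR, ← coeff_zero_eq_eval_zero, coeff_derivative]
  have h1 : P.coeff (0 + 1) = (N : ℂ) * tr (y ^ (N - 1) * v) := by
    simp only [P, finsetSum_coeff, coeff_monomial]
    rw [Finset.sum_eq_single_of_mem (N - 1) (Finset.mem_range.2 (by omega))]
    · rw [if_pos (by omega)]
      have h2 : N - (N - 1) = 1 := by omega
      rw [h2, pow_one, Nat.choose_symm_of_eq_add (by omega : N = (N - 1) + 1), Nat.choose_one_right]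
    · intro m hm hne
      rw [Finset.mem_range] at hm
      rw [if_neg (by omega)]
  rw [h1]
  simp

variable (tr : A →ₗ[ℂ] ℂ) (i : V →ₗ[ℂ] A) (hi : ∀ u v, i u * i v = i v * i u)
  (q : V →ₗ[ℂ] V →ₗ[ℂ] ℂ) (hq : ∀ u v, q u v = q v u) {c : ℂ} {n : ℕ} (hn : 0 < n)
  (hf : ∀ x, tr (i x ^ (2 * n)) = c * q x x ^ n)

include hi hq hn hf

/-- The Fujiki relation for `∫ y^(2n-1) v`. -/
lemma fuj1 (y v : V) : tr (i y ^ (2 * n - 1) * i v) = c * q y y ^ (n - 1) * q y v := by
  let R : ℂ[X] := Polynomial.C c * (Polynomial.C (q y y) + Polynomial.C (2 * q y v) * Polynomial.X +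
    Polynomial.C (q v v) * Polynomial.X ^ 2) ^ n
  have h := lin1 tr (hi y v) (N := 2 * n) (by omega) R (fun b => by
    rw [← map_smul, ← map_add, hf]
    simp only [R, eval_mul, eval_C, eval_pow, eval_add, eval_X, map_add, map_smul,
      LinearMap.add_apply, LinearMap.smul_apply, smul_eq_mul]
    rw [hq v y]
    ring)
  have h2 : R.derivative.eval 0 = c * (n * q y y ^ (n - 1) * (2 * q y v)) := by
    simp only [R, derivative_mul, derivative_C, derivative_pow, derivative_add, derivative_X,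
      eval_mul, eval_add, eval_C, eval_pow, eval_X]
    simp
  rw [h2] at h
  have hn0 : (n : ℂ) ≠ 0 := by exact_mod_cast hn.ne'
  have h3 : (2 * n : ℂ) * tr (i y ^ (2 * n - 1) * i v) =
      (2 * n : ℂ) * (c * q y y ^ (n - 1) * q y v) := by
    have h4 : ((2 * n : ℕ) : ℂ) = 2 * n := by push_cast; ring
    rw [h4] at h
    rw [h]
    ring
  exact mul_left_cancel₀ (mul_ne_zero two_ne_zero hn0) h3

/-- The Fujiki relation for `∫ x^(2n-2) u v`, where `q(x, u) = 0`. -/
lemma fuj2 {x u : V} (hxu : q x u = 0) (v : V) :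
    ((2 * n - 1 : ℕ) : ℂ) * tr (i x ^ (2 * n - 2) * i u * i v) = c * q x x ^ (n - 1) * q u v := by
  let R : ℂ[X] := Polynomial.C c * (Polynomial.C (q x x) +
    Polynomial.C (q u u) * Polynomial.X ^ 2) ^ (n - 1) * (Polynomial.C (q x v) +
    Polynomial.C (q u v) * Polynomial.X)
  have h := lin1 (tr ∘ₗ LinearMap.mulRight ℂ (i v)) (hi x u) (N := 2 * n - 1) (by omega) R
    (fun b => by
      rw [← map_smul, ← map_add, LinearMap.comp_apply, LinearMap.mulRight_apply,
        fuj1 tr i hi q hq hn hf]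
      simp only [R, eval_mul, eval_C, eval_pow, eval_add, eval_X, map_add, map_smul,
        LinearMap.add_apply, LinearMap.smul_apply, smul_eq_mul]
      rw [hq u x, hxu]
      ring)
  have h2 : R.derivative.eval 0 = c * q x x ^ (n - 1) * q u v := by
    simp only [R, derivative_mul, derivative_C, derivative_pow, derivative_add, derivative_X,
      eval_mul, eval_add, eval_C, eval_pow, eval_X]
    simp
  rw [h2] at h
  rw [← h, LinearMap.comp_apply, LinearMap.mulRight_apply]
  rfl

omit hi hq hn hf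

/-- Evaluation of polynomials at commuting elements. -/
theorem exists_psi {σ : Type} (y : σ → A) (hy : ∀ i j, y i * y j = y j * y i) :
    ∃ Ψ : MvPolynomial σ ℂ →ₐ[ℂ] A, ∀ i, Ψ (MvPolynomial.X i) = y i := by
  let S : Subalgebra ℂ A := Algebra.adjoin ℂ (Set.range y)
  let _ : CommRing S :=
    { (inferInstance : Ring S) with
      mul_comm := (Algebra.isMulCommutative_adjoin ℂ (s := Set.range y) (by
        rintro _ ⟨i, rfl⟩ _ ⟨j, rfl⟩
        exact hy i j)).is_comm.comm }
  let y' : σ → S := fun i => ⟨y i, Algebra.subset_adjoin ⟨i, rfl⟩⟩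
  refine ⟨S.val.comp (MvPolynomial.aeval y'), fun i => ?_⟩
  rw [AlgHom.comp_apply, MvPolynomial.aeval_X]
  rfl

end Run7.h158.Hdg
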