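import Pool.Agent.Run7.h158.Std.Geo
import Pool.Agent.Run7.h158.Hdg.Poly

/-!
# Correspondences of codimension two
-/

open CategoryTheory AlgebraicGeometry

namespace Run7.h158.Hdg

open Pool.Agent.H914 Pool.Agent.H914.VarClass Pool.Agent.H914.VarClass.Obj Pool.Agent.W492.BB
  Pool.Agent.W550.Corr Pool.Agent.TH133 Pool.Agent.TH829.Prime Pool.Agent.TH829.Kim
  Pool.Agent.Q8.HK Pool.Agent.N174.OV Pool.Agent.Y107 Pool.Agent.N174.KN Run7.h158

set_option autoImplicit false
set_option linter.unusedSectionVars false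

variable {𝒱 : VarClass ℂ} {C : TheoryData.{0, 0, 0} 𝒱 ℚ} [hC : IsChowProj C]
  {H : WeilTheoryData.{0, 0, 0} C ℂ} [hH : IsWeilProj H] {X Y Z : 𝒱.Obj}

/-! ### The complex span of the classes of cycles -/

/-- The span of the classes of cycles. -/
noncomputable def spc (H : WeilTheoryData.{0, 0, 0} C ℂ) (X : 𝒱.Obj) : Submodule ℂ (H.A X) :=
  Submodule.span ℂ (Set.range (H.cl (X := X)))

lemma cl_mem_spc (z : C.A X) : H.cl z ∈ spc H X := Submodule.subset_span ⟨z, rfl⟩

lemma spc_ind {p : H.A X → Prop} (h1 : ∀ z : C.A X, p (H.cl z)) (h2 : ∀ a b, p a → p b → p (a + b))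
    (h3 : ∀ (c : ℂ) a, p a → p (c • a)) {x : H.A X} (hx : x ∈ spc H X) : p x := by
  unfold spc at hx
  induction hx using Submodule.span_induction with
  | mem x hx =>
    obtain ⟨z, rfl⟩ := hx
    exact h1 z
  | zero =>
    have := h1 0
    rwa [map_zero] at this
  | add a b _ _ ha hb => exact h2 a b ha hb
  | smul c a _ ha => exact h3 c a ha

lemma spc_mul {a b : H.A X} (ha : a ∈ spc H X) (hb : b ∈ spc H X) : a * b ∈ spc H X := by
  refine spc_ind (p := fun a => a * b ∈ spc H X) (fun z => ?_) (fun a a' h1 h2 => ?_)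
    (fun c a h => ?_) ha
  · refine spc_ind (p := fun b => H.cl z * b ∈ spc H X) (fun w => ?_) (fun a a' h1 h2 => ?_)
      (fun c a h => ?_) hb
    · rw [← map_mul]
      exact cl_mem_spc _
    · rw [mul_add]
      exact Submodule.add_mem _ h1 h2
    · rw [mul_smul_comm]
      exact Submodule.smul_mem _ _ h
  · rw [add_mul]
    exact Submodule.add_mem _ h1 h2
  · rw [smul_mul_assoc]
    exact Submodule.smul_mem _ _ h

include hC hH

lemma spc_pull (f : X ⟶ Y) {b : H.A Y} (hb : b ∈ spc H Y) : H.pull f b ∈ spc H X := by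
  refine spc_ind (p := fun b => H.pull f b ∈ spc H X) (fun z => ?_) (fun a a' h1 h2 => ?_)
    (fun c a h => ?_) hb
  · rw [← H.cl_pull]
    exact cl_mem_spc _
  · rw [map_add]
    exact Submodule.add_mem _ h1 h2
  · rw [map_smul]
    exact Submodule.smul_mem _ _ h

lemma spc_ext {a : H.A X} {b : H.A Y} (ha : a ∈ spc H X) (hb : b ∈ spc H Y) :
    H.ext a b ∈ spc H (X.prod Y) :=
  spc_mul (spc_pull _ ha) (spc_pull _ hb)

lemma spc_act (Γ : C.A (X.prod Y)) {a : H.A X} (ha : a ∈ spc H X) :
    H.act (H.cl Γ) a ∈ spc H Y := by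
  refine spc_ind (p := fun a => H.act (H.cl Γ) a ∈ spc H Y) (fun z => ?_) (fun a a' h1 h2 => ?_)
    (fun c a h => ?_) ha
  · rw [← cl_act]
    exact cl_mem_spc _
  · rw [act_map_add]
    exact Submodule.add_mem _ h1 h2
  · rw [act_map_smul]
    exact Submodule.smul_mem _ _ h

/-! ### The action of external products -/

/-- A zero-cycle of degree one. -/
structure IsPt (H : WeilTheoryData.{0, 0, 0} C ℂ) (X : 𝒱.Obj) (p : C.A X) (κ : ℂ) : Prop where
  mem : p ∈ C.gr X X.dim
  push : C.push (fst X X) (C.pull (snd X X) p) = 1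
  tr : H.tr X (H.cl p) = κ
  ne : κ ≠ 0

lemma exists_pt {n : ℕ} {V : Type} [AddCommGroup V] [Module ℂ V] (hX : HyperKahler H n X V) :
    ∃ p κ, IsPt H X p κ := by
  obtain ⟨κ, hκ, h⟩ := exists_tr_deg hX
  obtain ⟨a, ha, h1, h2⟩ := hC.exists_deg_one X
  have hdeg : degL H X a = 1 := by
    apply degL_eq
    intro Z
    rw [one_smul]
    exact ⟨h2 Z, h1 Z⟩
  exact ⟨a, κ, ha, h1 X, by rw [h, hdeg, Rat.cast_one, mul_one], hκ⟩

lemma push_pull {p : C.A X} {κ : ℂ} (hp : IsPt H X p κ) (w : H.A X) :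
    H.push (snd X X) (H.pull (fst X X) w) = (κ⁻¹ * H.tr X w) • (1 : H.A X) := by
  have h1 : (H.push (snd X X)) ∘ₗ (H.pull (fst X X)).toLinearMap =
      κ⁻¹ • (H.tr X).smulRight (1 : H.A X) := by
    apply ext_gr H
    intro i w hw
    rw [LinearMap.comp_apply, LinearMap.smul_apply, LinearMap.smulRight_apply, AlgHom.toLinearMap_apply]
    have hm := H.push_mem (snd X X) (H.pull_mem (fst X X) hw)
    have e1 : i + 2 * ((X.dim : ℤ) - ((X.prod X).dim : ℤ)) = i - 2 * X.dim := by
      rw [dim_prod]; push_cast; ring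
    rw [e1] at hm
    rcases lt_trichotomy i (2 * X.dim) with hi | hi | hi
    · rw [tr_zero H hw hi.ne, zero_smul, smul_zero]
      by_contra h0
      have := nonneg_of_mem H hm h0
      omega
    · rw [hi, sub_self] at hm
      obtain ⟨c, hc⟩ := hH.gr_zero X _ hm
      have h2 : H.tr X (H.push (snd X X) (H.pull (fst X X) w) * H.cl p) = H.tr X w := by
        rw [← H.proj_right, H.tr_push, ← H.cl_pull, ← H.tr_push (fst X X), H.proj_left, ← H.cl_push,
          hp.push, map_one, mul_one]
      rw [hc, smul_mul_assoc, one_mul, map_smul, hp.tr, smul_eq_mul] at h2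
      rw [hc, smul_smul, ← h2, mul_comm c κ, ← mul_assoc, inv_mul_cancel₀ hp.ne, one_mul]
    · rw [gr_top H hi, Submodule.mem_bot] at hw
      rw [hw, map_zero, map_zero, map_zero, zero_smul, smul_zero]
  have h2 := LinearMap.congr_fun h1 w
  rw [LinearMap.comp_apply, LinearMap.smul_apply, LinearMap.smulRight_apply, smul_smul] at h2
  exact h2

/-- The pull-backs of the class `b` are central. -/
def Central (b : H.A X) : Prop :=
  ∀ (Z : 𝒱.Obj) (f : Z ⟶ X) (c : H.A Z), H.pull f b * c = c * H.pull f b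

lemma central_cl (z : C.A X) : Central (H.cl z) := by
  intro Z f c
  rw [← H.cl_pull, H.cl_central]

lemma actH_ext {p : C.A X} {κ : ℂ} (hp : IsPt H X p κ) (a : H.A X) {b : H.A X} (hb : Central b)
    (y : H.A X) : H.act (H.ext a b) y = (κ⁻¹ * H.tr X (a * y)) • b := by
  rw [TheoryData.act_apply, TheoryData.ext, mul_assoc, hb, ← mul_assoc, ← map_mul, H.proj_right,
    push_pull hp, smul_mul_assoc, one_mul]

lemma cl_ext (a : C.A X) (b : C.A Y) : H.cl (C.ext a b) = H.ext (H.cl a) (H.cl b) := by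
  rw [TheoryData.ext, TheoryData.ext, map_mul, H.cl_pull, H.cl_pull]

lemma top_eq {p : C.A X} {κ : ℂ} (hp : IsPt H X p κ) {y : H.A X} (hy : y ∈ H.gr X (2 * X.dim)) :
    y = (κ⁻¹ * H.tr X y) • H.cl p := by
  rw [← sub_eq_zero]
  apply H.nondeg
  have h0 : (H.tr X ∘ₗ LinearMap.mulLeft ℂ (y - (κ⁻¹ * H.tr X y) • H.cl p)) = 0 := by
    apply ext_gr H
    intro j b hb
    rw [LinearMap.comp_apply, LinearMap.mulLeft_apply, LinearMap.zero_apply]
    have hm : y - (κ⁻¹ * H.tr X y) • H.cl p ∈ H.gr X (2 * X.dim) :=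
      Submodule.sub_mem _ hy (Submodule.smul_mem _ _ (H.cl_mem hp.mem))
    by_cases hj : j = 0
    · subst hj
      obtain ⟨c, hc⟩ := hH.gr_zero X _ hb
      rw [hc, mul_smul_comm, mul_one, map_smul, map_sub, map_smul, hp.tr, smul_eq_mul, smul_eq_mul]
      field_simp [hp.ne]
      ring
    · exact tr_zero H (H.mul_mem hm hb) (by omega)
  intro b
  exact LinearMap.congr_fun h0 b

/-- If `H¹(X) = 0`, a correspondence of codimension two may be changed by decomposable classes such
that it acts only on `H^(2d-2)(X)`. -/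
theorem exists_clean {p : C.A X} {κ : ℂ} (hp : IsPt H X p κ)
    (h1 : ∀ y : H.A X, y ∈ H.gr X 1 → y = 0) {Γ : C.A (X.prod X)} (hΓ : Γ ∈ C.gr (X.prod X) 2) :
    ∃ Γ' : C.A (X.prod X), Γ' ∈ C.gr (X.prod X) 2 ∧
      (∀ y : H.A X, y ∈ H.gr X (2 * X.dim - 2) → H.act (H.cl Γ') y = H.act (H.cl Γ) y) ∧
      ∀ (k : ℤ) (y : H.A X), k ≠ 2 * X.dim - 2 → y ∈ H.gr X k → H.act (H.cl Γ') y = 0 := by
  have hΓ' : Γ ∈ C.gr (X.prod X) ((X.dim : ℤ) + (2 - X.dim)) := by
    rwa [show (X.dim : ℤ) + (2 - X.dim) = 2 by ring]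
  have ht : tp C Γ ∈ C.gr (X.prod X) ((X.dim : ℤ) + (2 - X.dim)) := tp_mem C hΓ'
  have ha : C.act Γ p ∈ C.gr X 2 := by
    have := act_mem (C := C) hΓ' hp.mem
    rwa [show (X.dim : ℤ) + (2 - X.dim) = 2 by ring] at this
  have ha' : C.act (tp C Γ) p ∈ C.gr X 2 := by
    have := act_mem (C := C) ht hp.mem
    rwa [show (X.dim : ℤ) + (2 - X.dim) = 2 by ring] at this
  obtain ⟨a, hae⟩ : ∃ a, a = C.act Γ p := ⟨_, rfl⟩
  obtain ⟨a', hae'⟩ : ∃ a', a' = C.act (tp C Γ) p := ⟨_, rfl⟩
  rw [← hae] at ha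
  rw [← hae'] at ha'
  have hac : H.cl a' ∈ H.gr X 4 := by
    have := H.cl_mem ha'
    rwa [show (2 * 2 : ℤ) = 4 by norm_num] at this
  have hact : ∀ y : H.A X, H.act (H.cl (Γ - C.ext 1 a - C.ext a' 1)) y =
      H.act (H.cl Γ) y - (κ⁻¹ * H.tr X y) • H.cl a - (κ⁻¹ * H.tr X (H.cl a' * y)) • 1 := by
    intro y
    have hb : Central (H := H) (X := X) (1 : H.A X) := by
      have := central_cl (H := H) (X := X) 1
      rwa [map_one] at this
    rw [map_sub, map_sub, TheoryData.act_sub, TheoryData.act_sub, cl_ext, cl_ext, map_one,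
      actH_ext hp _ (central_cl a), actH_ext hp _ hb, one_mul]
  refine ⟨Γ - C.ext 1 a - C.ext a' 1, ?_, ?_, ?_⟩
  · refine Submodule.sub_mem _ (Submodule.sub_mem _ hΓ ?_) ?_
    · have := ext_mem' (C := C) (C.one_mem X) ha
      rwa [zero_add] at this
    · have := ext_mem' (C := C) ha' (C.one_mem X)
      rwa [add_zero] at this
  · intro y hy
    rw [hact, tr_zero H hy (by omega), tr_zero H (H.mul_mem hac hy) (by omega), mul_zero, zero_smul,
      zero_smul, sub_zero, sub_zero]
  · intro k y hk hy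
    rw [hact]
    have hd := actH_mem H hΓ' hy
    by_cases h4 : k = 2 * X.dim
    · subst h4
      rw [tr_zero H (H.mul_mem hac hy) (by omega), mul_zero, zero_smul, sub_zero]
      have e1 := top_eq hp hy
      conv_lhs => rw [e1]
      rw [act_map_smul, ← cl_act, ← hae, map_smul, hp.tr, smul_eq_mul]
      rw [← sub_smul]
      have e2 : κ⁻¹ * H.tr X y - κ⁻¹ * (κ⁻¹ * H.tr X y * κ) = 0 := by
        field_simp [hp.ne]
        ring
      rw [e2, zero_smul]
    · rw [tr_zero H hy h4, mul_zero, zero_smul, sub_zero]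
      by_cases h5 : k = 2 * X.dim - 4
      · subst h5
        rw [show (2 * (X.dim : ℤ) - 4 + 2 * (2 - X.dim)) = 0 by ring] at hd
        obtain ⟨c, hc⟩ := hH.gr_zero X _ hd
        have e1 := tr_act H Γ y (H.cl p)
        rw [← cl_act, ← hae', hc, smul_mul_assoc, one_mul, map_smul, hp.tr, smul_eq_mul,
          ← H.cl_central] at e1
        rw [hc, e1, ← sub_smul]
        have e2 : c - κ⁻¹ * (c * κ) = 0 := by
          field_simp [hp.ne]
          ring
        rw [e2, zero_smul]
      · rw [tr_zero H (H.mul_mem hac hy) (by omega), mul_zero, zero_smul, sub_zero]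
        by_cases h6 : k = 2 * X.dim - 1
        · subst h6
          have hy0 : y = 0 := by
            apply H.nondeg
            have h0 : (H.tr X ∘ₗ LinearMap.mulLeft ℂ y) = 0 := by
              apply ext_gr H
              intro j b hb
              rw [LinearMap.comp_apply, LinearMap.mulLeft_apply, LinearMap.zero_apply]
              by_cases hj : j = 1
              · subst hj
                rw [h1 b hb, mul_zero, map_zero]
              · exact tr_zero H (H.mul_mem hy hb) (by omega)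
            intro b
            exact LinearMap.congr_fun h0 b
          rw [hy0, TheoryData.act_map_zero]
        · by_cases h7 : k = 2 * X.dim - 3
          · subst h7
            rw [show (2 * (X.dim : ℤ) - 3 + 2 * (2 - X.dim)) = 1 by ring] at hd
            exact h1 _ hd
          · by_contra h0
            have h8 := nonneg_of_mem H hd h0
            have hy0 : y ≠ 0 := by
              rintro rfl
              rw [TheoryData.act_map_zero] at h0
              exact h0 rfl
            have h9 : k ≤ 2 * X.dim := by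
              by_contra h10
              rw [gr_top H (not_le.1 h10), Submodule.mem_bot] at hy
              exact hy0 hy
            omega

end Run7.h158.Hdg
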