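import Pool.Agent.Run7.h158.St.Std

/-!
# Rational structures and Hodge structures
-/

open CategoryTheory AlgebraicGeometry

namespace Run7.h158.Hdg

open Pool.Agent.H914 Pool.Agent.H914.VarClass Pool.Agent.H914.VarClass.Obj Pool.Agent.W492.BB

variable {𝒱 : VarClass ℂ} {C : TheoryData.{0, 0, 0} 𝒱 ℚ}

/-- Rational structures and Hodge operators on the cohomology of all varieties. -/
structure HodgeData (H : WeilTheoryData.{0, 0, 0} C ℂ) where
  /-- the total Betti numbers -/
  m : 𝒱.Obj → ℕ
  /-- a basis of `H^*(W, ℚ)` -/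
  b : ∀ W : 𝒱.Obj, Module.Basis (Fin (m W)) ℂ (H.A W)
  /-- the Hodge operator, which acts on `H^(p,q)(W)` as multiplication by `p - q` -/
  eta : ∀ W : 𝒱.Obj, H.A W →ₗ[ℂ] H.A W

variable {H : WeilTheoryData.{0, 0, 0} C ℂ}

/-- The rational classes. -/
def HodgeData.IsRat (D : HodgeData H) {W : 𝒱.Obj} (x : H.A W) : Prop :=
  ∀ j, ∃ r : ℚ, (D.b W).repr x j = r

/-- The class `x` on `W` is a Hodge class of degree `2p`: a rational class of type `(p, p)`. -/
structure HodgeData.IsHodge (D : HodgeData H) {W : 𝒱.Obj} (p : ℕ) (x : H.A W) : Prop where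
  deg : H.Deg ((2 * p : ℕ) : ℤ) x
  rat : D.IsRat x
  type : D.eta W x = 0

/-- The known properties of the rational structures on the cohomology of smooth projective
varieties: products, pull-backs and push-forwards respect the rational classes, and the classes of
cycles are rational. -/
structure IsRationalTheory (D : HodgeData H) : Prop where
  mul_rat : ∀ {W : 𝒱.Obj} (x y : H.A W), D.IsRat x → D.IsRat y → D.IsRat (H.mul x y)
  pull_rat : ∀ {W Z : 𝒱.Obj} (f : W ⟶ Z) (x : H.A Z), D.IsRat x → D.IsRat (H.up f x)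
  push_rat : ∀ {W Z : 𝒱.Obj} (f : W ⟶ Z) (x : H.A W), D.IsRat x → D.IsRat (H.down f x)
  cl_rat : ∀ {W : 𝒱.Obj} (z : C.A W), D.IsRat (H.cl z)

/-- The known properties of the rational structures and of the Hodge structures on the cohomology of
smooth projective varieties: the ring `H^*(W)` is commutative in the graded sense, products,
pull-backs and push-forwards respect the rational classes and (up to Tate twists) the Hodge
structures, and the classes of cycles are rational of type `(p, p)`. -/
structure IsHodgeTheory (D : HodgeData H) : Prop extends IsRationalTheory D where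
  comm : ∀ {W : 𝒱.Obj} (i j : ℕ) (x y : H.A W), H.Deg i x → H.Deg j y →
    H.mul x y = (-1 : ℂ) ^ (i * j) • H.mul y x
  eta_mul : ∀ {W : 𝒱.Obj} (x y : H.A W),
    D.eta W (H.mul x y) = H.mul (D.eta W x) y + H.mul x (D.eta W y)
  eta_pull : ∀ {W Z : 𝒱.Obj} (f : W ⟶ Z) (x : H.A Z), D.eta W (H.up f x) = H.up f (D.eta Z x)
  eta_push : ∀ {W Z : 𝒱.Obj} (f : W ⟶ Z) (x : H.A W), D.eta Z (H.down f x) = H.down f (D.eta W x)
  eta_cl : ∀ {W : 𝒱.Obj} (z : C.A W), D.eta W (H.cl z) = 0

end Run7.h158.Hdg
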