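import Pool.Agent.Run7.h158.Hdg.Cor
import Pool.Agent.Run7.h158.Hdg.Coh
import Pool.Agent.Run7.h158.Hdg.Data

/-!
# The transcendental part of the class of the quadratic form is algebraic
-/

open CategoryTheory AlgebraicGeometry

namespace Run7.h158.Hdg

open Pool.Agent.H914 Pool.Agent.H914.VarClass Pool.Agent.H914.VarClass.Obj Pool.Agent.W492.BB
  Pool.Agent.W550.Corr Pool.Agent.TH133 Pool.Agent.TH829.Prime Pool.Agent.TH829.Kim
  Pool.Agent.Q8.HK Pool.Agent.N174.OV Pool.Agent.Y107 Pool.Agent.N174.KN Run7.h158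

set_option autoImplicit false
set_option linter.unusedSectionVars false

variable {𝒱 : VarClass ℂ} {C : TheoryData.{0, 0, 0} 𝒱 ℚ} [hC : IsChowProj C]
  {H : WeilTheoryData.{0, 0, 0} C ℂ} [hH : IsWeilProj H] {X Y Z : 𝒱.Obj}
  {n : ℕ} {V : Type} [AddCommGroup V] [Module ℂ V]

/-- The hyper-Kähler variety and the Hodge structures are compatible. -/
structure Cmp (D : HodgeData H) (hX : HyperKahler H n X V) : Prop where
  rat : ∀ x, IsRat hX.b x ↔ D.IsRat x
  eta : ∀ x, hX.eta x = D.eta X x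
  conj : IsConj hX.toCoh
  h1 : ∀ y : H.A X, y ∈ H.gr X 1 → y = 0

section general

variable {D : HodgeData H} (hD : IsHodgeTheory D)

include hC hH hD

lemma act_rat (Γ : C.A (X.prod Y)) {y : H.A X} (hy : D.IsRat y) :
    D.IsRat (H.act (H.cl Γ) y) :=
  hD.push_rat _ _ (hD.mul_rat _ _ (hD.cl_rat Γ) (hD.pull_rat _ _ hy))

lemma act_eta (Γ : C.A (X.prod Y)) (y : H.A X) :
    D.eta Y (H.act (H.cl Γ) y) = H.act (H.cl Γ) (D.eta X y) := by
  rw [TheoryData.act_apply, TheoryData.act_apply]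
  have h1 := hD.eta_push (snd X Y) (H.cl Γ * H.pull (fst X Y) y)
  have h2 := hD.eta_mul (H.cl Γ) (H.pull (fst X Y) y)
  have h3 : D.eta _ (H.cl Γ) = 0 := hD.eta_cl Γ
  have h4 := hD.eta_pull (fst X Y) y
  rw [h3] at h2
  change D.eta Y (H.push (snd X Y) (H.cl Γ * H.pull (fst X Y) y)) = _
  refine h1.trans ?_
  change H.push (snd X Y) _ = _
  congr 1
  refine h2.trans ?_
  change 0 * _ + _ = _
  rw [zero_mul, zero_add]
  change H.cl Γ * D.eta _ (H.pull (fst X Y) y) = _
  congr 1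

/-- Classes of degree two are central. -/
lemma comm_two {x : H.A X} (hx : x ∈ H.gr X 2) (c : H.A X) : x * c = c * x := by
  have h1 : LinearMap.mulLeft ℂ x = LinearMap.mulRight ℂ x := by
    apply ext_gr H
    intro j c hc
    rw [LinearMap.mulLeft_apply, LinearMap.mulRight_apply]
    by_cases h0 : c = 0
    · rw [h0, mul_zero, zero_mul]
    · obtain ⟨k, rfl⟩ := Int.eq_ofNat_of_zero_le (nonneg_of_mem H hc h0)
      have h2 := hD.comm 2 k x c hx hc
      rw [pow_mul] at h2
      have h3 : ((-1 : ℂ) ^ 2) ^ k = 1 := by norm_num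
      rw [h3, one_smul] at h2
      exact h2
  exact LinearMap.congr_fun h1 c

lemma central_i (hX : HyperKahler H n X V) (v : V) : Central (H := H) (hX.i v) := by
  intro Z f c
  refine comm_two hD (H.pull_mem f ?_) c
  exact (hX.grade_iff 2 _).1 ((hX.i_range _).2 ⟨v, rfl⟩)

end general

lemma eta_i (hX : HyperKahler H n X V) (v : V) :
    hX.eta (hX.i v) = (2 / hX.tau : ℂ) • hX.i (g0 hX.toCoh v) := by
  have hsk : ∀ x y, hX.q (((hX.q hX.s').smulRight hX.s - (hX.q hX.s).smulRight hX.s') x) y =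
      - hX.q x (((hX.q hX.s').smulRight hX.s - (hX.q hX.s).smulRight hX.s') y) := by
    intro x y
    simp only [LinearMap.sub_apply, LinearMap.smulRight_apply, map_sub, map_smul,
      LinearMap.smul_apply, smul_eq_mul]
    rw [hX.q_symm x hX.s, hX.q_symm x hX.s']
    ring
  rw [Coh.eta, LinearMap.smul_apply, hX.toCoh.rho_S_i hsk]
  rfl

lemma tau_ne (hX : HyperKahler H n X V) : (2 / hX.tau : ℂ) ≠ 0 :=
  div_ne_zero two_ne_zero hX.s_s'

include hC hH

lemma i_mem (hX : HyperKahler H n X V) (v : V) : hX.i v ∈ H.gr X 2 :=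
  (hX.grade_iff 2 _).1 ((hX.i_range _).2 ⟨v, rfl⟩)

/-- The operator on the second cohomology. -/
lemma exists_g (hX : HyperKahler H n X V) {h : C.A X} (hh : h ∈ C.gr X 1) {Γ : C.A (X.prod X)}
    (hΓ : Γ ∈ C.gr (X.prod X) 2) : ∃ g : V →ₗ[ℂ] V, ∀ v,
      hX.i (g v) = H.act (H.cl Γ) (H.cl h ^ (2 * n - 2) * hX.i v) := by
  let T : V →ₗ[ℂ] H.A X := (H.actL (H.cl Γ)) ∘ₗ LinearMap.mulLeft ℂ (H.cl h ^ (2 * n - 2)) ∘ₗ hX.i
  have hT : ∀ v, T v ∈ LinearMap.range hX.i := by
    intro v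
    have h1 := H.mul_mem (H.cl_mem (pow_mem_gr hh (2 * n - 2))) (i_mem hX v)
    rw [map_pow] at h1
    have hΓ' : Γ ∈ C.gr (X.prod X) ((X.dim : ℤ) + (2 - X.dim)) := by
      rwa [show (X.dim : ℤ) + (2 - X.dim) = 2 by ring]
    have h2 := actH_mem H hΓ' h1
    have hd := hX.dim_eq
    have hn := hX.n_pos
    rw [show (2 * (((2 * n - 2 : ℕ) : ℤ) * 1) + 2 + 2 * (2 - (X.dim : ℤ))) = ((2 : ℕ) : ℤ) by
      rw [hd]
      have : ((2 * n - 2 : ℕ) : ℤ) = 2 * n - 2 := by omega
      rw [this]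
      push_cast
      ring] at h2
    obtain ⟨w, hw⟩ := (hX.i_range _).1 ((hX.grade_iff 2 _).2 h2)
    exact ⟨w, hw⟩
  refine ⟨(LinearEquiv.ofInjective hX.i hX.i_inj).symm ∘ₗ LinearMap.codRestrict _ T hT, fun v => ?_⟩
  have h1 := congrArg Subtype.val ((LinearEquiv.ofInjective hX.i hX.i_inj).apply_symm_apply
    (LinearMap.codRestrict _ T hT v))
  rw [LinearEquiv.ofInjective_apply] at h1
  exact h1

section theta

variable {D : HodgeData H} (hD : IsHodgeTheory D) {hX : HyperKahler H n X V}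
  (hc : Cmp D hX) {h : C.A X} (hh : h ∈ C.gr X 1) {x : V} (hx : hX.toCoh.NS x)
  (hxx : hX.q x x ≠ 0) (hhx : H.cl h = hX.i x)

include hD hc hh hx hxx hhx

omit hc hh hxx hx hhx in
lemma i_comm (v : V) (c : H.A X) : hX.i v * c = c * hX.i v := comm_two hD (i_mem hX v) c

omit hc hh in
/-- The pairing on transcendental classes. -/
lemma exists_psi_T : ∃ κ : ℂ, κ ≠ 0 ∧ ∀ u ∈ Tr hX.toCoh, ∀ v,
    H.tr X (hX.i u * (H.cl h ^ (2 * n - 2) * hX.i v)) = κ * hX.q u v := by
  have hn := hX.n_pos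
  have h1 : ((2 * n - 1 : ℕ) : ℂ) ≠ 0 := by
    have : (2 * n - 1 : ℕ) ≠ 0 := by omega
    exact_mod_cast this
  have hcne : (hX.c : ℂ) ≠ 0 := by exact_mod_cast hX.c_ne
  refine ⟨((2 * n - 1 : ℕ) : ℂ)⁻¹ * (hX.c * hX.q x x ^ (n - 1)), mul_ne_zero (inv_ne_zero h1)
    (mul_ne_zero hcne (pow_ne_zero _ hxx)), fun u hu v => ?_⟩
  have h2 := fuj2 (H.tr X) hX.i (fun u v => i_comm hD u (hX.i v)) hX.q hX.q_symm hn
    (fun y => by rw [← hX.int_eq, hX.fujiki]) (x := x) (u := u) (by rw [hX.q_symm]; exact hu x hx) v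
  have h3 : hX.i u * (H.cl h ^ (2 * n - 2) * hX.i v) = hX.i x ^ (2 * n - 2) * hX.i u * hX.i v := by
    rw [← mul_assoc, i_comm hD u, hhx]
  rw [h3, mul_assoc ((2 * n - 1 : ℕ) : ℂ)⁻¹, ← h2, ← mul_assoc, inv_mul_cancel₀ h1, one_mul]

omit hc hx in
/-- The pairing is not degenerate. -/
lemma psi_nondeg {v : V}
    (h0 : ∀ u, H.tr X (hX.i u * (H.cl h ^ (2 * n - 2) * hX.i v)) = 0) : v = 0 := by
  have hd := hX.dim_eq
  have hn := hX.n_pos
  have hm := H.mul_mem (H.cl_mem (pow_mem_gr hh (2 * n - 2))) (i_mem hX v)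
  rw [map_pow] at hm
  have hy : H.cl h ^ (2 * n - 2) * hX.i v = 0 := by
    apply H.nondeg
    have h1 : (H.tr X ∘ₗ LinearMap.mulLeft ℂ (H.cl h ^ (2 * n - 2) * hX.i v)) = 0 := by
      apply ext_gr H
      intro j b hb
      rw [LinearMap.comp_apply, LinearMap.mulLeft_apply, LinearMap.zero_apply]
      by_cases hj : j = 2
      · subst hj
        obtain ⟨u, rfl⟩ := (hX.i_range _).1 ((hX.grade_iff 2 _).2 hb)
        rw [← i_comm hD u]
        exact h0 u
      · exact tr_zero H (H.mul_mem hm hb) (by omega)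
    intro b
    exact LinearMap.congr_fun h1 b
  have h2 := hardLef_of hX hxx hhx 2 0 (by omega) (Submodule.zero_mem _)
  have h3 := h2.unique (y₁ := hX.i v) (y₂ := 0) ⟨i_mem hX v, by
    rw [show X.dim - 2 = 2 * n - 2 by omega]
    exact hy⟩ ⟨Submodule.zero_mem _, mul_zero _⟩
  apply hX.i_inj
  rw [h3, map_zero]

variable (hE : ScalarEnd hX.toCoh)

include hE

/-- The operator is a scalar on the transcendental part, and respects the algebraic part. -/
lemma g_scalar {Γ : C.A (X.prod X)} {g : V →ₗ[ℂ] V}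
    (hg : ∀ v, hX.i (g v) = H.act (H.cl Γ) (H.cl h ^ (2 * n - 2) * hX.i v)) :
    (∃ c : ℚ, ∀ v ∈ Tr hX.toCoh, g v = (c : ℂ) • v) ∧ ∀ v, hX.toCoh.NS v → hX.toCoh.NS (g v) := by
  have hrat : ∀ v, IsRat hX.b (hX.i v) → IsRat hX.b (hX.i (g v)) := by
    intro v hv
    rw [hg, hc.rat]
    refine act_rat hD Γ (hD.mul_rat _ _ ?_ ((hc.rat _).1 hv))
    rw [← map_pow]
    exact hD.cl_rat _
  have hcomm : ∀ v, g (g0 hX.toCoh v) = g0 hX.toCoh (g v) := by
    intro v
    apply hX.i_inj
    have h1 : (2 / hX.tau : ℂ) • hX.i (g (g0 hX.toCoh v)) =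
        (2 / hX.tau : ℂ) • hX.i (g0 hX.toCoh (g v)) := by
      rw [← eta_i hX (g v), hc.eta, hg v, act_eta hD, hg, ← act_map_smul]
      congr 1
      have h2 : D.eta X (H.cl h ^ (2 * n - 2) * hX.i v) =
          H.cl h ^ (2 * n - 2) * D.eta X (hX.i v) := by
        have h3 := hD.eta_mul (H.cl h ^ (2 * n - 2)) (hX.i v)
        have h4 : D.eta X (H.cl h ^ (2 * n - 2)) = 0 := by
          rw [← map_pow]
          exact hD.eta_cl _
        rw [h4] at h3
        refine h3.trans ?_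
        change 0 * _ + _ = _
        rw [zero_mul, zero_add]
      rw [h2, ← hc.eta, eta_i, mul_smul_comm]
    exact smul_right_injective _ (tau_ne hX) h1
  refine ⟨hE g hrat hcomm, fun v hv => ?_⟩
  refine ns_of_eta hX (hrat v hv.1) ?_
  rw [eta_i, ← hcomm, g0_ns hv, map_zero, map_zero, smul_zero]

/-- **The transcendental part of the class of the quadratic form is algebraic.** -/
theorem theta_mem {Γ : C.A (X.prod X)} (hΓ : Γ ∈ C.gr (X.prod X) 2)
    (hne : H.act (H.cl Γ) (H.cl h ^ (2 * n - 2) * hX.i hX.s) ≠ 0) {JN JT : Type} [Fintype JN]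
    [Fintype JT] [DecidableEq JN] [DecidableEq JT]
    (P : Adp hX.q (fun v => IsRat hX.b (hX.i v)) hX.toCoh.NS JN JT) :
    ∑ a, ∑ b, cm P.Q⁻¹ a b • H.ext (hX.i (P.B (Sum.inr a))) (hX.i (P.B (Sum.inr b))) ∈
      spc H (X.prod X) := by
  have hd := hX.dim_eq
  have hn := hX.n_pos
  obtain ⟨p, κ0, hp⟩ := exists_pt hX
  obtain ⟨Γ', hΓ', hact1, hact2⟩ := exists_clean hp hc.h1 hΓ
  have hdeg : ∀ v, H.cl h ^ (2 * n - 2) * hX.i v ∈ H.gr X (2 * X.dim - 2) := by
    intro v
    have h1 := H.mul_mem (H.cl_mem (pow_mem_gr hh (2 * n - 2))) (i_mem hX v)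
    rw [map_pow] at h1
    have : ((2 * n - 2 : ℕ) : ℤ) = 2 * n - 2 := by omega
    rwa [this, show 2 * ((2 * (n : ℤ) - 2) * 1) + 2 = 2 * X.dim - 2 by rw [hd]; push_cast; ring] at h1
  obtain ⟨g, hg⟩ := exists_g hX hh hΓ'
  obtain ⟨⟨c, hgc⟩, hgn⟩ := g_scalar hD hc hh hx hxx hhx hE hg
  have hc0 : (c : ℂ) ≠ 0 := by
    intro h0
    apply hne
    rw [← hact1 _ (hdeg _), ← hg, hgc _ s_mem, h0, zero_smul, map_zero]
  obtain ⟨κ, hκ, hpsi⟩ := exists_psi_T hD hx hxx hhx
  have hψs : ∀ u v, H.tr X (hX.i u * (H.cl h ^ (2 * n - 2) * hX.i v)) =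
      H.tr X (hX.i v * (H.cl h ^ (2 * n - 2) * hX.i u)) := by
    intro u v
    rw [i_comm hD v, mul_assoc, i_comm hD u, ← mul_assoc, mul_assoc (_ ^ _), i_comm hD v,
      ← mul_assoc]
  have htT : ∀ a, P.B (Sum.inr a) ∈ Tr hX.toCoh := fun a => by
    rw [← tv_single]
    exact tv_mem P _
  -- the pairing on the algebraic part
  let M : Matrix JN JN ℂ := Matrix.of fun a b =>
    H.tr X (hX.i (P.B (Sum.inl a)) * (H.cl h ^ (2 * n - 2) * hX.i (P.B (Sum.inl b))))
  have hM : M.det ≠ 0 := by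
    intro h0
    obtain ⟨w, hw0, hw1⟩ := Matrix.exists_mulVec_eq_zero_iff.2 h0
    apply hw0
    have h1 : ∑ b, w b • P.B (Sum.inl b) = 0 := by
      refine psi_nondeg hD hh hxx hhx fun u => ?_
      have h2 : ∀ k, H.tr X (hX.i (P.B k) * (H.cl h ^ (2 * n - 2) *
          hX.i (∑ b, w b • P.B (Sum.inl b)))) = 0 := by
        intro k
        rcases k with a | a
        · have h3 := congrFun hw1 a
          rw [Matrix.mulVec, dotProduct, Pi.zero_apply] at h3
          rw [map_sum, Finset.mul_sum, Finset.mul_sum, map_sum, ← h3]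
          refine Finset.sum_congr rfl fun b _ => ?_
          rw [map_smul, mul_smul_comm, mul_smul_comm, map_smul, smul_eq_mul, mul_comm]
          rfl
        · rw [hpsi _ (htT a), map_sum, Finset.sum_eq_zero, mul_zero]
          intro b _
          rw [map_smul, hX.q_symm, P.orth, smul_zero]
      rw [← P.B.sum_repr u, map_sum, Finset.sum_mul, map_sum]
      refine Finset.sum_eq_zero fun k _ => ?_
      rw [map_smul, smul_mul_assoc, map_smul, h2, smul_zero]
    funext b
    have h4 := congrArg (fun z => P.B.repr z (Sum.inl b)) h1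
    simp only [map_sum, map_smul, Finsupp.finsetSum_apply, Finsupp.smul_apply,
      Module.Basis.repr_self, map_zero, Finsupp.zero_apply, smul_eq_mul] at h4
    rw [Finset.sum_eq_single_of_mem b (Finset.mem_univ b)] at h4
    · simpa using h4
    · intro l _ hl
      rw [Finsupp.single_eq_of_ne (by simpa using Ne.symm hl), mul_zero]
  let β : JN → V := fun c => ∑ a, M⁻¹ c a • P.B (Sum.inl a)
  have hβN : ∀ c b, H.tr X (hX.i (β c) * (H.cl h ^ (2 * n - 2) * hX.i (P.B (Sum.inl b)))) =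
      if c = b then 1 else 0 := by
    intro c b
    have h1 : (M⁻¹ * M) c b = if c = b then 1 else 0 := by
      rw [Matrix.nonsing_inv_mul _ (isUnit_iff_ne_zero.2 hM), Matrix.one_apply]
    rw [← h1, Matrix.mul_apply]
    simp only [β]
    rw [map_sum, Finset.sum_mul, map_sum]
    refine Finset.sum_congr rfl fun a _ => ?_
    rw [map_smul, smul_mul_assoc, map_smul, smul_eq_mul]
    rfl
  have hβT : ∀ c a, H.tr X (hX.i (β c) * (H.cl h ^ (2 * n - 2) * hX.i (P.B (Sum.inr a)))) = 0 := by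
    intro c a
    rw [hψs, hpsi _ (htT a)]
    simp only [β]
    rw [map_sum, Finset.sum_eq_zero, mul_zero]
    intro b _
    rw [map_smul, hX.q_symm, P.orth, smul_zero]
  have hQs : ∀ a b, P.Q a b = P.Q b a := by
    intro a b
    have h1 : ((P.Q a b : ℚ) : ℂ) = ((P.Q b a : ℚ) : ℂ) := by
      rw [← P.gram, ← P.gram, hX.q_symm]
    exact_mod_cast h1
  have hQt : P.Q.transpose = P.Q := by
    ext a b
    exact (hQs b a)
  have hQi : ∀ a b, P.Q⁻¹ a b = P.Q⁻¹ b a := by
    intro a b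
    have h1 : (P.Q⁻¹).transpose = P.Q⁻¹ := by
      rw [Matrix.transpose_nonsing_inv, hQt]
    exact (congrFun (congrFun h1 b) a)
  obtain ⟨θ, hθ⟩ : ∃ θ, θ = ∑ a, ∑ b, cm P.Q⁻¹ a b •
      H.ext (hX.i (P.B (Sum.inr a))) (hX.i (P.B (Sum.inr b))) := ⟨_, rfl⟩
  rw [← hθ]
  obtain ⟨ν, hν⟩ : ∃ ν, ν = ∑ c, H.ext (hX.i (β c)) (hX.i (g (P.B (Sum.inl c)))) := ⟨_, rfl⟩
  have hθa : ∀ y, H.act θ y = ∑ a, ∑ b, cm P.Q⁻¹ a b •
      ((κ0⁻¹ * H.tr X (hX.i (P.B (Sum.inr a)) * y)) • hX.i (P.B (Sum.inr b))) := by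
    intro y
    rw [hθ, act_sum]
    refine Finset.sum_congr rfl fun a _ => ?_
    rw [act_sum]
    refine Finset.sum_congr rfl fun b _ => ?_
    rw [← actH_ext hp _ (central_i hD hX _)]
    exact LinearMap.map_smul₂ (actB H.toTheoryData) _ _ _
  have hνa : ∀ y, H.act ν y = ∑ c, (κ0⁻¹ * H.tr X (hX.i (β c) * y)) •
      hX.i (g (P.B (Sum.inl c))) := by
    intro y
    rw [hν, act_sum]
    refine Finset.sum_congr rfl fun c _ => ?_
    rw [← actH_ext hp _ (central_i hD hX _)]
  have key : H.cl Γ' = (c * κ0 / κ) • θ + κ0 • ν := by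
    rw [← sub_eq_zero]
    apply eq_zero_of_act H
    intro y
    have h1 : ∀ y, H.act (H.cl Γ' - ((c * κ0 / κ) • θ + κ0 • ν)) y =
        H.act (H.cl Γ') y - ((c * κ0 / κ) • H.act θ y + κ0 • H.act ν y) := by
      intro y
      rw [TheoryData.act_sub, TheoryData.act_add]
      congr 2
      · exact LinearMap.map_smul₂ (actB H.toTheoryData) _ _ _
      · exact LinearMap.map_smul₂ (actB H.toTheoryData) _ _ _
    have h2 : H.actL (H.cl Γ' - ((c * κ0 / κ) • θ + κ0 • ν)) = 0 := by
      apply ext_gr H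
      intro k y hy
      rw [TheoryData.actL_apply, LinearMap.zero_apply, h1]
      by_cases hk : k = 2 * X.dim - 2
      · -- the essential degree
        subst hk
        have hy' : H.Deg ((2 * X.dim - 2 : ℕ) : ℤ) y := by
          have : ((2 * X.dim - 2 : ℕ) : ℤ) = 2 * X.dim - 2 := by omega
          rw [this]
          exact hy
        obtain ⟨z, ⟨hz1, hz2⟩, -⟩ := hardLef_of hX hxx hhx 2 y (by omega) hy'
        obtain ⟨v, rfl⟩ := (hX.i_range _).1 ((hX.grade_iff 2 _).2 hz1)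
        rw [show X.dim - 2 = 2 * n - 2 by omega] at hz2
        rw [← hz2]
        have h3 : hX.i ∘ₗ g = ((c * κ0 / κ) • H.actL θ + κ0 • H.actL ν) ∘ₗ
            LinearMap.mulLeft ℂ (H.cl h ^ (2 * n - 2)) ∘ₗ hX.i := by
          refine P.B.ext fun k => ?_
          rw [LinearMap.comp_apply, LinearMap.comp_apply, LinearMap.comp_apply,
            LinearMap.mulLeft_apply, LinearMap.add_apply, LinearMap.smul_apply,
            LinearMap.smul_apply, TheoryData.actL_apply, TheoryData.actL_apply, hθa, hνa]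
          rcases k with b | b
          · have e1 : ∑ a, ∑ b', cm P.Q⁻¹ a b' • ((κ0⁻¹ * H.tr X (hX.i (P.B (Sum.inr a)) *
                (H.cl h ^ (2 * n - 2) * hX.i (P.B (Sum.inl b))))) • hX.i (P.B (Sum.inr b'))) =
                0 := by
              refine Finset.sum_eq_zero fun a _ => Finset.sum_eq_zero fun b' _ => ?_
              rw [hpsi _ (htT a), hX.q_symm, P.orth, mul_zero, mul_zero, zero_smul, smul_zero]
            rw [e1, smul_zero, zero_add, Finset.sum_eq_single_of_mem b (Finset.mem_univ b)]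
            · rw [hβN, if_pos rfl, mul_one, smul_smul, mul_inv_cancel₀ hp.ne, one_smul]
            · intro a _ hab
              rw [hβN, if_neg hab, mul_zero, zero_smul]
          · have e1 : ∑ a, (κ0⁻¹ * H.tr X (hX.i (β a) * (H.cl h ^ (2 * n - 2) *
                hX.i (P.B (Sum.inr b))))) • hX.i (g (P.B (Sum.inl a))) = 0 := by
              refine Finset.sum_eq_zero fun a _ => ?_
              rw [hβT, mul_zero, zero_smul]
            rw [e1, smul_zero, add_zero, hgc _ (htT b), map_smul]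
            have e2 : ∑ a, ∑ b', cm P.Q⁻¹ a b' • ((κ0⁻¹ * H.tr X (hX.i (P.B (Sum.inr a)) *
                (H.cl h ^ (2 * n - 2) * hX.i (P.B (Sum.inr b))))) • hX.i (P.B (Sum.inr b'))) =
                (κ0⁻¹ * κ) • hX.i (P.B (Sum.inr b)) := by
              rw [Finset.sum_comm]
              have e3 : ∀ b', ∑ a, cm P.Q⁻¹ a b' • ((κ0⁻¹ * H.tr X (hX.i (P.B (Sum.inr a)) *
                  (H.cl h ^ (2 * n - 2) * hX.i (P.B (Sum.inr b))))) •
                  hX.i (P.B (Sum.inr b'))) =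
                  (if b' = b then κ0⁻¹ * κ else 0) • hX.i (P.B (Sum.inr b')) := by
                intro b'
                have e4 : ∑ a, cm P.Q⁻¹ a b' * (κ0⁻¹ * (κ * ((P.Q a b : ℚ) : ℂ))) =
                    if b' = b then κ0⁻¹ * κ else 0 := by
                  have e5 : (cm P.Q⁻¹ * cm P.Q) b' b = if b' = b then 1 else 0 := by
                    rw [← cm_mul, Matrix.nonsing_inv_mul _ P.det, cm_one, Matrix.one_apply]
                  rw [Matrix.mul_apply] at e5
                  have e6 : ∑ a, cm P.Q⁻¹ a b' * (κ0⁻¹ * (κ * ((P.Q a b : ℚ) : ℂ))) =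
                      κ0⁻¹ * κ * ∑ a, cm P.Q⁻¹ b' a * cm P.Q a b := by
                    rw [Finset.mul_sum]
                    refine Finset.sum_congr rfl fun a _ => ?_
                    have e7 : cm P.Q⁻¹ a b' = cm P.Q⁻¹ b' a := by
                      change algebraMap ℚ ℂ _ = algebraMap ℚ ℂ _
                      rw [hQi]
                    have e8 : cm P.Q a b = ((P.Q a b : ℚ) : ℂ) := rfl
                    rw [e7, e8]
                    ring
                  rw [e6, e5]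
                  split_ifs
                  · rw [mul_one]
                  · rw [mul_zero]
                rw [← e4, Finset.sum_smul]
                refine Finset.sum_congr rfl fun a _ => ?_
                rw [smul_smul, hpsi _ (htT a), P.gram]
              rw [Finset.sum_congr rfl fun b' _ => e3 b',
                Finset.sum_eq_single_of_mem b (Finset.mem_univ b)]
              · rw [if_pos rfl]
              · intro b' _ hb'
                rw [if_neg hb', zero_smul]
            rw [e2, smul_smul]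
            congr 1
            field_simp [hp.ne, hκ]
        have h4 := LinearMap.congr_fun h3 v
        rw [LinearMap.comp_apply, LinearMap.comp_apply, LinearMap.comp_apply,
            LinearMap.mulLeft_apply, LinearMap.add_apply, LinearMap.smul_apply,
            LinearMap.smul_apply, TheoryData.actL_apply, TheoryData.actL_apply] at h4
        rw [← h4, ← hg, sub_self]
      · rw [hact2 k y hk hy, hθa, hνa]
        have h3 : ∀ w, H.tr X (hX.i w * y) = 0 := fun w =>
          tr_zero H (H.mul_mem (i_mem hX w) hy) (by omega)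
        simp only [h3, mul_zero, zero_smul, smul_zero, Finset.sum_const_zero, add_zero, sub_zero]
    exact LinearMap.congr_fun h2 y
  have hνm : ν ∈ spc H (X.prod X) := by
    rw [hν]
    refine Submodule.sum_mem _ fun c _ => spc_ext ?_ ?_
    · simp only [β]
      rw [map_sum]
      refine Submodule.sum_mem _ fun a _ => ?_
      rw [map_smul]
      obtain ⟨D', -, hD'⟩ := hX.lefschetz _ (P.ns a)
      rw [← hD']
      exact Submodule.smul_mem _ _ (cl_mem_spc _)
    · obtain ⟨D', -, hD'⟩ := hX.lefschetz _ (hgn _ (P.ns c))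
      rw [← hD']
      exact cl_mem_spc _
  have h5 : θ = (κ / (c * κ0)) • (H.cl Γ' - κ0 • ν) := by
    rw [key, add_sub_cancel_right, smul_smul]
    have h6 : κ / (c * κ0) * (c * κ0 / κ) = 1 := by
      field_simp [hc0, hp.ne, hκ]
    rw [h6, one_smul]
  rw [h5]
  exact Submodule.smul_mem _ _ (Submodule.sub_mem _ (cl_mem_spc _) (Submodule.smul_mem _ _ hνm))

end theta

end Run7.h158.Hdg
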